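import Mathlib

/-! # SRQ (helper6): strongly regular graphs and matrices with two eigenvalues (MP_6f6da3_co)

Definitions. -/

set_option autoImplicit false

namespace Pool.Agent.SRQ

/-- `S(G)`: the real symmetric matrices whose off-diagonal entries are nonzero exactly at the
edges of `G`; the diagonal entries are arbitrary -/
def SG {V : Type} (G : SimpleGraph V) : Set (Matrix V V ℝ) :=
  {A | A.IsSymm ∧ ∀ i j, i ≠ j → (A i j ≠ 0 ↔ G.Adj i j)}

/-- `q(G)`: the least number of distinct eigenvalues of a matrix in `S(G)` -/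
noncomputable def qG {V : Type} [Fintype V] [DecidableEq V] (G : SimpleGraph V) : ℕ :=
  sInf {m | ∃ A ∈ SG G, (spectrum ℝ A).ncard = m}

/-- `MB(G)`: the least `m` with `1 ≤ m`, `2 m ≤ n` such that some matrix in `S(G)` has exactly two
distinct eigenvalues, of multiplicities `n - m` and `m` -/
noncomputable def MB {V : Type} [Fintype V] [DecidableEq V] (G : SimpleGraph V) : ℕ :=
  sInf {m | 1 ≤ m ∧ 2 * m ≤ Fintype.card V ∧ ∃ A ∈ SG G, ∃ a b : ℝ, a ≠ b ∧
    A.charpoly.rootMultiplicity a = Fintype.card V - m ∧ A.charpoly.rootMultiplicity b = m}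

end Pool.Agent.SRQ
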