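import Pool.Agent.SRQ.OddB

/-! # SRQ (helper6): determinants and the powers of two (MP_6f6da3_co) -/

set_option autoImplicit false

namespace Pool.Agent.SRQ

open Finset Matrix Polynomial

variable {V : Type} [Fintype V] [DecidableEq V]

/-- the determinant of `M + X Y` for a symmetric real matrix `M` with zero eigenvalues -/
theorem X_pow_dvd {M : Matrix V V ℝ} (hM : M.IsHermitian) (Y : Matrix V V ℝ) :
    (X : ℝ[X]) ^ (univ.filter fun i => hM.eigenvalues i = 0).card ∣
      ((C : ℝ →+* ℝ[X]).mapMatrix M + (X : ℝ[X]) • (C : ℝ →+* ℝ[X]).mapMatrix Y).det := by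
  set φ : Matrix V V ℝ →+* Matrix V V ℝ[X] := (C : ℝ →+* ℝ[X]).mapMatrix with hφ
  set U : Matrix V V ℝ := (hM.eigenvectorUnitary : Matrix V V ℝ) with hU
  have hUU : U * star U = 1 := Unitary.mul_star_self_of_mem (SetLike.coe_mem _)
  have hM' : M = U * diagonal hM.eigenvalues * star U := by
    conv_lhs => rw [hM.spectral_theorem]
    rfl
  set W := star U * Y * U with hW
  have hY : Y = U * W * star U := by
    rw [hW]
    calc Y = (U * star U) * Y * (U * star U) := by rw [hUU, one_mul, mul_one]
      _ = _ := by simp only [mul_assoc]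
  have h1 : φ M + (X : ℝ[X]) • φ Y = φ U * (φ (diagonal hM.eigenvalues) + (X : ℝ[X]) • φ W) *
      φ (star U) := by
    conv_lhs => rw [hM', hY]
    rw [map_mul, map_mul, map_mul, map_mul, mul_add, add_mul, mul_smul_comm, smul_mul_assoc]
  have h2 : (φ U).det * (φ (star U)).det = 1 := by
    rw [← det_mul, ← map_mul, hUU, map_one, det_one]
  have h3 : (φ M + (X : ℝ[X]) • φ Y).det =
      (φ (diagonal hM.eigenvalues) + (X : ℝ[X]) • φ W).det := by
    rw [h1, det_mul, det_mul]
    linear_combination (φ (diagonal hM.eigenvalues) + (X : ℝ[X]) • φ W).det * h2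
  let v : V → ℝ[X] := fun i => if hM.eigenvalues i = 0 then X else 1
  let B : Matrix V V ℝ[X] := Matrix.of fun i j => if hM.eigenvalues i = 0 then C (W i j) else
    C (diagonal hM.eigenvalues i j) + X * C (W i j)
  have h4 : φ (diagonal hM.eigenvalues) + (X : ℝ[X]) • φ W = Matrix.of fun i j => v i * B i j := by
    ext1 i j
    show C (diagonal hM.eigenvalues i j) + X * C (W i j) = v i * B i j
    show C (diagonal hM.eigenvalues i j) + X * C (W i j) =
      (if hM.eigenvalues i = 0 then X else 1) * (if hM.eigenvalues i = 0 then C (W i j) else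
        C (diagonal hM.eigenvalues i j) + X * C (W i j))
    by_cases h : hM.eigenvalues i = 0
    · rw [if_pos h, if_pos h]
      have : diagonal hM.eigenvalues i j = 0 := by
        by_cases hij : i = j
        · subst hij
          rw [diagonal_apply_eq, h]
        · rw [diagonal_apply_ne _ hij]
      rw [this, map_zero, zero_add]
    · rw [if_neg h, if_neg h, one_mul]
  rw [h3, h4, det_mul_column]
  refine Dvd.dvd.mul_right ?_ _
  have h5 : ∏ i, v i = X ^ (univ.filter fun i => hM.eigenvalues i = 0).card := by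
    show ∏ i, (if hM.eigenvalues i = 0 then (X : ℝ[X]) else 1) = _
    rw [Finset.prod_ite, Finset.prod_const, Finset.prod_const_one, mul_one]
  rw [h5]

/-- the integer determinant of `M + 2 Y` -/
theorem two_pow_dvd (M Y : Matrix V V ℤ)
    (hM : ((Int.castRingHom ℝ).mapMatrix M).IsHermitian) :
    (2 : ℤ) ^ (univ.filter fun i => hM.eigenvalues i = 0).card ∣ (M + (2 : ℤ) • Y).det := by
  set z := (univ.filter fun i => hM.eigenvalues i = 0).card with hz
  set P : Matrix V V ℤ[X] := (C : ℤ →+* ℤ[X]).mapMatrix M +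
    (X : ℤ[X]) • (C : ℤ →+* ℤ[X]).mapMatrix Y with hP
  have h1 : (P.det).map (Int.castRingHom ℝ) =
      ((C : ℝ →+* ℝ[X]).mapMatrix ((Int.castRingHom ℝ).mapMatrix M) +
        (X : ℝ[X]) • (C : ℝ →+* ℝ[X]).mapMatrix ((Int.castRingHom ℝ).mapMatrix Y)).det := by
    rw [← coe_mapRingHom, RingHom.map_det]
    congr 1
    ext1 i j
    simp [hP]
  have h2 : (X : ℤ[X]) ^ z ∣ P.det := by
    rw [X_pow_dvd_iff]
    intro d hd
    have h3 := X_pow_dvd hM ((Int.castRingHom ℝ).mapMatrix Y)
    rw [← h1, X_pow_dvd_iff] at h3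
    have h4 := h3 d hd
    rw [coeff_map, eq_intCast] at h4
    exact_mod_cast h4
  obtain ⟨q, hq⟩ := h2
  have h3 : (M + (2 : ℤ) • Y).det = (P.det).eval 2 := by
    rw [← coe_evalRingHom, RingHom.map_det]
    congr 1
    ext1 i j
    show M i j + 2 * Y i j = eval 2 (C (M i j) + X * C (Y i j))
    simp
  rw [h3, hq, eval_mul, eval_pow, eval_X]
  exact dvd_mul_right _ _

end Pool.Agent.SRQ
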