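import Pool.Agent.SRQ.OddA

/-! # SRQ (helper6): maximal cliques and the signs of the triangles (MP_6f6da3_co) -/

set_option autoImplicit false
set_option linter.unusedSectionVars false

namespace Pool.Agent.SRQ

open Finset

variable {V : Type} [Fintype V] [DecidableEq V] {G : SimpleGraph V} [DecidableRel G.Adj]

omit [Fintype V] [DecidableEq V] [DecidableRel G.Adj] in
/-- three different common neighbours -/
theorem Two.three (h2 : Two G) {x y u v w : V} (hxy : x ≠ y) (hu : G.Adj x u) (hu' : G.Adj u y)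
    (hv : G.Adj x v) (hv' : G.Adj v y) (hw : G.Adj x w) (hw' : G.Adj w y) (huv : u ≠ v)
    (huw : u ≠ w) (hvw : v ≠ w) : G.Adj x y := by
  by_contra hn
  obtain ⟨p, q, -, h⟩ := h2 x y hxy hn
  have e1 := (h u).1 ⟨hu, hu'⟩
  have e2 := (h v).1 ⟨hv, hv'⟩
  have e3 := (h w).1 ⟨hw, hw'⟩
  rcases e1 with rfl | rfl <;> rcases e2 with rfl | rfl <;> rcases e3 with rfl | rfl <;>
    simp_all

theorem mem_Cn {x y z : V} : z ∈ Cn G x y ↔ G.Adj x z ∧ G.Adj z y := by
  simp [Cn]

/-- transitivity in the common neighbourhood of an edge -/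
theorem Two.trans (h2 : Two G) {x y z w u : V} (hxy : G.Adj x y) (hz : z ∈ Cn G x y)
    (hw : w ∈ Cn G x y) (hu : u ∈ Cn G x y) (hzw : G.Adj z w) (hwu : G.Adj w u) (hzu : z ≠ u) :
    G.Adj z u := by
  rw [mem_Cn] at hz hw hu
  refine h2.three hzu hz.1.symm hu.1 hz.2 hu.2.symm hzw hwu hxy.ne hw.1.ne hw.2.ne'

/-- the number of the common neighbours of three vertices -/
def cc (G : SimpleGraph V) [DecidableRel G.Adj] (x y z : V) : ℕ :=
  (univ.filter fun w => G.Adj x w ∧ G.Adj y w ∧ G.Adj z w).card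

theorem cc_rot (x y z : V) : cc G x y z = cc G y z x := by
  unfold cc
  congr 1
  ext w
  simp only [Finset.mem_filter, Finset.mem_univ, true_and]
  tauto

theorem cc_swap (x y z : V) : cc G x y z = cc G y x z := by
  unfold cc
  congr 1
  ext w
  simp only [Finset.mem_filter, Finset.mem_univ, true_and]
  tauto

/-- the class of `z` in the common neighbourhood of `x`, `y` -/
def cls (G : SimpleGraph V) [DecidableRel G.Adj] (x y z : V) : Finset V :=
  (Cn G x y).filter fun w => w = z ∨ G.Adj z w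

theorem mem_cls {x y z w : V} : w ∈ cls G x y z ↔ (G.Adj x w ∧ G.Adj w y) ∧ (w = z ∨ G.Adj z w) := by
  unfold cls
  rw [Finset.mem_filter, mem_Cn]

theorem card_cls {x y z : V} (hz : z ∈ Cn G x y) : (cls G x y z).card = cc G x y z + 1 := by
  have h : cls G x y z = insert z (univ.filter fun w => G.Adj x w ∧ G.Adj y w ∧ G.Adj z w) := by
    ext w
    rw [mem_cls, Finset.mem_insert, Finset.mem_filter]
    rw [mem_Cn] at hz
    constructor
    · rintro ⟨⟨h1, h2⟩, h3 | h3⟩
      · exact Or.inl h3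
      · exact Or.inr ⟨Finset.mem_univ _, h1, h2.symm, h3⟩
    · rintro (rfl | ⟨-, h1, h2, h3⟩)
      · exact ⟨hz, Or.inl rfl⟩
      · exact ⟨⟨h1, h2.symm⟩, Or.inr h3⟩
  rw [h, Finset.card_insert_of_notMem]
  · rfl
  · rw [Finset.mem_filter]
    exact fun h => G.loopless.irrefl z h.2.2.2

theorem cls_eq (h2 : Two G) {x y z w : V} (hxy : G.Adj x y) (hz : z ∈ Cn G x y)
    (hw : w ∈ cls G x y z) : cls G x y w = cls G x y z := by
  have hw0 := mem_cls.1 hw
  have hwC : w ∈ Cn G x y := mem_Cn.2 hw0.1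
  rcases hw0.2 with rfl | hzw
  · rfl
  · ext v
    rw [mem_cls, mem_cls]
    constructor
    · rintro ⟨hv, rfl | hv'⟩
      · exact ⟨hv, Or.inr hzw⟩
      · refine ⟨hv, ?_⟩
        by_cases hvz : v = z
        · exact Or.inl hvz
        · exact Or.inr (h2.trans hxy hz hwC (mem_Cn.2 hv) hzw hv' (Ne.symm hvz))
    · rintro ⟨hv, rfl | hv'⟩
      · exact ⟨hv, Or.inr hzw.symm⟩
      · refine ⟨hv, ?_⟩
        by_cases hvw : v = w
        · exact Or.inl hvw
        · exact Or.inr (h2.trans hxy hwC hz (mem_Cn.2 hv) hzw.symm hv' (Ne.symm hvw))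

/-- the sign of a triangle -/
def tri (S : V → V → ℤ) (x y z : V) : ℤ := S x y * (S x z * S z y)

omit [DecidableEq V] [DecidableRel G.Adj] in
theorem tri_rot {S : V → V → ℤ} (hS : Sg G S) (x y z : V) : tri S x y z = tri S y z x := by
  unfold tri
  rw [hS.symm y z, hS.symm y x, hS.symm x z]
  ring

omit [DecidableEq V] [DecidableRel G.Adj] in
theorem tri_swap {S : V → V → ℤ} (hS : Sg G S) (x y z : V) : tri S x y z = tri S y x z := by
  unfold tri
  rw [hS.symm y x, hS.symm y z, hS.symm z x]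
  ring

omit [DecidableEq V] [DecidableRel G.Adj] in
theorem tri_sq {S : V → V → ℤ} (hS : Sg G S) {x y z : V} (h1 : G.Adj x y) (h2 : G.Adj x z)
    (h3 : G.Adj z y) : tri S x y z * tri S x y z = 1 := by
  have e1 := hS.one x y h1
  have e2 := hS.one x z h2
  have e3 := hS.one z y h3
  unfold tri
  calc S x y * (S x z * S z y) * (S x y * (S x z * S z y)) =
      (S x y * S x y) * (S x z * S x z) * (S z y * S z y) := by ring
    _ = 1 := by rw [e1, e2, e3]; norm_num

/-- nonadjacent common neighbours give triangles of opposite signs -/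
theorem opp {S : V → V → ℤ} (hS : Sg G S) (h2 : Two G) {x y z w : V} (hxy : G.Adj x y)
    (hz : z ∈ Cn G x y) (hw : w ∈ Cn G x y) (hne : z ≠ w) (hn : ¬ G.Adj z w) :
    tri S x y w = - tri S x y z := by
  rw [mem_Cn] at hz hw
  obtain ⟨p, q, hpq, h⟩ := h2 z w hne hn
  have h0 := hS.quad z w hne hn
  rw [sum_two hpq h (fun v => S z v * S v w)] at h0
  · have hx := (h x).1 ⟨hz.1.symm, hw.1⟩
    have hy := (h y).1 ⟨hz.2, hw.2.symm⟩
    have hxy' := hxy.ne
    have key : S z x * S x w + S z y * S y w = 0 := by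
      rcases hx with rfl | rfl <;> rcases hy with rfl | rfl
      · exact absurd rfl hxy'
      · exact h0
      · linarith
      · exact absurd rfl hxy'
    have e1 := hS.one x y hxy
    have e2 := hS.one x z hz.1
    have e3 := hS.one z y hz.2
    unfold tri
    rw [hS.symm z x, hS.symm y w] at key
    have e4 : S x w * S w y = - (S x z * S z y) := by
      have e5 : S x z * (S x z * S x w + S z y * S w y) = 0 := by rw [key, mul_zero]
      have e6 := hS.one w y hw.2
      have e7 : S x w + S x z * S z y * S w y = 0 := by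
        linear_combination e5 - (S x w) * e2
      linear_combination (S w y) * e7 - (S x z * S z y) * e6
    rw [e4]
    ring
  · intro v hv
    rw [not_and_or] at hv
    rcases hv with hv | hv
    · rw [hS.zero z v hv, zero_mul]
    · rw [hS.zero v w hv, mul_zero]

/-- the sign of the new sign matrix on a triangle: the case of two cliques -/
theorem et_cls {S : V → V → ℤ} (hS : Sg G S) {k a : ℕ} (hG : Odd2 G k a) {x y z : V}
    (hxy : G.Adj x y) (hz : z ∈ Cn G x y) (hlt : cc G x y z + 1 < a) :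
    et G a S x y = chi a * (tri S x y z * (-1) ^ cc G x y z) := by
  have hz' := mem_Cn.1 hz
  have hsub : cls G x y z ⊆ Cn G x y := Finset.filter_subset _ _
  have hcard := card_cls hz
  obtain ⟨v, hv, hvz⟩ : ∃ v ∈ Cn G x y, v ∉ cls G x y z := by
    by_contra hc
    push Not at hc
    have := Finset.card_le_card hc
    rw [hG.lam x y hxy] at this
    omega
  have hout : ∀ v ∈ Cn G x y, v ∉ cls G x y z → tri S x y v = - tri S x y z := by
    intro v hv hvz
    refine opp hS hG.two hxy hz hv ?_ ?_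
    · rintro rfl
      exact hvz (mem_cls.2 ⟨mem_Cn.1 hv, Or.inl rfl⟩)
    · intro h
      exact hvz (mem_cls.2 ⟨mem_Cn.1 hv, Or.inr h⟩)
  have hin : ∀ w ∈ cls G x y z, tri S x y w = tri S x y z := by
    intro w hw
    have hwC := hsub hw
    have e1 := cls_eq hG.two hxy hz hw
    have e2 : tri S x y v = - tri S x y w := by
      refine opp hS hG.two hxy hwC hv ?_ ?_
      · rintro rfl
        exact hvz hw
      · intro h
        apply hvz
        rw [← e1]
        exact mem_cls.2 ⟨mem_Cn.1 hv, Or.inr h⟩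
    have e3 := hout v hv hvz
    linarith
  have hσ := tri_sq hS hxy hz'.1 hz'.2
  set σ := tri S x y z with hσdef
  unfold et
  congr 1
  have h1 : ∏ w ∈ Cn G x y, (S x y * (S x w * S w y)) = ∏ w ∈ Cn G x y, tri S x y w := rfl
  rw [h1, ← Finset.prod_sdiff hsub, Finset.prod_congr rfl hin,
    Finset.prod_congr rfl (fun v hv => hout v (Finset.mem_sdiff.1 hv).1 (Finset.mem_sdiff.1 hv).2),
    Finset.prod_const, Finset.prod_const, Finset.card_sdiff_of_subset hsub, hcard, hG.lam x y hxy]
  obtain ⟨b, hb⟩ := Nat.exists_eq_add_of_lt hlt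
  obtain ⟨m, hm⟩ := hG.odd
  have e1 : a - (cc G x y z + 1) = b + 1 := by omega
  rw [e1]
  have e2 : (-σ) ^ (b + 1) * σ ^ (cc G x y z + 1) = (-1) ^ (b + 1) * σ ^ a := by
    rw [neg_pow, mul_assoc, ← pow_add]
    congr 2
    omega
  have e3 : σ ^ a = σ := by
    rw [hm, pow_add, pow_mul, pow_two, hσ, one_pow, one_mul, pow_one]
  rw [e2, e3, mul_comm]
  congr 1
  rcases Nat.even_or_odd (cc G x y z) with hc | hc
  · rw [hc.neg_one_pow]
    apply Even.neg_one_pow
    rcases hc with ⟨c, hc⟩
    exact ⟨m - c, by omega⟩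
  · rw [hc.neg_one_pow]
    apply Odd.neg_one_pow
    rcases hc with ⟨c, hc⟩
    exact ⟨m - c - 1, by omega⟩

/-- the sign of the new sign matrix on a triangle: the case of one clique -/
theorem S'_clique {S : V → V → ℤ} (hS : Sg G S) {k a : ℕ} (hG : Odd2 G k a) (L : Finset V)
    (hcl : ∀ p ∈ L, ∀ q ∈ L, p ≠ q → G.Adj p q)
    (hCn : ∀ p ∈ L, ∀ q ∈ L, p ≠ q → Cn G p q = (L.erase p).erase q) {x y z : V} (hxL : x ∈ L)
    (hyL : y ∈ L) (hzL : z ∈ L) (hxy : x ≠ y) (hyz : y ≠ z) (hzx : z ≠ x) :
    S' G a S x y * (S' G a S x z * S' G a S z y) = chi a := by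
  let π : V → ℤ := fun p => ∏ w ∈ L.erase p, S p w
  have hπ : ∀ p ∈ L, π p * π p = 1 := by
    intro p hp
    show (∏ w ∈ L.erase p, S p w) * (∏ w ∈ L.erase p, S p w) = 1
    rw [← Finset.prod_mul_distrib]
    refine Finset.prod_eq_one fun w hw => ?_
    rw [Finset.mem_erase] at hw
    exact hS.one p w (hcl p hp w hw.2 (Ne.symm hw.1))
  have key : ∀ p ∈ L, ∀ q ∈ L, p ≠ q → S' G a S p q = chi a * (π p * π q) := by
    intro p hp q hq hpq
    have hadj := hcl p hp q hq hpq
    have hs := hS.one p q hadj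
    have e1 : π p = S p q * ∏ w ∈ (L.erase p).erase q, S p w :=
      (Finset.mul_prod_erase (L.erase p) (fun w => S p w)
        (Finset.mem_erase.2 ⟨Ne.symm hpq, hq⟩)).symm
    have e2 : π q = S q p * ∏ w ∈ (L.erase q).erase p, S q w :=
      (Finset.mul_prod_erase (L.erase q) (fun w => S q w)
        (Finset.mem_erase.2 ⟨hpq, hp⟩)).symm
    have e3 : (L.erase q).erase p = (L.erase p).erase q := Finset.erase_right_comm
    have e4 : ∏ w ∈ Cn G p q, (S p q * (S p w * S w q)) =
        S p q ^ a * ((∏ w ∈ (L.erase p).erase q, S p w) *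
          ∏ w ∈ (L.erase p).erase q, S q w) := by
      rw [Finset.prod_mul_distrib, Finset.prod_mul_distrib, Finset.prod_const,
        hG.lam p q hadj, hCn p hp q hq hpq]
      congr 2
      exact Finset.prod_congr rfl fun w _ => hS.symm w q
    have e5 : S p q * S p q ^ a = 1 := by
      obtain ⟨b, hb⟩ := hG.odd
      rw [hb, pow_succ, pow_mul, pow_two, hs, one_pow, one_mul, hs]
    unfold S' et
    rw [e4, e1, e2, e3, hS.symm q p]
    set A := ∏ w ∈ (L.erase p).erase q, S p w
    set B := ∏ w ∈ (L.erase p).erase q, S q w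
    calc S p q * (chi a * (S p q ^ a * (A * B))) =
        (S p q * S p q ^ a) * (chi a * (A * B)) := by ring
      _ = (S p q * S p q) * (chi a * (A * B)) := by rw [e5, hs]
      _ = chi a * (S p q * A * (S p q * B)) := by ring
  rw [key x hxL y hyL hxy, key x hxL z hzL (Ne.symm hzx), key z hzL y hyL (Ne.symm hyz)]
  calc chi a * (π x * π y) * (chi a * (π x * π z) * (chi a * (π z * π y))) =
      (chi a * chi a) * chi a * ((π x * π x) * (π y * π y) * (π z * π z)) := by ring
    _ = chi a := by rw [hπ x hxL, hπ y hyL, hπ z hzL, chi_sq]; ring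

/-- **the signs of the triangles** of the new sign matrix -/
theorem tri_new {S : V → V → ℤ} (hS : Sg G S) {k a : ℕ} (hG : Odd2 G k a) {x y z : V}
    (hxy : G.Adj x y) (hz : z ∈ Cn G x y) :
    tri (S' G a S) x y z = chi a * (-1) ^ cc G x y z := by
  have hz' := mem_Cn.1 hz
  have hcard := card_cls hz
  have hsub : cls G x y z ⊆ Cn G x y := Finset.filter_subset _ _
  have hle : cc G x y z + 1 ≤ a := by
    rw [← hcard, ← hG.lam x y hxy]
    exact Finset.card_le_card hsub
  rcases hle.lt_or_eq with hlt | heq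
  · have c1 : cc G x z y = cc G x y z := by rw [cc_rot x z y, cc_rot z y x, cc_swap y x z]
    have c2 : cc G z y x = cc G x y z := by rw [cc_rot z y x, cc_swap y x z]
    have t1 : tri S x z y = tri S x y z := by
      rw [tri_rot hS x z y, tri_rot hS z y x, tri_swap hS y x z]
    have t2 : tri S z y x = tri S x y z := by rw [tri_rot hS z y x, tri_swap hS y x z]
    have e1 := et_cls hS hG hxy hz hlt
    have e2 := et_cls hS hG hz'.1 (mem_Cn.2 ⟨hxy, hz'.2.symm⟩ : y ∈ Cn G x z) (by rw [c1]; exact hlt)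
    have e3 := et_cls hS hG hz'.2 (mem_Cn.2 ⟨hz'.1.symm, hxy⟩ : x ∈ Cn G z y)
      (by rw [c2]; exact hlt)
    rw [c1, t1] at e2
    rw [c2, t2] at e3
    have hσ := tri_sq hS hxy hz'.1 hz'.2
    have hp : ((-1 : ℤ) ^ cc G x y z) * (-1) ^ cc G x y z = 1 := by
      rw [← mul_pow]
      norm_num
    have hχ := chi_sq a
    have e4 : tri (S' G a S) x y z =
        tri S x y z * (et G a S x y * (et G a S x z * et G a S z y)) := by
      unfold tri S'
      ring
    rw [e4, e1, e2, e3]
    set σ := tri S x y z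
    set χ := chi a
    set ε : ℤ := (-1) ^ cc G x y z
    calc σ * (χ * (σ * ε) * (χ * (σ * ε) * (χ * (σ * ε)))) =
        (σ * σ) * (σ * σ) * (χ * χ) * (ε * ε) * (χ * ε) := by ring
      _ = χ * ε := by rw [hσ, hχ, hp]; ring
  · have hall : cls G x y z = Cn G x y := by
      refine Finset.eq_of_subset_of_card_le hsub ?_
      rw [hcard, hG.lam x y hxy, heq]
    set L : Finset V := insert x (insert y (Cn G x y)) with hL
    have hmem : ∀ w, w ∈ L ↔ w = x ∨ w = y ∨ (G.Adj x w ∧ G.Adj w y) := by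
      intro w
      rw [hL, Finset.mem_insert, Finset.mem_insert, mem_Cn]
    have hcl : ∀ p ∈ L, ∀ q ∈ L, p ≠ q → G.Adj p q := by
      intro p hp q hq hpq
      rw [hmem] at hp hq
      rcases hp with rfl | rfl | hp
      · rcases hq with rfl | rfl | hq
        · exact absurd rfl hpq
        · exact hxy
        · exact hq.1
      · rcases hq with rfl | rfl | hq
        · exact hxy.symm
        · exact absurd rfl hpq
        · exact hq.2.symm
      · rcases hq with rfl | rfl | hq
        · exact hp.1.symm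
        · exact hp.2
        · have h1 : p ∈ cls G x y z := by rw [hall]; exact mem_Cn.2 hp
          have h2 : q ∈ cls G x y z := by rw [hall]; exact mem_Cn.2 hq
          rw [← cls_eq hG.two hxy hz h1] at h2
          rcases (mem_cls.1 h2).2 with h3 | h3
          · exact absurd h3.symm hpq
          · exact h3
    have hLc : L.card = a + 2 := by
      rw [hL, Finset.card_insert_of_notMem, Finset.card_insert_of_notMem, hG.lam x y hxy]
      · rw [mem_Cn]
        exact fun h => G.loopless.irrefl y h.2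
      · rw [Finset.mem_insert, mem_Cn, not_or]
        exact ⟨hxy.ne, fun h => G.loopless.irrefl x h.1⟩
    have hCn : ∀ p ∈ L, ∀ q ∈ L, p ≠ q → Cn G p q = (L.erase p).erase q := by
      intro p hp q hq hpq
      symm
      refine Finset.eq_of_subset_of_card_le ?_ ?_
      · intro w hw
        rw [Finset.mem_erase, Finset.mem_erase] at hw
        exact mem_Cn.2 ⟨hcl p hp w hw.2.2 (Ne.symm hw.2.1), hcl w hw.2.2 q hq hw.1⟩
      · rw [hG.lam p q (hcl p hp q hq hpq), Finset.card_erase_of_mem, Finset.card_erase_of_mem hp,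
          hLc]
        · omega
        · exact Finset.mem_erase.2 ⟨Ne.symm hpq, hq⟩
    have h1 := S'_clique hS hG L hcl hCn ((hmem x).2 (Or.inl rfl))
      ((hmem y).2 (Or.inr (Or.inl rfl))) ((hmem z).2 (Or.inr (Or.inr hz'))) hxy.ne hz'.2.ne'
      hz'.1.ne'
    have h2 : Even (cc G x y z) := by
      obtain ⟨m, hm⟩ := hG.odd
      exact ⟨m, by omega⟩
    rw [h2.neg_one_pow, mul_one]
    exact h1

/-! ### types -/

/-- the type of an edge: the number of the common neighbours in the maximal clique of even size -/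
def tt (G : SimpleGraph V) [DecidableRel G.Adj] (x y : V) : ℕ :=
  ((Cn G x y).filter fun z => Odd (cc G x y z)).card

theorem tt_symm (x y : V) : tt G x y = tt G y x := by
  unfold tt
  rw [Cn_symm G x y]
  congr 1
  ext z
  rw [Finset.mem_filter, Finset.mem_filter, cc_swap x y z]

theorem tt_le {k a : ℕ} (hG : Odd2 G k a) {x y : V} (hxy : G.Adj x y) : tt G x y ≤ a := by
  rw [← hG.lam x y hxy]
  exact Finset.card_le_card (Finset.filter_subset _ _)

theorem tt_spec {S : V → V → ℤ} (hS : Sg G S) {k a : ℕ} (hG : Odd2 G k a) {x y z : V}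
    (hxy : G.Adj x y) (hz : z ∈ Cn G x y) :
    (Odd (cc G x y z) → tt G x y = cc G x y z + 1) ∧
      (Even (cc G x y z) → tt G x y + (cc G x y z + 1) = a) := by
  have hcard := card_cls hz
  have hz' := mem_Cn.1 hz
  have hsub : cls G x y z ⊆ Cn G x y := Finset.filter_subset _ _
  have hin : ∀ w ∈ cls G x y z, cc G x y w = cc G x y z := by
    intro w hw
    have e1 := cls_eq hG.two hxy hz hw
    have e2 := card_cls (hsub hw)
    rw [e1, hcard] at e2
    omega
  have hσ := tri_sq hS hxy hz'.1 hz'.2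
  have hopp : ∀ w ∈ Cn G x y, w ∉ cls G x y z → tri S x y w = - tri S x y z := by
    intro v hv hvz
    refine opp hS hG.two hxy hz hv ?_ ?_
    · rintro rfl
      exact hvz (mem_cls.2 ⟨mem_Cn.1 hv, Or.inl rfl⟩)
    · intro h
      exact hvz (mem_cls.2 ⟨mem_Cn.1 hv, Or.inr h⟩)
  have hR : ∀ w ∈ Cn G x y, w ∉ cls G x y z → cls G x y w = Cn G x y \ cls G x y z := by
    intro w hw hwz
    ext v
    rw [Finset.mem_sdiff]
    constructor
    · intro hv
      have hvC : v ∈ Cn G x y := (Finset.filter_subset _ _ : cls G x y w ⊆ Cn G x y) hv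
      refine ⟨hvC, fun hvz => hwz ?_⟩
      have e1 := cls_eq hG.two hxy hw hv
      have e2 := cls_eq hG.two hxy hz hvz
      rw [← e2, e1]
      exact mem_cls.2 ⟨mem_Cn.1 hw, Or.inl rfl⟩
    · rintro ⟨hv, hvz⟩
      refine mem_cls.2 ⟨mem_Cn.1 hv, ?_⟩
      by_contra hc
      rw [not_or] at hc
      have e1 := opp hS hG.two hxy hw hv (Ne.symm hc.1) hc.2
      rw [hopp v hv hvz, hopp w hw hwz] at e1
      have e2 : tri S x y z = 0 := by linarith
      rw [e2] at hσ
      exact absurd hσ (by norm_num)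
  have hRc : ∀ w ∈ Cn G x y, w ∉ cls G x y z → cc G x y w + 1 + (cc G x y z + 1) = a := by
    intro w hw hwz
    have e1 := card_cls hw
    have hle := Finset.card_le_card hsub
    rw [hR w hw hwz, Finset.card_sdiff_of_subset hsub, hcard, hG.lam x y hxy] at e1
    rw [hcard, hG.lam x y hxy] at hle
    omega
  obtain ⟨m, hm⟩ := hG.odd
  constructor
  · rintro ⟨c, hc⟩
    unfold tt
    rw [← hcard]
    congr 1
    ext w
    rw [Finset.mem_filter]
    constructor
    · rintro ⟨hw, c', hc'⟩
      by_contra hwz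
      have := hRc w hw hwz
      omega
    · intro hw
      refine ⟨hsub hw, c, ?_⟩
      rw [hin w hw, hc]
  · rintro ⟨c, hc⟩
    have e1 : (Cn G x y).filter (fun z => Odd (cc G x y z)) = Cn G x y \ cls G x y z := by
      ext w
      rw [Finset.mem_filter, Finset.mem_sdiff]
      constructor
      · rintro ⟨hw, c', hc'⟩
        refine ⟨hw, fun hwz => ?_⟩
        have := hin w hwz
        omega
      · rintro ⟨hw, hwz⟩
        refine ⟨hw, ?_⟩
        have := hRc w hw hwz
        exact ⟨m - c - 1, by omega⟩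
    have hle := Finset.card_le_card hsub
    unfold tt
    rw [e1, Finset.card_sdiff_of_subset hsub, hcard, hG.lam x y hxy]
    rw [hcard, hG.lam x y hxy] at hle
    omega

/-- the edges of a triangle have the same type -/
theorem tt_tri {S : V → V → ℤ} (hS : Sg G S) {k a : ℕ} (hG : Odd2 G k a) {x y z : V}
    (hxy : G.Adj x y) (hz : z ∈ Cn G x y) : tt G x z = tt G x y := by
  have hz' := mem_Cn.1 hz
  have c1 : cc G x z y = cc G x y z := by rw [cc_rot x z y, cc_rot z y x, cc_swap y x z]
  obtain ⟨e1, e2⟩ := tt_spec hS hG hxy hz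
  obtain ⟨e3, e4⟩ := tt_spec hS hG hz'.1 (mem_Cn.2 ⟨hxy, hz'.2.symm⟩ : y ∈ Cn G x z)
  rw [c1] at e3 e4
  rcases Nat.even_or_odd (cc G x y z) with hc | hc
  · have := e2 hc
    have := e4 hc
    omega
  · have := e1 hc
    have := e3 hc
    omega

/-- the type is even -/
theorem tt_even {S : V → V → ℤ} (hS : Sg G S) {k a : ℕ} (hG : Odd2 G k a) {x y : V}
    (hxy : G.Adj x y) : Even (tt G x y) := by
  obtain ⟨z, hz⟩ : (Cn G x y).Nonempty := by
    rw [← Finset.card_pos, hG.lam x y hxy]
    exact hG.odd.pos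
  obtain ⟨e1, e2⟩ := tt_spec hS hG hxy hz
  obtain ⟨m, hm⟩ := hG.odd
  rcases Nat.even_or_odd (cc G x y z) with hc | hc
  · have := e2 hc
    obtain ⟨c, hc⟩ := hc
    exact ⟨m - c, by omega⟩
  · have := e1 hc
    obtain ⟨c, hc⟩ := hc
    exact ⟨c + 1, by omega⟩

end Pool.Agent.SRQ
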