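import Pool.Agent.SRQ.EvA
import Pool.Agent.SRQ.OddC

/-! # SRQ (helper6): the case `k = 2` modulo four (MP_6f6da3_co) -/

set_option autoImplicit false
set_option linter.unusedSectionVars false

namespace Pool.Agent.SRQ

open Finset Matrix

section count

variable {V : Type} [Fintype V] [DecidableEq V]

/-- the trace of the square -/
theorem tr_sq {M : Matrix V V ℝ} (hM : M.IsHermitian) :
    (M * M).trace = ∑ i, hM.eigenvalues i * hM.eigenvalues i := by
  set U : Matrix V V ℝ := (hM.eigenvectorUnitary : Matrix V V ℝ) with hU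
  have hUU : star U * U = 1 := Unitary.star_mul_self_of_mem (SetLike.coe_mem _)
  set D : Matrix V V ℝ := diagonal hM.eigenvalues with hD
  have hM' : M = U * D * star U := by
    conv_lhs => rw [hM.spectral_theorem]
    rfl
  have h : M * M = U * (D * D) * star U := by
    conv_lhs => rw [hM']
    calc U * D * star U * (U * D * star U) = U * D * (star U * U) * D * star U := by
          simp only [mul_assoc]
      _ = U * (D * D) * star U := by rw [hUU, mul_one]; simp only [mul_assoc]
  rw [h, trace_mul_comm, ← mul_assoc, hUU, one_mul, hD, diagonal_mul_diagonal, trace_diagonal]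

/-- a cubic identity for the eigenvalues -/
theorem ev_cubic {M : Matrix V V ℝ} (hM : M.IsHermitian) (p q : ℝ)
    (h : M * M * M = p • (M * M) + q • M) (i : V) :
    hM.eigenvalues i * hM.eigenvalues i * hM.eigenvalues i =
      p * (hM.eigenvalues i * hM.eigenvalues i) + q * hM.eigenvalues i := by
  have h1 : M = Unitary.conjStarAlgAut ℝ (Matrix V V ℝ) hM.eigenvectorUnitary
      (diagonal hM.eigenvalues) := by
    conv_lhs => rw [hM.spectral_theorem]
    rfl
  set φ := Unitary.conjStarAlgAut ℝ (Matrix V V ℝ) hM.eigenvectorUnitary with hφ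
  have h3 : φ (diagonal hM.eigenvalues * diagonal hM.eigenvalues * diagonal hM.eigenvalues) =
      φ (p • (diagonal hM.eigenvalues * diagonal hM.eigenvalues) +
        q • diagonal hM.eigenvalues) := by
    rw [map_mul, map_mul, map_add, map_smul, map_smul, map_mul, ← h1, h]
  rw [(EquivLike.injective φ).eq_iff, diagonal_mul_diagonal, diagonal_mul_diagonal] at h3
  have h4 := congrFun (congrFun h3 i) i
  simpa using h4

/-- the number of the zero eigenvalues -/
theorem count_zero {M : Matrix V V ℝ} (hM : M.IsHermitian) (u v : ℝ)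
    (h : M * M * M = (u + v) • (M * M) + (-(u * v)) • M) :
    ((univ.filter fun i => hM.eigenvalues i = 0).card : ℝ) * (u * v) =
      (M * M).trace - (u + v) * M.trace + Fintype.card V * (u * v) := by
  have h1 : ∀ i, (if hM.eigenvalues i = 0 then (1 : ℝ) else 0) * (u * v) =
      hM.eigenvalues i * hM.eigenvalues i - (u + v) * hM.eigenvalues i + u * v := by
    intro i
    have h2 := ev_cubic hM _ _ h i
    by_cases h0 : hM.eigenvalues i = 0
    · rw [if_pos h0, h0]
      ring
    · rw [if_neg h0, zero_mul]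
      have h3 : hM.eigenvalues i * (hM.eigenvalues i * hM.eigenvalues i -
          (u + v) * hM.eigenvalues i + u * v) = 0 := by linarith
      exact ((mul_eq_zero.1 h3).resolve_left h0).symm
  rw [tr_sq hM, hM.trace_eq_sum_eigenvalues]
  have h4 : ((univ.filter fun i => hM.eigenvalues i = 0).card : ℝ) =
      ∑ i, if hM.eigenvalues i = 0 then (1 : ℝ) else 0 := by
    rw [Finset.sum_boole]
  rw [h4, Finset.sum_mul, Finset.sum_congr rfl fun i _ => h1 i, Finset.sum_add_distrib,
    Finset.sum_sub_distrib, Finset.mul_sum, Finset.sum_const, Finset.card_univ, nsmul_eq_mul]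
  simp

end count

variable {V : Type} [Fintype V] [DecidableEq V] {G : SimpleGraph V} [DecidableRel G.Adj]

/-- the sum of the signs of the triangles on an edge with two classes -/
theorem ta_cls {S : V → V → ℤ} (hS : Sg G S) (h2 : Two G) {a : ℕ} {x y z : V}
    (hxy : G.Adj x y) (hlam : (Cn G x y).card = a) (hz : z ∈ Cn G x y)
    (hlt : cc G x y z + 1 < a) :
    ta S x y = tri S x y z * (2 * cc G x y z + 2 - a) := by
  have hsub : cls G x y z ⊆ Cn G x y := Finset.filter_subset _ _
  have hcard := card_cls hz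
  obtain ⟨v, hv, hvz⟩ : ∃ v ∈ Cn G x y, v ∉ cls G x y z := by
    by_contra hc
    push Not at hc
    have := Finset.card_le_card hc
    omega
  have hout : ∀ v ∈ Cn G x y, v ∉ cls G x y z → tri S x y v = - tri S x y z := by
    intro v hv hvz
    refine opp hS h2 hxy hz hv ?_ ?_
    · rintro rfl
      exact hvz (mem_cls.2 ⟨mem_Cn.1 hv, Or.inl rfl⟩)
    · intro h
      exact hvz (mem_cls.2 ⟨mem_Cn.1 hv, Or.inr h⟩)
  have hin : ∀ w ∈ cls G x y z, tri S x y w = tri S x y z := by
    intro w hw
    have hwC := hsub hw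
    have e1 := cls_eq h2 hxy hz hw
    have e2 : tri S x y v = - tri S x y w := by
      refine opp hS h2 hxy hwC hv ?_ ?_
      · rintro rfl
        exact hvz hw
      · intro h
        apply hvz
        rw [← e1]
        exact mem_cls.2 ⟨mem_Cn.1 hv, Or.inr h⟩
    have e3 := hout v hv hvz
    linarith
  have h1 : ta S x y = ∑ w ∈ Cn G x y, tri S x y w := by
    unfold ta
    rw [PP_eq hS, Finset.mul_sum]
    rfl
  rw [h1, ← Finset.sum_sdiff hsub, Finset.sum_congr rfl hin,
    Finset.sum_congr rfl (fun v hv => hout v (Finset.mem_sdiff.1 hv).1 (Finset.mem_sdiff.1 hv).2),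
    Finset.sum_const, Finset.sum_const, Finset.card_sdiff_of_subset hsub, hcard, hlam]
  rw [nsmul_eq_mul, nsmul_eq_mul, Nat.cast_sub (by omega)]
  push_cast
  ring

/-- the multiplicity of an eigenvalue of the adjacency matrix -/
theorem mult (n k a : ℕ) (h : G.IsSRGWith n k a 2) (r s : ℤ)
    (h1 : r + s = a - 2) (h2 : r * s = 2 - k)
    (hM : ((Int.castRingHom ℝ).mapMatrix (G.adjMatrix ℤ - r • 1)).IsHermitian) :
    ((univ.filter fun i => hM.eigenvalues i = 0).card : ℤ) * ((s - r) * (k - r)) =
      n * (k * (1 + s)) := by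
  set N := G.adjMatrix ℝ with hN
  set J := JM V with hJ
  have hM' : (Int.castRingHom ℝ).mapMatrix (G.adjMatrix ℤ - r • 1) =
      N - (r : ℝ) • (1 : Matrix V V ℝ) := by
    ext x y
    simp only [RingHom.mapMatrix_apply, Matrix.map_apply, Matrix.sub_apply, Matrix.smul_apply,
      Matrix.one_apply, SimpleGraph.adjMatrix_apply, hN, eq_intCast]
    split_ifs <;> simp
  have hNN : N * N = ((k : ℝ) - 2) • (1 : Matrix V V ℝ) + ((a : ℝ) - 2) • N + (2 : ℝ) • J := by
    have := adj_sq G n k a 2 h
    simpa using this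
  have hNJ : N * J = (k : ℝ) • J := adj_J G n k a 2 h
  have hNs : N.IsSymm := G.isSymm_adjMatrix
  have hJN : J * N = (k : ℝ) • J := by
    have h1 : (N * J).transpose = ((k : ℝ) • J).transpose := by rw [hNJ]
    rw [Matrix.transpose_mul, Matrix.transpose_smul, hNs.eq, J_sym.eq] at h1
    exact h1
  have r1 : (r : ℝ) + s = a - 2 := by exact_mod_cast h1
  have r2 : (r : ℝ) * s = 2 - k := by exact_mod_cast h2
  have hcub : (N - (r : ℝ) • (1 : Matrix V V ℝ)) * (N - (r : ℝ) • (1 : Matrix V V ℝ)) *
      (N - (r : ℝ) • (1 : Matrix V V ℝ)) = (((s : ℝ) - r) + (k - r)) •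
        ((N - (r : ℝ) • (1 : Matrix V V ℝ)) * (N - (r : ℝ) • (1 : Matrix V V ℝ))) +
      (-(((s : ℝ) - r) * (k - r))) • (N - (r : ℝ) • (1 : Matrix V V ℝ)) := by
    have e1 : (N - (r : ℝ) • (1 : Matrix V V ℝ)) * (N - (r : ℝ) • (1 : Matrix V V ℝ)) =
        ((s : ℝ) - r) • (N - (r : ℝ) • (1 : Matrix V V ℝ)) + (2 : ℝ) • J := by
      rw [sub_mul, mul_sub, mul_sub, smul_mul_smul_comm, mul_smul_comm, smul_mul_assoc, hNN,
        mul_one, one_mul, mul_one]
      have r3 : (k : ℝ) - 2 = -(r * s) := by linarith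
      have r4 : (a : ℝ) - 2 = r + s := by linarith
      rw [r3, r4]
      module
    have e2 : J * (N - (r : ℝ) • (1 : Matrix V V ℝ)) = ((k : ℝ) - r) • J := by
      rw [mul_sub, mul_smul_comm, mul_one, hJN]
      module
    rw [e1, add_mul, smul_mul_assoc, smul_mul_assoc, e1, e2]
    module
  have htN : N.trace = 0 := by
    rw [hN, SimpleGraph.trace_adjMatrix]
  have htNN : (N * N).trace = n * k := by
    rw [hNN, Matrix.trace_add, Matrix.trace_add, Matrix.trace_smul, Matrix.trace_smul,
      Matrix.trace_smul, htN, hJ, tr_J, Matrix.trace_one, h.card]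
    simp only [smul_eq_mul, mul_zero, add_zero]
    ring
  rw [← hM'] at hcub
  have key := count_zero hM _ _ hcub
  generalize (univ.filter fun i => hM.eigenvalues i = 0).card = z at key ⊢
  rw [hM'] at key
  have e1 : (N - (r : ℝ) • (1 : Matrix V V ℝ)) * (N - (r : ℝ) • (1 : Matrix V V ℝ)) =
      N * N - (2 * (r : ℝ)) • N + ((r : ℝ) * r) • (1 : Matrix V V ℝ) := by
    rw [sub_mul, mul_sub, mul_sub, smul_mul_smul_comm, mul_smul_comm, smul_mul_assoc,
      mul_one, one_mul, mul_one]
    module
  rw [e1, Matrix.trace_add, Matrix.trace_sub, Matrix.trace_sub, Matrix.trace_smul,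
    Matrix.trace_smul, Matrix.trace_smul, htN, htNN, Matrix.trace_one, h.card] at key
  simp only [smul_eq_mul, mul_zero] at key
  have fin : ((z : ℤ) : ℝ) * (((s : ℝ) - r) * (k - r)) = n * (k * (1 + s)) := by
    push_cast
    linear_combination key
  exact_mod_cast fin

end Pool.Agent.SRQ
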