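import Pool.Agent.SRQ.EvB

/-! # SRQ (helper6): the theorem for `k = 2` modulo four (MP_6f6da3_co) -/

set_option autoImplicit false
set_option linter.unusedSectionVars false

namespace Pool.Agent.SRQ

open Finset Matrix

variable {V : Type} [Fintype V] [DecidableEq V] {G : SimpleGraph V} [DecidableRel G.Adj]

/-- the eigenvalues of the adjacency matrix -/
theorem eigs (n k a : ℕ) (h : G.IsSRGWith n k a 2) (hne : G ≠ ⊤) (ha : Even a) (hk : Even k) :
    ∃ r s : ℤ, r + s = a - 2 ∧ r * s = 2 - k ∧ s < r ∧ Even r ∧ Even s := by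
  obtain ⟨hk2, hn, hp⟩ := param G n k a h hne
  obtain ⟨m, z, hm, hz⟩ := adj_trace G n k a h hne
  have hc : ((a : ℤ) - 2) * (n - 1) + 2 * k ≠ 0 := by
    rcases Nat.eq_zero_or_pos a with rfl | ha0
    · push_cast
      omega
    · obtain ⟨b, hb⟩ := ha
      have h2 : (2 : ℤ) ≤ a := by omega
      have h3 : (0 : ℤ) ≤ ((a : ℤ) - 2) * (n - 1) := mul_nonneg (by omega) (by omega)
      omega
  obtain ⟨D, hD⟩ := sq_of_mul m _ z hc hz
  obtain ⟨b, hb⟩ := ha
  obtain ⟨l, hl⟩ := hk
  have hDe : Even D := by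
    by_contra ho
    rw [Nat.not_even_iff_odd] at ho
    obtain ⟨p, hp⟩ := ho
    have h1 : 4 * k + a ^ 2 = D * D + (4 * a + 4) := by rw [hm, hD]
    rw [hp, hb] at h1
    ring_nf at h1
    omega
  obtain ⟨e, he⟩ := hDe
  have h1 : (4 * (k : ℤ) + a ^ 2) = D * D + (4 * a + 4) := by
    have : 4 * k + a ^ 2 = D * D + (4 * a + 4) := by rw [hm, hD]
    exact_mod_cast this
  have hbZ : (a : ℤ) = b + b := by exact_mod_cast hb
  have heZ : (D : ℤ) = e + e := by exact_mod_cast he
  have hlZ : (k : ℤ) = l + l := by exact_mod_cast hl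
  have h2 : (k : ℤ) + b * b = e * e + 2 * b + 1 := by
    rw [hbZ, heZ] at h1
    nlinarith
  have hrs : (((b : ℤ) - 1 + e)) * ((b : ℤ) - 1 - e) = 2 - k := by nlinarith
  have hev : Even ((b : ℤ) - 1 + e) := by
    by_contra ho
    rw [Int.not_even_iff_odd] at ho
    have ho2 : Odd ((b : ℤ) - 1 - e) := by
      obtain ⟨p, hp⟩ := ho
      exact ⟨p - e, by omega⟩
    have ho3 := ho.mul ho2
    rw [hrs] at ho3
    obtain ⟨p, hp⟩ := ho3
    omega
  refine ⟨b - 1 + e, b - 1 - e, by rw [hbZ]; ring, hrs, ?_, hev, ?_⟩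
  · have he0 : e ≠ 0 := by
      rintro rfl
      have h3 : (k : ℤ) + b * b = 2 * b + 1 := by
        push_cast at h2
        linarith
      have hk3 : (b : ℤ) + b + 2 ≤ k := by omega
      nlinarith
    omega
  · obtain ⟨p, hp⟩ := hev
    exact ⟨p - e, by omega⟩

/-- the inequality for the multiplicities -/
theorem ineq (k a r s : ℤ) (hk : 2 < k) (ha : 0 ≤ a) (hae : Even a) (h1 : r + s = a - 2)
    (h2 : r * s = 2 - k) (hsr : s < r) (c1 : 2 * k * (-1 - s) ≤ (r - s) * (k - r))
    (c2 : 2 * k * (1 + r) ≤ (r - s) * (k - s)) : False := by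
  have hs : s = a - 2 - r := by linarith
  subst hs
  obtain ⟨b, hb⟩ := hae
  have e1 : (r - (a - 2 - r)) * (r - (a - 2 - r) + a - 2) ≤ 2 * k * a := by nlinarith
  have e2 : 2 * k * a ≤ (r - (a - 2 - r)) * (r - (a - 2 - r) - a + 2) := by nlinarith
  have hD : 0 < r - (a - 2 - r) := by linarith
  have ha2 : a ≤ 2 := by
    by_contra hc
    push Not at hc
    nlinarith
  have hcase : a = 0 ∨ a = 2 := by omega
  rcases hcase with rfl | rfl
  · have e3 : r - (0 - 2 - r) ≤ 2 := by
      by_contra hc
      push Not at hc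
      nlinarith
    have e4 : r = 0 := by omega
    subst e4
    linarith
  · nlinarith

/-- **the two-adic bound** -/
theorem two_adic {S : V → V → ℤ} (hS : Sg G S) {n k a : ℕ} (h : G.IsSRGWith n k a 2)
    (r : ℤ) (hr : Even r) (l : ℕ) (hkl : k = 2 * l) (hl : Odd l) (hae : Even a) (c : ℤ)
    (hta : ∀ x y, G.Adj x y → (4 : ℤ) ∣ ta S x y - 2 * c)
    (hM : ((Int.castRingHom ℝ).mapMatrix (G.adjMatrix ℤ - r • 1)).IsHermitian) :
    2 * (univ.filter fun i => hM.eigenvalues i = 0).card ≤ n := by
  set z := (univ.filter fun i => hM.eigenvalues i = 0).card with hz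
  have hG2 : ∀ x, (univ.filter fun w => G.Adj x w).card = k := by
    intro x
    rw [← h.regular x, ← SimpleGraph.card_neighborFinset_eq_degree]
    congr 1
    ext w
    simp
  let MS : Matrix V V ℤ := Matrix.of S
  obtain ⟨r', hr'⟩ := hr
  let Y : Matrix V V ℤ := Matrix.of fun x y =>
    (if G.Adj x y then (if S x y = 1 then 0 else -1) else 0) + (if x = y then r' else 0)
  have hMS : MS = (G.adjMatrix ℤ - r • 1) + (2 : ℤ) • Y := by
    ext x y
    show S x y = (G.adjMatrix ℤ - r • (1 : Matrix V V ℤ)) x y + 2 *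
      ((if G.Adj x y then (if S x y = 1 then 0 else -1) else 0) + (if x = y then r' else 0))
    rw [Matrix.sub_apply, Matrix.smul_apply, Matrix.one_apply, SimpleGraph.adjMatrix_apply,
      smul_eq_mul]
    by_cases hxy : G.Adj x y
    · rw [if_pos hxy, if_pos hxy, if_neg hxy.ne, if_neg hxy.ne]
      rcases hS.pm hxy with h1 | h1
      · rw [h1, if_pos rfl]
        ring
      · rw [h1, if_neg (by norm_num)]
        ring
    · rw [if_neg hxy, if_neg hxy, hS.zero x y hxy]
      by_cases hx : x = y
      · rw [if_pos hx, if_pos hx, hr']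
        ring
      · rw [if_neg hx, if_neg hx]
        ring
  have hdvd : (2 : ℤ) ^ z ∣ MS.det := by
    rw [hMS]
    exact two_pow_dvd _ _ hM
  -- the square
  let T : Matrix V V ℤ := Matrix.of fun x y => if G.Adj x y then PP S x y / 2 else 0
  have hTe : ∀ x y, G.Adj x y → PP S x y = 2 * (PP S x y / 2) ∧
      ∃ d : ℤ, PP S x y / 2 = c + 2 * d := by
    intro x y hxy
    obtain ⟨e, he⟩ := hta x y hxy
    have h1 := hS.ta_mul hxy
    rcases hS.pm hxy with h2 | h2
    · rw [h2, one_mul] at h1
      have : PP S x y = 2 * (c + 2 * e) := by linarith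
      exact ⟨by omega, e, by omega⟩
    · rw [h2] at h1
      have : PP S x y = 2 * (c + 2 * (-e - c)) := by linarith
      exact ⟨by omega, -e - c, by omega⟩
  have hsq : MS * MS = (2 : ℤ) • ((l : ℤ) • (1 : Matrix V V ℤ) + T) := by
    ext x y
    rw [Matrix.mul_apply, Matrix.smul_apply, Matrix.add_apply, Matrix.smul_apply,
      Matrix.one_apply, smul_eq_mul, smul_eq_mul]
    show ∑ w, S x w * S w y = 2 * ((l : ℤ) * (if x = y then 1 else 0) +
      (if G.Adj x y then PP S x y / 2 else 0))
    by_cases hxy : x = y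
    · subst hxy
      rw [if_pos rfl, if_neg (G.loopless.irrefl x)]
      have e1 : ∑ w, S x w * S w x = ((univ.filter fun w => G.Adj x w).card : ℤ) := by
        rw [Finset.card_filter]
        push_cast
        refine Finset.sum_congr rfl fun w _ => ?_
        by_cases h : G.Adj x w
        · rw [if_pos h, hS.symm w x]
          exact hS.one x w h
        · rw [if_neg h, hS.zero x w h, zero_mul]
      rw [e1, hG2 x, hkl]
      push_cast
      ring
    · rw [if_neg hxy]
      by_cases h : G.Adj x y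
      · rw [if_pos h, mul_zero, zero_add]
        exact (hTe x y h).1
      · rw [if_neg h, hS.quad x y hxy h]
        ring
  have hodd : Odd ((l : ℤ) • (1 : Matrix V V ℤ) + T).det := by
    set f := Int.castRingHom (ZMod 2)
    set N2 := G.adjMatrix (ZMod 2) with hN2
    have h1 : f.mapMatrix ((l : ℤ) • (1 : Matrix V V ℤ) + T) =
        1 + (c : ZMod 2) • N2 := by
      ext x y
      rw [RingHom.mapMatrix_apply, Matrix.map_apply, Matrix.add_apply, Matrix.add_apply,
        Matrix.smul_apply, Matrix.smul_apply, Matrix.one_apply, Matrix.one_apply, hN2,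
        SimpleGraph.adjMatrix_apply]
      show f ((l : ℤ) • (if x = y then 1 else 0) + (if G.Adj x y then PP S x y / 2 else 0)) = _
      have hl1 : ((l : ℤ) : ZMod 2) = 1 := by
        have := ZMod.natCast_eq_one_iff_odd.2 hl
        exact_mod_cast this
      by_cases hxy : x = y
      · subst hxy
        rw [if_pos rfl, if_neg (G.loopless.irrefl x), if_pos rfl, if_neg (G.loopless.irrefl x)]
        simp only [smul_eq_mul, mul_one, add_zero, mul_zero]
        exact hl1
      · rw [if_neg hxy, if_neg hxy]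
        by_cases h : G.Adj x y
        · rw [if_pos h, if_pos h]
          obtain ⟨-, d, hd⟩ := hTe x y h
          rw [hd]
          simp only [smul_eq_mul, mul_zero, zero_add, mul_one]
          show ((c + 2 * d : ℤ) : ZMod 2) = c
          push_cast
          rw [show (2 : ZMod 2) = 0 from rfl]
          ring
        · rw [if_neg h, if_neg h]
          simp
    have h2 : N2 * N2 = 0 := by
      ext x y
      rw [Matrix.zero_apply]
      have h3 := congrFun (congrFun (adj_sq G n k a 2 h) x) y
      have h4 : (N2 * N2) x y = (((G.adjMatrix ℤ * G.adjMatrix ℤ) x y : ℤ) : ZMod 2) := by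
        rw [Matrix.mul_apply, Matrix.mul_apply]
        push_cast
        refine Finset.sum_congr rfl fun w _ => ?_
        rw [hN2]
        simp only [SimpleGraph.adjMatrix_apply]
        split_ifs <;> simp
      have h5 : (((G.adjMatrix ℤ * G.adjMatrix ℤ) x y : ℤ) : ℝ) =
          (G.adjMatrix ℝ * G.adjMatrix ℝ) x y := by
        rw [Matrix.mul_apply, Matrix.mul_apply]
        push_cast
        refine Finset.sum_congr rfl fun w _ => ?_
        simp only [SimpleGraph.adjMatrix_apply]
        split_ifs <;> simp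
      rw [h4]
      obtain ⟨b, hb⟩ := hae
      have h6 : ∃ d : ℤ, (G.adjMatrix ℤ * G.adjMatrix ℤ) x y = 2 * d := by
        rw [h3] at h5
        simp only [Matrix.add_apply, Matrix.smul_apply, Matrix.one_apply,
          SimpleGraph.adjMatrix_apply, JM, Matrix.of_apply, smul_eq_mul] at h5
        by_cases hxy : x = y
        · subst hxy
          rw [if_pos rfl, if_neg (G.loopless.irrefl x)] at h5
          refine ⟨l, ?_⟩
          have : (((G.adjMatrix ℤ * G.adjMatrix ℤ) x x : ℤ) : ℝ) = ((2 * l : ℤ) : ℝ) := by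
            rw [h5, hkl]
            push_cast
            ring
          exact_mod_cast this
        · rw [if_neg hxy] at h5
          by_cases hadj : G.Adj x y
          · rw [if_pos hadj] at h5
            refine ⟨b, ?_⟩
            have : (((G.adjMatrix ℤ * G.adjMatrix ℤ) x y : ℤ) : ℝ) = ((2 * b : ℤ) : ℝ) := by
              rw [h5, hb]
              push_cast
              ring
            exact_mod_cast this
          · rw [if_neg hadj] at h5
            refine ⟨1, ?_⟩
            have : (((G.adjMatrix ℤ * G.adjMatrix ℤ) x y : ℤ) : ℝ) = ((2 * 1 : ℤ) : ℝ) := by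
              rw [h5]
              push_cast
              ring
            exact_mod_cast this
      obtain ⟨d, hd⟩ := h6
      rw [hd]
      push_cast
      rw [show (2 : ZMod 2) = 0 from rfl, zero_mul]
    have h3 : (1 + (c : ZMod 2) • N2) * (1 + (c : ZMod 2) • N2) = 1 := by
      rw [add_mul, mul_add, mul_add, smul_mul_smul_comm, h2, smul_zero, add_zero, one_mul,
        mul_one, one_mul, add_assoc, ← add_smul]
      have : (c : ZMod 2) + (c : ZMod 2) = 0 := CharTwo.add_self_eq_zero _
      rw [this, zero_smul, add_zero]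
    have h4 : ((((l : ℤ) • (1 : Matrix V V ℤ) + T).det : ℤ) : ZMod 2) ≠ 0 := by
      have h5 : ((((l : ℤ) • (1 : Matrix V V ℤ) + T).det : ℤ) : ZMod 2) =
          (1 + (c : ZMod 2) • N2).det := by
        rw [← h1, ← RingHom.map_det]
        rfl
      rw [h5]
      intro h0
      have h6 : ((1 + (c : ZMod 2) • N2) * (1 + (c : ZMod 2) • N2)).det = 1 := by
        rw [h3, det_one]
      rw [det_mul, h0, mul_zero] at h6
      exact absurd h6 (by decide)
    rw [← Int.not_even_iff_odd]
    intro hev
    apply h4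
    rw [ZMod.intCast_zmod_eq_zero_iff_dvd]
    exact_mod_cast hev.two_dvd
  have hdet : MS.det * MS.det = 2 ^ n * ((l : ℤ) • (1 : Matrix V V ℤ) + T).det := by
    rw [← det_mul, hsq, det_smul, h.card]
  obtain ⟨q, hq⟩ := hdvd
  rw [hq] at hdet
  by_contra hlt
  push Not at hlt
  have h1 : (2 : ℤ) ^ z * q * (2 ^ z * q) = 2 ^ n * (2 * (2 ^ (2 * z - n - 1) * (q * q))) := by
    have e1 : (2 : ℤ) ^ z * 2 ^ z = 2 ^ n * (2 * 2 ^ (2 * z - n - 1)) := by
      rw [← pow_add, ← pow_succ', ← pow_add]
      congr 1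
      omega
    linear_combination (q * q) * e1
  rw [h1] at hdet
  have h2 := mul_left_cancel₀ (pow_ne_zero n (by norm_num : (2 : ℤ) ≠ 0)) hdet
  rw [← h2] at hodd
  exact (Int.not_even_iff_odd.2 hodd) ⟨2 ^ (2 * z - n - 1) * (q * q), by ring⟩

/-- **Theorem.** `c = 2`, `k = 2` modulo four. -/
theorem two_mod_four (G : SimpleGraph V) [DecidableRel G.Adj] (n k a : ℕ)
    (h : G.IsSRGWith n k a 2) (hne : G ≠ ⊤) (hk4 : k % 4 = 2) (hk2 : 2 < k) (hae : Even a)
    (e : ℕ) (hcc : ∀ x y z, G.Adj x y → G.Adj x z → G.Adj y z →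
      cc G x y z + 1 < a ∧ cc G x y z % 2 = e % 2) : qG G = 3 := by
  obtain ⟨hk, hn, -⟩ := param G n k a h hne
  have h2G := Two.of_srg G n k a h
  have hlam : ∀ x y, G.Adj x y → (Cn G x y).card = a := by
    intro x y hxy
    rw [← h.of_adj x y hxy, ← Set.toFinset_card]
    congr 1
    ext w
    rw [Set.mem_toFinset, SimpleGraph.mem_commonNeighbors, Cn, Finset.mem_filter]
    exact ⟨fun h => ⟨h.2.1, h.2.2.symm⟩, fun h => ⟨Finset.mem_univ _, h.1, h.2.symm⟩⟩
  have hV : Nonempty V := by
    rw [← Fintype.card_pos_iff, h.card]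
    omega
  obtain ⟨x⟩ := hV
  obtain ⟨y, hy⟩ : (G.neighborFinset x).Nonempty := by
    rw [← Finset.card_pos, SimpleGraph.card_neighborFinset_eq_degree, h.regular x]
    omega
  rw [SimpleGraph.mem_neighborFinset] at hy
  refine q_three G n k a 2 h x y hy fun A hA hA2 => ?_
  obtain ⟨α, β, hAA⟩ := two_ev hA.1 hA2
  obtain ⟨S, hS⟩ := Sg.of_mat h2G hA hAA
  obtain ⟨b, hb⟩ := id hae
  obtain ⟨r, s, h1, h2, hsr, hre, hse⟩ := eigs (G := G) n k a h hne hae
    ⟨k / 2, by omega⟩
  have hta : ∀ x y, G.Adj x y → (4 : ℤ) ∣ ta S x y - 2 * (if a = 0 then (0 : ℤ) else (e : ℤ) + 1 - b) := by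
    intro x y hxy
    by_cases ha0 : a = 0
    · rw [if_pos ha0]
      have h3 := hlam x y hxy
      rw [ha0, Finset.card_eq_zero] at h3
      have h4 : ta S x y = 0 := by
        unfold ta
        rw [PP_eq hS, h3, Finset.sum_empty, mul_zero]
      rw [h4]
      exact ⟨0, by ring⟩
    · rw [if_neg ha0]
      obtain ⟨z, hz⟩ : (Cn G x y).Nonempty := by
        rw [← Finset.card_pos, hlam x y hxy]
        omega
      have hz' := mem_Cn.1 hz
      obtain ⟨h3, h4⟩ := hcc x y z hxy hz'.1 hz'.2.symm
      have h5 := ta_cls hS h2G hxy (hlam x y hxy) hz h3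
      have h6 := tri_sq hS hxy hz'.1 hz'.2
      have h7 : tri S x y z = 1 ∨ tri S x y z = -1 := by
        have h8 : (tri S x y z - 1) * (tri S x y z + 1) = 0 := by linarith
        rcases mul_eq_zero.1 h8 with h9 | h9
        · left; linarith
        · right; linarith
      have h8 : (a : ℤ) = b + b := by omega
      rcases h7 with h7 | h7 <;> rw [h5, h7, h8] <;> omega
  have hMr : ∀ r : ℤ, ((Int.castRingHom ℝ).mapMatrix (G.adjMatrix ℤ - r • 1)).IsHermitian := by
    intro r
    apply isHerm
    ext x y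
    simp only [RingHom.mapMatrix_apply, Matrix.transpose_apply, Matrix.map_apply,
      Matrix.sub_apply, Matrix.smul_apply, Matrix.one_apply, SimpleGraph.adjMatrix_apply,
      G.adj_comm x y, eq_comm (a := x) (b := y)]
  have u1 := mult (G := G) n k a h r s h1 h2 (hMr r)
  have u2 := mult (G := G) n k a h s r (by linarith) (by linarith) (hMr s)
  have v1 := two_adic hS h r hre (k / 2) (by omega) ⟨k / 4, by omega⟩ hae _ hta (hMr r)
  have v2 := two_adic hS h s hse (k / 2) (by omega) ⟨k / 4, by omega⟩ hae _ hta (hMr s)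
  have hn0 : (0 : ℤ) < n := by omega
  have hrk : r < k := by
    by_contra hc
    push Not at hc
    have hs : s = a - 2 - r := by linarith
    rw [hs] at h2
    nlinarith
  refine ineq k a r s (by omega) (by omega) ⟨b, by omega⟩ h1 h2 hsr ?_ ?_
  · have w1 : 2 * (n * (k * (-1 - s))) ≤ (n : ℤ) * ((r - s) * (k - r)) := by
      have e1 : (n : ℤ) * (k * (-1 - s)) =
          ((univ.filter fun i => (hMr r).eigenvalues i = 0).card : ℤ) * ((r - s) * (k - r)) := by
        linear_combination u1
      rw [e1, ← mul_assoc]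
      exact mul_le_mul_of_nonneg_right (by exact_mod_cast v1)
        (mul_nonneg (by linarith) (by linarith))
    have w2 : (n : ℤ) * (2 * k * (-1 - s)) ≤ n * ((r - s) * (k - r)) := by linarith
    exact le_of_mul_le_mul_left w2 hn0
  · have w1 : 2 * (n * (k * (1 + r))) ≤ (n : ℤ) * ((r - s) * (k - s)) := by
      have e1 : (n : ℤ) * (k * (1 + r)) =
          ((univ.filter fun i => (hMr s).eigenvalues i = 0).card : ℤ) * ((r - s) * (k - s)) := by
        linear_combination -u2
      rw [e1, ← mul_assoc]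
      exact mul_le_mul_of_nonneg_right (by exact_mod_cast v2)
        (mul_nonneg (by linarith) (by linarith))
    have w2 : (n : ℤ) * (2 * k * (1 + r)) ≤ n * ((r - s) * (k - s)) := by linarith
    exact le_of_mul_le_mul_left w2 hn0

end Pool.Agent.SRQ
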