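import Pool.Agent.SRQ.OddB

/-! # SRQ (helper6): induced grids (MP_6f6da3_co) -/

set_option autoImplicit false
set_option linter.unusedSectionVars false

namespace Pool.Agent.SRQ

open Finset Matrix

variable {V : Type} [Fintype V] [DecidableEq V] {G : SimpleGraph V}

/-- the relation of an induced rectangle -/
theorem rect {S : V → V → ℤ} (hS : Sg G S) (h2 : Two G) {p q r s : V} (hps : p ≠ s)
    (hn : ¬ G.Adj p s) (hqr : q ≠ r) (h1 : G.Adj p q) (h3 : G.Adj q s) (h4 : G.Adj p r)
    (h5 : G.Adj r s) : S p q * S r s * (S p r * S q s) = -1 := by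
  obtain ⟨u, v, huv, h⟩ := h2 p s hps hn
  have h0 := hS.quad p s hps hn
  rw [sum_two huv h (fun w => S p w * S w s)] at h0
  · have hq := (h q).1 ⟨h1, h3⟩
    have hr := (h r).1 ⟨h4, h5⟩
    have key : S p q * S q s + S p r * S r s = 0 := by
      rcases hq with rfl | rfl <;> rcases hr with rfl | rfl
      · exact absurd rfl hqr
      · exact h0
      · linarith
      · exact absurd rfl hqr
    have e1 := hS.one p q h1
    have e2 := hS.one q s h3
    have e3 : S p r * S r s = -(S p q * S q s) := by linarith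
    calc S p q * S r s * (S p r * S q s) = (S p q * S q s) * (S p r * S r s) := by ring
      _ = -((S p q * S p q) * (S q s * S q s)) := by rw [e3]; ring
      _ = -1 := by rw [e1, e2]; norm_num
  · intro w hw
    rw [not_and_or] at hw
    rcases hw with hw | hw
    · rw [hS.zero p w hw, zero_mul]
    · rw [hS.zero w s hw, mul_zero]

/-- there is no induced grid with three rows and three columns -/
theorem no_grid {S : V → V → ℤ} (hS : Sg G S) (h2 : Two G) (f : Fin 3 × Fin 3 → V)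
    (hinj : Function.Injective f)
    (hf : ∀ p q, G.Adj (f p) (f q) ↔ p ≠ q ∧ (p.1 = q.1 ∨ p.2 = q.2)) : False := by
  have hrect : ∀ i i' j j' : Fin 3, i ≠ i' → j ≠ j' →
      S (f (i, j)) (f (i, j')) * S (f (i', j)) (f (i', j')) *
        (S (f (i, j)) (f (i', j)) * S (f (i, j')) (f (i', j'))) = -1 := by
    intro i i' j j' hi hj
    refine rect hS h2 (fun h => hi (congrArg Prod.fst (hinj h))) ?_
      (fun h => hi (congrArg Prod.fst (hinj h))) ?_ ?_ ?_ ?_
    · rw [hf]
      rintro ⟨-, h | h⟩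
      · exact hi h
      · exact hj h
    · rw [hf]
      exact ⟨fun h => hj (congrArg Prod.snd h), Or.inl rfl⟩
    · rw [hf]
      exact ⟨fun h => hi (congrArg Prod.fst h), Or.inr rfl⟩
    · rw [hf]
      exact ⟨fun h => hi (congrArg Prod.fst h), Or.inr rfl⟩
    · rw [hf]
      exact ⟨fun h => hj (congrArg Prod.snd h), Or.inl rfl⟩
  have hrow : ∀ i j j' : Fin 3, j ≠ j' →
      S (f (i, j)) (f (i, j')) * S (f (i, j)) (f (i, j')) = 1 := by
    intro i j j' hj
    refine hS.one _ _ ((hf _ _).2 ⟨fun h => hj (congrArg Prod.snd h), Or.inl rfl⟩)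
  have hcol : ∀ i i' j : Fin 3, i ≠ i' →
      S (f (i, j)) (f (i', j)) * S (f (i, j)) (f (i', j)) = 1 := by
    intro i i' j hi
    refine hS.one _ _ ((hf _ _).2 ⟨fun h => hi (congrArg Prod.fst h), Or.inr rfl⟩)
  let T : Fin 3 → ℤ := fun j => S (f (0, j)) (f (1, j)) * (S (f (0, j)) (f (2, j)) *
    S (f (1, j)) (f (2, j)))
  have hT : ∀ j j' : Fin 3, j ≠ j' → T j * T j' = -1 := by
    intro j j' hj
    have a1 := hrect 0 1 j j' (by decide) hj
    have a2 := hrect 0 2 j j' (by decide) hj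
    have a3 := hrect 1 2 j j' (by decide) hj
    have b0 := hrow 0 j j' hj
    have b1 := hrow 1 j j' hj
    have b2 := hrow 2 j j' hj
    show S (f (0, j)) (f (1, j)) * (S (f (0, j)) (f (2, j)) * S (f (1, j)) (f (2, j))) *
      (S (f (0, j')) (f (1, j')) * (S (f (0, j')) (f (2, j')) * S (f (1, j')) (f (2, j')))) = -1
    set r0 := S (f (0, j)) (f (0, j'))
    set r1 := S (f (1, j)) (f (1, j'))
    set r2 := S (f (2, j)) (f (2, j'))
    set c1 := S (f (0, j)) (f (1, j))
    set c2 := S (f (0, j)) (f (2, j))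
    set c3 := S (f (1, j)) (f (2, j))
    set d1 := S (f (0, j')) (f (1, j'))
    set d2 := S (f (0, j')) (f (2, j'))
    set d3 := S (f (1, j')) (f (2, j'))
    calc c1 * (c2 * c3) * (d1 * (d2 * d3)) =
        (r0 * r0) * (r1 * r1) * (r2 * r2) * (c1 * (c2 * c3) * (d1 * (d2 * d3))) := by
          rw [b0, b1, b2]
          ring
      _ = (r0 * r1 * (c1 * d1)) * (r0 * r2 * (c2 * d2)) * (r1 * r2 * (c3 * d3)) := by ring
      _ = -1 := by rw [a1, a2, a3]; norm_num
  have h01 := hT 0 1 (by decide)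
  have h02 := hT 0 2 (by decide)
  have h12 := hT 1 2 (by decide)
  have h3 : (T 0 * T 1 * T 2) * (T 0 * T 1 * T 2) = -1 := by
    calc (T 0 * T 1 * T 2) * (T 0 * T 1 * T 2) = (T 0 * T 1) * (T 0 * T 2) * (T 1 * T 2) := by
          ring
      _ = -1 := by rw [h01, h02, h12]; norm_num
  nlinarith [mul_self_nonneg (T 0 * T 1 * T 2)]

/-- **Theorem.** `c = 2` and an induced grid. -/
theorem grid_three (G : SimpleGraph V) [DecidableRel G.Adj] (n k a : ℕ)
    (h : G.IsSRGWith n k a 2) (f : Fin 3 × Fin 3 → V) (hinj : Function.Injective f)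
    (hf : ∀ p q, G.Adj (f p) (f q) ↔ p ≠ q ∧ (p.1 = q.1 ∨ p.2 = q.2)) : qG G = 3 := by
  have h1 : G.Adj (f (0, 0)) (f (0, 1)) := (hf _ _).2 ⟨by decide, Or.inl rfl⟩
  refine q_three G n k a 2 h _ _ h1 fun A hA h2 => ?_
  obtain ⟨α, β, hAA⟩ := two_ev hA.1 h2
  have h2G := Two.of_srg G n k a h
  obtain ⟨S, hS⟩ := Sg.of_mat h2G hA hAA
  exact no_grid hS h2G f hinj hf

end Pool.Agent.SRQ
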