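import Mathlib

/-! # SRQ (helper6): linear algebra for two-eigenvalue matrices (MP_6f6da3_co) -/

set_option autoImplicit false

namespace Pool.Agent.SRQ

open Matrix

variable {V : Type} [Fintype V] [DecidableEq V]

omit [Fintype V] [DecidableEq V] in
theorem isHerm {A : Matrix V V ℝ} (hA : A.IsSymm) : A.IsHermitian := by
  unfold Matrix.IsHermitian
  rw [Matrix.conjTranspose_eq_transpose_of_trivial]
  exact hA

/-- a quadratic identity for a real symmetric matrix is one for its eigenvalues -/
theorem sq_iff {A : Matrix V V ℝ} (hA : A.IsHermitian) (α β : ℝ) :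
    A * A = α • A + β • (1 : Matrix V V ℝ) ↔
      ∀ i, hA.eigenvalues i * hA.eigenvalues i = α * hA.eigenvalues i + β := by
  have h : A = Unitary.conjStarAlgAut ℝ (Matrix V V ℝ) hA.eigenvectorUnitary
      (diagonal hA.eigenvalues) := by
    conv_lhs => rw [hA.spectral_theorem]
    rfl
  set φ := Unitary.conjStarAlgAut ℝ (Matrix V V ℝ) hA.eigenvectorUnitary with hφ
  have h1 : A * A = φ (diagonal hA.eigenvalues * diagonal hA.eigenvalues) := by
    rw [map_mul, ← h]
  have h2 : α • A + β • (1 : Matrix V V ℝ) = φ (α • diagonal hA.eigenvalues + β • 1) := by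
    rw [map_add, map_smul, map_smul, map_one, ← h]
  rw [h1, h2, (EquivLike.injective φ).eq_iff, diagonal_mul_diagonal]
  constructor
  · intro h3 i
    have h4 := congrFun (congrFun h3 i) i
    simpa using h4
  · intro h3
    ext i j
    by_cases hij : i = j
    · subst hij
      simpa using h3 i
    · simp [hij]

/-- the trace of a symmetric square root of a positive scalar -/
theorem trace_sqrt {X : Matrix V V ℝ} (hX : X.IsHermitian) (m : ℝ) (hm : 0 ≤ m)
    (h : X * X = m • (1 : Matrix V V ℝ)) : ∃ z : ℤ, X.trace = z * Real.sqrt m := by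
  have h1 := (sq_iff hX 0 m).1 (by rw [h, zero_smul, zero_add])
  have h2 : ∀ i, ∃ z : ℤ, hX.eigenvalues i = z * Real.sqrt m := by
    intro i
    have h3 := h1 i
    have h4 : hX.eigenvalues i * hX.eigenvalues i = Real.sqrt m * Real.sqrt m := by
      rw [Real.mul_self_sqrt hm]
      linarith
    rcases mul_self_eq_mul_self_iff.1 h4 with h5 | h5
    · exact ⟨1, by rw [h5]; simp⟩
    · exact ⟨-1, by rw [h5]; simp⟩
  choose z hz using h2
  refine ⟨∑ i, z i, ?_⟩
  rw [hX.trace_eq_sum_eigenvalues]
  push_cast
  rw [Finset.sum_mul]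
  exact Finset.sum_congr rfl fun i _ => hz i

/-- two distinct eigenvalues give a quadratic identity -/
theorem two_ev {A : Matrix V V ℝ} (hA : A.IsSymm) (h : (spectrum ℝ A).ncard = 2) :
    ∃ α β : ℝ, A * A = α • A + β • (1 : Matrix V V ℝ) := by
  have hH := isHerm hA
  rw [Set.ncard_eq_two] at h
  obtain ⟨a, b, hab, h⟩ := h
  refine ⟨a + b, -(a * b), (sq_iff hH _ _).2 fun i => ?_⟩
  have h1 : hH.eigenvalues i ∈ spectrum ℝ A := hH.eigenvalues_mem_spectrum_real i
  rw [h] at h1
  rcases h1 with h1 | h1
  · rw [h1]; ring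
  · rw [Set.mem_singleton_iff.1 h1]; ring

/-- conversely a quadratic identity gives at most two eigenvalues -/
theorem ev_le_two {A : Matrix V V ℝ} (α β : ℝ)
    (h : A * A = α • A + β • (1 : Matrix V V ℝ)) : (spectrum ℝ A).ncard ≤ 2 := by
  classical
  let p : Polynomial ℝ := Polynomial.X ^ 2 - Polynomial.C α * Polynomial.X - Polynomial.C β
  have hp : Polynomial.aeval A p = 0 := by
    simp only [p, map_sub, map_mul, map_pow, Polynomial.aeval_X, Polynomial.aeval_C]
    rw [pow_two, h, Algebra.algebraMap_eq_smul_one, Algebra.algebraMap_eq_smul_one,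
      smul_mul_assoc, one_mul]
    abel
  have hd : p.natDegree = 2 := by
    simp only [p]
    compute_degree!
  have hp0 : p ≠ 0 := by
    intro h0
    rw [h0] at hd
    simp at hd
  have hs : spectrum ℝ A ⊆ (p.roots.toFinset : Set ℝ) := by
    intro x hx
    have h1 : Polynomial.eval x p ∈ spectrum ℝ (Polynomial.aeval A p) :=
      spectrum.subset_polynomial_aeval A p ⟨x, hx, rfl⟩
    by_cases hV : Nonempty V
    · rw [hp, spectrum.zero_eq, Set.mem_singleton_iff] at h1
      rw [Finset.mem_coe, Multiset.mem_toFinset, Polynomial.mem_roots hp0]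
      exact h1
    · exfalso
      have : Subsingleton (Matrix V V ℝ) := by
        rw [not_nonempty_iff] at hV
        infer_instance
      rw [spectrum.of_subsingleton] at hx
      exact hx
  calc (spectrum ℝ A).ncard ≤ (p.roots.toFinset : Set ℝ).ncard :=
        Set.ncard_le_ncard hs (Finset.finite_toSet _)
    _ = p.roots.toFinset.card := Set.ncard_coe_finset _
    _ ≤ Multiset.card p.roots := Multiset.toFinset_card_le _
    _ ≤ p.natDegree := Polynomial.card_roots' p
    _ = 2 := hd

/-- a symmetric matrix with a nonzero entry off the diagonal has at least two eigenvalues -/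
theorem two_le_ev {A : Matrix V V ℝ} (hA : A.IsSymm) (i j : V) (hij : i ≠ j) (h : A i j ≠ 0) :
    2 ≤ (spectrum ℝ A).ncard := by
  by_contra hlt
  have hH := isHerm hA
  have hfin : (spectrum ℝ A).Finite := Matrix.finite_real_spectrum
  have hi := hH.eigenvalues_mem_spectrum_real i
  have h1 : ∀ l, hH.eigenvalues l = hH.eigenvalues i := by
    intro l
    by_contra hne
    have h2 : ({hH.eigenvalues l, hH.eigenvalues i} : Set ℝ) ⊆ spectrum ℝ A := by
      rintro x (rfl | hx)
      · exact hH.eigenvalues_mem_spectrum_real l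
      · rw [Set.mem_singleton_iff.1 hx]
        exact hi
    have h3 := Set.ncard_le_ncard h2 hfin
    rw [Set.ncard_pair hne] at h3
    exact hlt h3
  have h4 : A = Unitary.conjStarAlgAut ℝ (Matrix V V ℝ) hH.eigenvectorUnitary
      (diagonal hH.eigenvalues) := by
    conv_lhs => rw [hH.spectral_theorem]
    rfl
  have h5 : (diagonal hH.eigenvalues : Matrix V V ℝ) =
      (hH.eigenvalues i) • (1 : Matrix V V ℝ) := by
    ext a b
    by_cases hab : a = b
    · subst hab
      simp [h1 a]
    · simp [hab]
  rw [h5, map_smul, map_one] at h4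
  apply h
  rw [h4]
  simp [hij]

/-- the all-ones matrix -/
def JM (V : Type) : Matrix V V ℝ := Matrix.of fun _ _ => 1

theorem adj_sq (G : SimpleGraph V) [DecidableRel G.Adj] (n k a c : ℕ)
    (h : G.IsSRGWith n k a c) :
    G.adjMatrix ℝ * G.adjMatrix ℝ = ((k : ℝ) - c) • (1 : Matrix V V ℝ) +
      ((a : ℝ) - c) • G.adjMatrix ℝ + (c : ℝ) • JM V := by
  have h1 := h.matrix_eq (α := ℝ)
  rw [pow_two, ← Nat.cast_smul_eq_nsmul ℝ k, ← Nat.cast_smul_eq_nsmul ℝ a,
    ← Nat.cast_smul_eq_nsmul ℝ c] at h1
  rw [h1]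
  ext x y
  simp only [Matrix.add_apply, Matrix.smul_apply, SimpleGraph.adjMatrix_apply, JM, Matrix.of_apply,
    SimpleGraph.compl_adj, smul_eq_mul, Matrix.one_apply]
  by_cases hxy : x = y
  · subst hxy
    simp
  · by_cases ha : G.Adj x y
    · simp [hxy, ha]
    · simp [hxy, ha]

omit [DecidableEq V] in
theorem adj_J (G : SimpleGraph V) [DecidableRel G.Adj] (n k a c : ℕ)
    (h : G.IsSRGWith n k a c) : G.adjMatrix ℝ * JM V = (k : ℝ) • JM V := by
  ext x y
  rw [Matrix.mul_apply]
  simp only [JM, Matrix.of_apply, mul_one, Matrix.smul_apply, smul_eq_mul]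
  rw [← h.regular x]
  have h1 := SimpleGraph.adjMatrix_mulVec_const_apply (G := G) (α := ℝ) (a := (1 : ℝ)) (v := x)
  simpa [Matrix.mulVec, dotProduct] using h1

/-- the adjacency matrix of a strongly regular graph has at most three eigenvalues -/
theorem ev_adj (G : SimpleGraph V) [DecidableRel G.Adj] (n k a c : ℕ)
    (h : G.IsSRGWith n k a c) : (spectrum ℝ (G.adjMatrix ℝ)).ncard ≤ 3 := by
  classical
  set N := G.adjMatrix ℝ with hN
  let p : Polynomial ℝ := (Polynomial.X - Polynomial.C (k : ℝ)) *
    (Polynomial.X ^ 2 - Polynomial.C ((a : ℝ) - c) * Polynomial.X - Polynomial.C ((k : ℝ) - c))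
  have hp : Polynomial.aeval N p = 0 := by
    have h1 : Polynomial.aeval N
        (Polynomial.X ^ 2 - Polynomial.C ((a : ℝ) - c) * Polynomial.X -
          Polynomial.C ((k : ℝ) - c)) = (c : ℝ) • JM V := by
      simp only [map_sub, map_mul, map_pow, Polynomial.aeval_X, Polynomial.aeval_C]
      rw [pow_two, adj_sq G n k a c h, Algebra.algebraMap_eq_smul_one,
        Algebra.algebraMap_eq_smul_one, Algebra.algebraMap_eq_smul_one, ← sub_smul, ← sub_smul,
        smul_mul_assoc, one_mul]
      abel
    simp only [p]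
    rw [map_mul, h1, map_sub, Polynomial.aeval_X, Polynomial.aeval_C,
      Algebra.algebraMap_eq_smul_one, sub_mul, mul_smul_comm, adj_J G n k a c h, smul_mul_assoc,
      one_mul, smul_comm, sub_self]
  have hd : p.natDegree = 3 := by
    simp only [p]
    compute_degree!
  have hp0 : p ≠ 0 := by
    intro h0
    rw [h0] at hd
    simp at hd
  have hs : spectrum ℝ N ⊆ (p.roots.toFinset : Set ℝ) := by
    intro x hx
    have h1 : Polynomial.eval x p ∈ spectrum ℝ (Polynomial.aeval N p) :=
      spectrum.subset_polynomial_aeval N p ⟨x, hx, rfl⟩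
    by_cases hV : Nonempty V
    · rw [hp, spectrum.zero_eq, Set.mem_singleton_iff] at h1
      rw [Finset.mem_coe, Multiset.mem_toFinset, Polynomial.mem_roots hp0]
      exact h1
    · exfalso
      have : Subsingleton (Matrix V V ℝ) := by
        rw [not_nonempty_iff] at hV
        infer_instance
      rw [spectrum.of_subsingleton] at hx
      exact hx
  calc (spectrum ℝ N).ncard ≤ (p.roots.toFinset : Set ℝ).ncard :=
        Set.ncard_le_ncard hs (Finset.finite_toSet _)
    _ = p.roots.toFinset.card := Set.ncard_coe_finset _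
    _ ≤ Multiset.card p.roots := Multiset.toFinset_card_le _
    _ ≤ p.natDegree := Polynomial.card_roots' p
    _ = 3 := hd

end Pool.Agent.SRQ
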