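import Pool.Agent.SRQ.Lin
import Pool.Agent.SRQ.Defs

/-! # SRQ (helper6): multiplicities for triangle-free graphs (MP_6f6da3_co) -/

set_option autoImplicit false
set_option linter.unusedSectionVars false

namespace Pool.Agent.SRQ

open Finset Matrix

variable {V : Type} [Fintype V] [DecidableEq V]

theorem mult_eq {A : Matrix V V ℝ} (hA : A.IsHermitian) (a : ℝ) :
    A.charpoly.rootMultiplicity a = (univ.filter fun i => hA.eigenvalues i = a).card := by
  classical
  rw [← Polynomial.count_roots, hA.roots_charpoly_eq_eigenvalues, Multiset.count_map,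
    Finset.card_def, Finset.filter_val]
  congr 1
  refine Multiset.filter_congr fun i _ => ?_
  show a = hA.eigenvalues i ↔ hA.eigenvalues i = a
  exact eq_comm

/-- two eigenvalues whose multiplicities sum to the order -/
theorem two_values {A : Matrix V V ℝ} (hA : A.IsHermitian) {a b : ℝ} (hab : a ≠ b) {m : ℕ}
    (hm : m ≤ Fintype.card V) (h1 : A.charpoly.rootMultiplicity a = Fintype.card V - m)
    (h2 : A.charpoly.rootMultiplicity b = m) (i : V) :
    hA.eigenvalues i = a ∨ hA.eigenvalues i = b := by
  rw [mult_eq hA] at h1 h2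
  have hd : Disjoint (univ.filter fun i => hA.eigenvalues i = a)
      (univ.filter fun i => hA.eigenvalues i = b) := by
    rw [Finset.disjoint_filter]
    intro j _ h3 h4
    exact hab (h3.symm.trans h4)
  have hc := Finset.card_union_of_disjoint hd
  rw [h1, h2, Nat.sub_add_cancel hm] at hc
  have hu := (Finset.card_eq_iff_eq_univ _).1 hc
  have hi : i ∈ (univ.filter fun i => hA.eigenvalues i = a) ∪
      (univ.filter fun i => hA.eigenvalues i = b) := by
    rw [hu]
    exact Finset.mem_univ i
  rw [Finset.mem_union, Finset.mem_filter, Finset.mem_filter] at hi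
  exact hi.imp (fun h => h.2) (fun h => h.2)

/-- the diagonal is constant -/
theorem diag_const (G : SimpleGraph V) [DecidableRel G.Adj] (n k c : ℕ)
    (h : G.IsSRGWith n k 0 c) (hk : 0 < k) (hc : 0 < c) (hn : 2 * k ≠ n) {A : Matrix V V ℝ}
    (hA : A ∈ SG G) {α β : ℝ} (hAA : A * A = α • A + β • (1 : Matrix V V ℝ)) (x : V) :
    2 * A x x = α := by
  obtain ⟨hs, hp⟩ := hA
  have hno : ∀ x y w, G.Adj x y → ¬ (G.Adj x w ∧ G.Adj w y) := by
    rintro x y w hxy ⟨h1, h2⟩
    have h3 := h.of_adj x y hxy
    rw [← Set.toFinset_card, Finset.card_eq_zero, Finset.eq_empty_iff_forall_notMem] at h3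
    apply h3 w
    rw [Set.mem_toFinset, SimpleGraph.mem_commonNeighbors]
    exact ⟨h1, h2.symm⟩
  have hadj : ∀ x y, G.Adj x y → A x x + A y y = α := by
    intro x y hxy
    have hne := hxy.ne
    have h1 := congrFun (congrFun hAA x) y
    rw [Matrix.mul_apply, Matrix.add_apply, Matrix.smul_apply, Matrix.smul_apply,
      Matrix.one_apply_ne hne, smul_zero, add_zero, smul_eq_mul] at h1
    have h2 : ∑ w, A x w * A w y = A x x * A x y + A x y * A y y := by
      rw [← Finset.sum_pair (f := fun w => A x w * A w y) hne]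
      symm
      refine Finset.sum_subset (Finset.subset_univ _) ?_
      intro w _ hw
      rw [Finset.mem_insert, Finset.mem_singleton, not_or] at hw
      have h3 := hno x y w hxy
      rw [not_and_or] at h3
      rcases h3 with h3 | h3
      · have : A x w = 0 := by
          by_contra h0
          exact h3 ((hp x w (Ne.symm hw.1)).1 h0)
        rw [this, zero_mul]
      · have : A w y = 0 := by
          by_contra h0
          exact h3 ((hp w y hw.2).1 h0)
        rw [this, mul_zero]
    rw [h2] at h1
    have h3 : A x y ≠ 0 := (hp x y hne).2 hxy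
    apply mul_right_cancel₀ h3
    linarith
  have hnon : ∀ x y, x ≠ y → ¬ G.Adj x y → A x x = A y y := by
    intro x y hne hxy
    have h1 := h.of_not_adj hne hxy
    rw [← Set.toFinset_card] at h1
    obtain ⟨u, hu⟩ : ((G.commonNeighbors x y).toFinset).Nonempty := by
      rw [← Finset.card_pos, h1]
      exact hc
    rw [Set.mem_toFinset, SimpleGraph.mem_commonNeighbors] at hu
    have e1 := hadj x u hu.1
    have e2 := hadj y u hu.2
    linarith
  obtain ⟨y, hy⟩ : (G.neighborFinset x).Nonempty := by
    rw [← Finset.card_pos, SimpleGraph.card_neighborFinset_eq_degree, h.regular x]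
    exact hk
  rw [SimpleGraph.mem_neighborFinset] at hy
  have hd : Disjoint (G.neighborFinset x) (G.neighborFinset y) := by
    rw [Finset.disjoint_left]
    intro w hw hw'
    rw [SimpleGraph.mem_neighborFinset] at hw hw'
    exact hno x y w hy ⟨hw, hw'.symm⟩
  have hcard := Finset.card_union_of_disjoint hd
  rw [SimpleGraph.card_neighborFinset_eq_degree, SimpleGraph.card_neighborFinset_eq_degree,
    h.regular x, h.regular y] at hcard
  obtain ⟨z, hz⟩ : ∃ z, z ∉ G.neighborFinset x ∪ G.neighborFinset y := by
    by_contra hall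
    push Not at hall
    have := (Finset.eq_univ_iff_forall).2 hall
    rw [this, Finset.card_univ, h.card] at hcard
    omega
  rw [Finset.mem_union, SimpleGraph.mem_neighborFinset, SimpleGraph.mem_neighborFinset,
    not_or] at hz
  have hzx : x ≠ z := by
    rintro rfl
    exact hz.2 hy.symm
  have hzy : y ≠ z := by
    rintro rfl
    exact hz.1 hy
  have e1 := hadj x y hy
  have e2 := hnon x z hzx hz.1
  have e3 := hnon y z hzy hz.2
  linarith

/-- the multiplicities are equal -/
theorem half (G : SimpleGraph V) [DecidableRel G.Adj] (n k c : ℕ)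
    (h : G.IsSRGWith n k 0 c) (hk : 0 < k) (hc : 0 < c) (hn : 2 * k ≠ n) {A : Matrix V V ℝ}
    (hA : A ∈ SG G) {a b : ℝ} (hab : a ≠ b) {m : ℕ} (hm : 2 * m ≤ Fintype.card V)
    (h1 : A.charpoly.rootMultiplicity a = Fintype.card V - m)
    (h2 : A.charpoly.rootMultiplicity b = m) : 2 * m = n := by
  have hH := isHerm hA.1
  have h3 := two_values hH hab (by omega) h1 h2
  have hAA : A * A = (a + b) • A + (-(a * b)) • (1 : Matrix V V ℝ) := by
    rw [sq_iff hH]
    intro i
    rcases h3 i with h4 | h4 <;> rw [h4] <;> ring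
  have hd := diag_const G n k c h hk hc hn hA hAA
  have htr : A.trace = Fintype.card V * ((a + b) / 2) := by
    rw [Matrix.trace]
    have : ∀ x, A.diag x = (a + b) / 2 := by
      intro x
      show A x x = (a + b) / 2
      have := hd x
      linarith
    rw [Finset.sum_congr rfl fun x _ => this x, Finset.sum_const, Finset.card_univ, nsmul_eq_mul]
  have hsum : A.trace = (Fintype.card V - m : ℝ) * a + m * b := by
    rw [hH.trace_eq_sum_eigenvalues]
    rw [mult_eq hH] at h1 h2
    have e1 : ∀ i, (hH.eigenvalues i : ℝ) = a + (b - a) * (if hH.eigenvalues i = b then 1 else 0) := by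
      intro i
      rcases h3 i with h4 | h4
      · rw [h4, if_neg hab]
        ring
      · rw [h4, if_pos rfl]
        ring
    have e2 : ∑ i, (hH.eigenvalues i : ℝ) = ∑ i, (a + (b - a) *
        (if hH.eigenvalues i = b then (1 : ℝ) else 0)) := Finset.sum_congr rfl fun i _ => e1 i
    have e3 : ∑ i, (if hH.eigenvalues i = b then (1 : ℝ) else 0) = m := by
      rw [Finset.sum_boole, h2]
    show ∑ i, (hH.eigenvalues i : ℝ) = _
    rw [e2, Finset.sum_add_distrib, ← Finset.mul_sum, e3, Finset.sum_const, Finset.card_univ,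
      nsmul_eq_mul]
    ring
  rw [htr] at hsum
  have h4 : ((Fintype.card V : ℝ) - 2 * m) * (a - b) = 0 := by linarith
  rcases mul_eq_zero.1 h4 with h5 | h5
  · have h6 : ((Fintype.card V : ℕ) : ℝ) = ((2 * m : ℕ) : ℝ) := by
      push_cast
      linarith
    have h7 : Fintype.card V = 2 * m := by exact_mod_cast h6
    rw [← h7, h.card]
  · exact absurd (by linarith) hab

/-- **Theorem.** `MB = n / 2` for triangle-free strongly regular graphs with `q = 2`. -/
theorem mb_half (G : SimpleGraph V) [DecidableRel G.Adj] (n k c : ℕ)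
    (h : G.IsSRGWith n k 0 c) (hk : 0 < k) (hc : 0 < c) (hn : 2 * k ≠ n) (hq : qG G = 2) :
    2 * MB G = n := by
  have hne : {m | ∃ A ∈ SG G, (spectrum ℝ A).ncard = m}.Nonempty := by
    by_contra hem
    rw [Set.not_nonempty_iff_eq_empty] at hem
    unfold qG at hq
    rw [hem, Nat.sInf_empty] at hq
    exact absurd hq (by norm_num)
  obtain ⟨A, hA, hA2⟩ : ∃ A ∈ SG G, (spectrum ℝ A).ncard = qG G := Nat.sInf_mem hne
  rw [hq, Set.ncard_eq_two] at hA2
  obtain ⟨a, b, hab, hsp⟩ := hA2
  have hH := isHerm hA.1
  have hval : ∀ i, hH.eigenvalues i = a ∨ hH.eigenvalues i = b := by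
    intro i
    have h1 : hH.eigenvalues i ∈ spectrum ℝ A := hH.eigenvalues_mem_spectrum_real i
    rw [hsp] at h1
    exact h1
  have hpos : ∀ x ∈ ({a, b} : Set ℝ), 0 < (univ.filter fun i => hH.eigenvalues i = x).card := by
    intro x hx
    rw [← hsp, hH.spectrum_real_eq_range_eigenvalues] at hx
    obtain ⟨i, hi⟩ := hx
    exact Finset.card_pos.2 ⟨i, Finset.mem_filter.2 ⟨Finset.mem_univ i, hi⟩⟩
  have ha0 := hpos a (Or.inl rfl)
  have hb0 := hpos b (Or.inr rfl)
  have htot : (univ.filter fun i => hH.eigenvalues i = a).card +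
      (univ.filter fun i => hH.eigenvalues i = b).card = Fintype.card V := by
    rw [← Finset.card_union_of_disjoint, ← Finset.card_univ]
    · congr 1
      ext i
      rw [Finset.mem_union, Finset.mem_filter, Finset.mem_filter]
      constructor
      · intro _
        exact Finset.mem_univ i
      · intro _
        exact (hval i).imp (fun h => ⟨Finset.mem_univ i, h⟩) (fun h => ⟨Finset.mem_univ i, h⟩)
    · rw [Finset.disjoint_filter]
      intro j _ h3 h4
      exact hab (h3.symm.trans h4)
  have hne2 : {m | 1 ≤ m ∧ 2 * m ≤ Fintype.card V ∧ ∃ A ∈ SG G, ∃ a b : ℝ, a ≠ b ∧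
      A.charpoly.rootMultiplicity a = Fintype.card V - m ∧
        A.charpoly.rootMultiplicity b = m}.Nonempty := by
    rcases le_total (univ.filter fun i => hH.eigenvalues i = a).card
      (univ.filter fun i => hH.eigenvalues i = b).card with hle | hle
    · refine ⟨(univ.filter fun i => hH.eigenvalues i = a).card, ha0, by omega, A, hA, b, a,
        hab.symm, ?_, ?_⟩
      · rw [mult_eq hH]
        omega
      · rw [mult_eq hH]
    · refine ⟨(univ.filter fun i => hH.eigenvalues i = b).card, hb0, by omega, A, hA, a, b,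
        hab, ?_, ?_⟩
      · rw [mult_eq hH]
        omega
      · rw [mult_eq hH]
  obtain ⟨-, hm2, B, hB, a', b', hab', e1, e2⟩ := Nat.sInf_mem hne2
  exact half G n k c h hk hc hn hB hab' hm2 e1 e2

end Pool.Agent.SRQ
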