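import Pool.Agent.SRQ.Sgn

/-! # SRQ (helper6): the case of odd `a` without induced diamonds (MP_6f6da3_co) -/

set_option autoImplicit false

namespace Pool.Agent.SRQ

open Finset

variable {V : Type} [Fintype V] [DecidableEq V] {G : SimpleGraph V}

/-- entries of the square -/
def PP (S : V → V → ℤ) (x y : V) : ℤ := ∑ w, S x w * S w y

/-- the sum of the signs of the triangles at an edge -/
def ta (S : V → V → ℤ) (x y : V) : ℤ := S x y * PP S x y

omit [DecidableEq V] in
theorem Sg.ta_mul {S : V → V → ℤ} (hS : Sg G S) {x y : V} (h : G.Adj x y) :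
    S x y * ta S x y = PP S x y := by
  unfold ta
  rw [← mul_assoc, hS.one x y h, one_mul]

omit [DecidableEq V] in
/-- the relation of the four edges of a quadrangle -/
theorem Sg.rel {S : V → V → ℤ} (hS : Sg G S) {x y u v : V} (hne : x ≠ y) (hxy : ¬ G.Adj x y)
    (huv : u ≠ v) (h : ∀ w, (G.Adj x w ∧ G.Adj w y) ↔ (w = u ∨ w = v)) :
    ta S u y + ta S x v = ta S x u + ta S v y := by
  have hu := (h u).2 (Or.inl rfl)
  have hv := (h v).2 (Or.inr rfl)
  have h1 : ∑ w, S x w * PP S w y = ∑ w, PP S x w * S w y := by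
    unfold PP
    simp only [Finset.mul_sum, Finset.sum_mul]
    rw [Finset.sum_comm]
    refine Finset.sum_congr rfl fun i _ => Finset.sum_congr rfl fun j _ => by ring
  rw [sum_two huv h (fun w => S x w * PP S w y), sum_two huv h (fun w => PP S x w * S w y)] at h1
  · have h2 := hS.quad x y hne hxy
    rw [sum_two huv h (fun w => S x w * S w y)] at h2
    · rw [← hS.ta_mul hu.2, ← hS.ta_mul hv.2, ← hS.ta_mul hu.1, ← hS.ta_mul hv.1] at h1
      have h3 : (S x u * S u y) * (S x u * S u y) = 1 := by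
        have e1 := hS.one x u hu.1
        have e2 := hS.one u y hu.2
        calc (S x u * S u y) * (S x u * S u y) = (S x u * S x u) * (S u y * S u y) := by ring
          _ = 1 := by rw [e1, e2, one_mul]
      have h4 : (S x u * S u y) * ((S x u * S u y) *
          (ta S u y - ta S v y - (ta S x u - ta S x v))) = 0 := by
        have h5 : (S x u * S u y) * (ta S u y - ta S v y - (ta S x u - ta S x v)) = 0 := by
          linear_combination h1 - (ta S v y - ta S x v) * h2
        rw [h5, mul_zero]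
      rw [← mul_assoc, h3, one_mul] at h4
      linarith
    · intro w hw
      rw [not_and_or] at hw
      rcases hw with hw | hw
      · rw [hS.zero x w hw, zero_mul]
      · rw [hS.zero w y hw, mul_zero]
  · intro w hw
    by_cases hw1 : G.Adj w y
    · have hw2 : ¬ G.Adj x w := fun h' => hw ⟨h', hw1⟩
      have hw3 : x ≠ w := by
        rintro rfl
        exact hxy hw1
      have : PP S x w = 0 := hS.quad x w hw3 hw2
      rw [this, zero_mul]
    · rw [hS.zero w y hw1, mul_zero]
  · intro w hw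
    by_cases hw1 : G.Adj x w
    · have hw2 : ¬ G.Adj w y := fun h' => hw ⟨hw1, h'⟩
      have hw3 : w ≠ y := by
        rintro rfl
        exact hxy hw1
      have : PP S w y = 0 := hS.quad w y hw3 hw2
      rw [this, mul_zero]
    · rw [hS.zero x w hw1, zero_mul]

omit [DecidableEq V] in
/-- multiplication of a sign matrix with signs whose product over quadrangles is one -/
theorem Sg.mul {S : V → V → ℤ} (hS : Sg G S) (h2 : Two G) (ζ : V → V → ℤ)
    (hs : ∀ x y, G.Adj x y → ζ x y = ζ y x) (h1 : ∀ x y, G.Adj x y → ζ x y * ζ x y = 1)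
    (hq : ∀ x y u v, x ≠ y → ¬ G.Adj x y → u ≠ v →
      (∀ w, (G.Adj x w ∧ G.Adj w y) ↔ (w = u ∨ w = v)) → ζ x u * ζ u y = ζ x v * ζ v y) :
    Sg G (fun x y => S x y * ζ x y) := by
  refine ⟨?_, ?_, ?_, ?_⟩
  · intro x y
    by_cases h : G.Adj x y
    · show S x y * ζ x y = S y x * ζ y x
      rw [hS.symm x y, hs x y h]
    · show S x y * ζ x y = S y x * ζ y x
      rw [hS.zero x y h, hS.zero y x (fun h' => h h'.symm), zero_mul, zero_mul]
  · intro x y h
    show S x y * ζ x y = 0
    rw [hS.zero x y h, zero_mul]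
  · intro x y h
    show S x y * ζ x y * (S x y * ζ x y) = 1
    have e1 := hS.one x y h
    have e2 := h1 x y h
    calc S x y * ζ x y * (S x y * ζ x y) = (S x y * S x y) * (ζ x y * ζ x y) := by ring
      _ = 1 := by rw [e1, e2, one_mul]
  · intro x y hne hxy
    obtain ⟨u, v, huv, h⟩ := h2 x y hne hxy
    have e0 := hS.quad x y hne hxy
    have hz : ∀ w, ¬ (G.Adj x w ∧ G.Adj w y) → S x w * S w y = 0 := by
      intro w hw
      rw [not_and_or] at hw
      rcases hw with hw | hw
      · rw [hS.zero x w hw, zero_mul]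
      · rw [hS.zero w y hw, mul_zero]
    rw [sum_two huv h (fun w => S x w * S w y) hz] at e0
    show ∑ w, S x w * ζ x w * (S w y * ζ w y) = 0
    rw [sum_two huv h (fun w => S x w * ζ x w * (S w y * ζ w y))]
    · have e1 := hq x y u v hne hxy huv h
      linear_combination (ζ x u * ζ u y) * e0 - (S x v * S v y) * e1
    · intro w hw
      have := hz w hw
      calc S x w * ζ x w * (S w y * ζ w y) = (S x w * S w y) * (ζ x w * ζ w y) := by ring
        _ = 0 := by rw [this, zero_mul]

/-- a sum of signs modulo four -/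
theorem sum_sign {ι : Type} [DecidableEq ι] (s : Finset ι) (f : ι → ℤ)
    (hf : ∀ i ∈ s, f i = 1 ∨ f i = -1) :
    (∏ i ∈ s, f i = 1 ∨ ∏ i ∈ s, f i = -1) ∧
      (4 : ℤ) ∣ (∑ i ∈ s, f i) - ((s.card : ℤ) - 1 + ∏ i ∈ s, f i) := by
  induction s using Finset.induction_on with
  | empty => simp
  | insert i s hi ih =>
    obtain ⟨h1, h2⟩ := ih fun j hj => hf j (Finset.mem_insert_of_mem hj)
    rw [Finset.prod_insert hi, Finset.sum_insert hi, Finset.card_insert_of_notMem hi]
    push_cast
    rcases hf i (Finset.mem_insert_self i s) with h3 | h3 <;> rcases h1 with h4 | h4 <;>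
      rw [h4] at h2 ⊢ <;> rw [h3]
    · refine ⟨Or.inl (by norm_num), ?_⟩
      omega
    · refine ⟨Or.inr (by norm_num), ?_⟩
      omega
    · refine ⟨Or.inr (by norm_num), ?_⟩
      omega
    · refine ⟨Or.inl (by norm_num), ?_⟩
      omega

/-- the common neighbours -/
def Cn (G : SimpleGraph V) [DecidableRel G.Adj] (x y : V) : Finset V :=
  univ.filter fun w => G.Adj x w ∧ G.Adj w y

/-- the properties of a strongly regular graph with `c = 2`, `a` odd -/
structure Odd2 (G : SimpleGraph V) [DecidableRel G.Adj] (k a : ℕ) : Prop where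
  two : Two G
  reg : ∀ x, (univ.filter fun w => G.Adj x w).card = k
  lam : ∀ x y, G.Adj x y → (Cn G x y).card = a
  odd : Odd a

/-- the same without diamonds -/
structure Odd' (G : SimpleGraph V) [DecidableRel G.Adj] (k a : ℕ) : Prop extends Odd2 G k a where
  dia : ∀ x y z w, G.Adj x y → G.Adj x z → G.Adj y z → G.Adj x w → G.Adj y w → z ≠ w → G.Adj z w

variable [DecidableRel G.Adj]

theorem PP_eq {S : V → V → ℤ} (hS : Sg G S) (x y : V) :
    PP S x y = ∑ w ∈ Cn G x y, S x w * S w y := by
  unfold PP Cn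
  symm
  refine Finset.sum_subset (Finset.filter_subset _ _) ?_
  intro w _ hw
  rw [Finset.mem_filter, not_and] at hw
  have hw' := hw (Finset.mem_univ w)
  rw [not_and_or] at hw'
  rcases hw' with h | h
  · rw [hS.zero x w h, zero_mul]
  · rw [hS.zero w y h, mul_zero]

theorem Sg.pm {S : V → V → ℤ} (hS : Sg G S) {x y : V} (h : G.Adj x y) :
    S x y = 1 ∨ S x y = -1 := by
  have h1 := hS.one x y h
  have h2 : (S x y - 1) * (S x y + 1) = 0 := by linarith
  rcases mul_eq_zero.1 h2 with h3 | h3
  · left; linarith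
  · right; linarith

/-- the residue of `a` modulo four as a sign -/
def chi (a : ℕ) : ℤ := if a % 4 = 1 then 1 else -1

theorem chi_sq (a : ℕ) : chi a * chi a = 1 := by
  unfold chi
  split_ifs <;> norm_num

/-- the sign of an edge which is congruent to `ta` modulo four -/
def et (G : SimpleGraph V) [DecidableRel G.Adj] (a : ℕ) (S : V → V → ℤ) (x y : V) : ℤ :=
  chi a * ∏ w ∈ Cn G x y, (S x y * (S x w * S w y))

theorem et_spec {S : V → V → ℤ} (hS : Sg G S) {k a : ℕ} (hG : Odd2 G k a) {x y : V}
    (h : G.Adj x y) : (et G a S x y = 1 ∨ et G a S x y = -1) ∧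
      (4 : ℤ) ∣ ta S x y - et G a S x y := by
  have h1 : ta S x y = ∑ w ∈ Cn G x y, S x y * (S x w * S w y) := by
    unfold ta
    rw [PP_eq hS, Finset.mul_sum]
  have hf : ∀ w ∈ Cn G x y, S x y * (S x w * S w y) = 1 ∨ S x y * (S x w * S w y) = -1 := by
    intro w hw
    rw [Cn, Finset.mem_filter] at hw
    rcases hS.pm h with e1 | e1 <;> rcases hS.pm hw.2.1 with e2 | e2 <;>
      rcases hS.pm hw.2.2 with e3 | e3 <;> rw [e1, e2, e3] <;> norm_num
  obtain ⟨h2, h3⟩ := sum_sign (Cn G x y) (fun w => S x y * (S x w * S w y)) hf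
  rw [← h1, hG.lam x y h] at h3
  have ha := hG.odd
  have hc : ∃ b : ℕ, (a = 4 * b + 1 ∧ chi a = 1) ∨ (a = 4 * b + 3 ∧ chi a = -1) := by
    obtain ⟨b, hb⟩ := ha
    rcases Nat.even_or_odd b with ⟨c, hc⟩ | ⟨c, hc⟩
    · refine ⟨c, Or.inl ⟨by omega, ?_⟩⟩
      unfold chi
      rw [if_pos (by omega)]
    · refine ⟨c, Or.inr ⟨by omega, ?_⟩⟩
      unfold chi
      rw [if_neg (by omega)]
  unfold et
  obtain ⟨b, ⟨hb, hc⟩ | ⟨hb, hc⟩⟩ := hc
  · rw [hc, one_mul]
    refine ⟨h2, ?_⟩
    rw [hb] at h3
    push_cast at h3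
    omega
  · rw [hc]
    rcases h2 with h2 | h2
    · rw [h2] at h3 ⊢
      refine ⟨by norm_num, ?_⟩
      rw [hb] at h3
      push_cast at h3
      omega
    · rw [h2] at h3 ⊢
      refine ⟨by norm_num, ?_⟩
      rw [hb] at h3
      push_cast at h3
      omega

theorem Cn_symm (G : SimpleGraph V) [DecidableRel G.Adj] (x y : V) : Cn G x y = Cn G y x := by
  ext w
  simp only [Cn, Finset.mem_filter, Finset.mem_univ, true_and]
  exact ⟨fun h => ⟨h.2.symm, h.1.symm⟩, fun h => ⟨h.2.symm, h.1.symm⟩⟩

theorem et_symm {S : V → V → ℤ} (hS : Sg G S) (a : ℕ) (x y : V) :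
    et G a S x y = et G a S y x := by
  unfold et
  rw [Cn_symm G x y]
  congr 1
  refine Finset.prod_congr rfl fun w _ => ?_
  rw [hS.symm x y, hS.symm x w, hS.symm w y]
  ring

theorem ta_symm {S : V → V → ℤ} (hS : Sg G S) (x y : V) : ta S x y = ta S y x := by
  unfold ta PP
  rw [hS.symm x y]
  congr 1
  refine Finset.sum_congr rfl fun w _ => ?_
  rw [hS.symm x w, hS.symm w y]
  ring

/-- the new sign matrix -/
def S' (G : SimpleGraph V) [DecidableRel G.Adj] (a : ℕ) (S : V → V → ℤ) (x y : V) : ℤ :=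
  S x y * et G a S x y

theorem Sg.new {S : V → V → ℤ} (hS : Sg G S) {k a : ℕ} (hG : Odd2 G k a) :
    Sg G (S' G a S) := by
  refine hS.mul hG.two (et G a S) (fun x y _ => et_symm hS a x y) ?_ ?_
  · intro x y h
    rcases (et_spec hS hG h).1 with h1 | h1 <;> rw [h1] <;> norm_num
  · intro x y u v hne hxy huv h
    have hu := (h u).2 (Or.inl rfl)
    have hv := (h v).2 (Or.inr rfl)
    have hr := hS.rel hne hxy huv h
    obtain ⟨a1, b1⟩ := et_spec hS hG hu.1
    obtain ⟨a2, b2⟩ := et_spec hS hG hu.2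
    obtain ⟨a3, b3⟩ := et_spec hS hG hv.1
    obtain ⟨a4, b4⟩ := et_spec hS hG hv.2
    rcases a1 with a1 | a1 <;> rcases a2 with a2 | a2 <;> rcases a3 with a3 | a3 <;>
      rcases a4 with a4 | a4 <;> rw [a1] at b1 <;> rw [a2] at b2 <;> rw [a3] at b3 <;>
      rw [a4] at b4 <;> rw [a1, a2, a3, a4] <;> first | norm_num; done | (exfalso; omega)

/-- triangles of the new sign matrix have constant sign -/
theorem S'_tri {S : V → V → ℤ} (hS : Sg G S) {k a : ℕ} (hG : Odd' G k a) {x y z : V}
    (hxy : G.Adj x y) (hyz : G.Adj y z) (hzx : G.Adj z x) :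
    S' G a S x y * S' G a S y z * S' G a S z x = chi a := by
  set L : Finset V := insert x (insert y (Cn G x y)) with hL
  have hmem : ∀ w, w ∈ L ↔ w = x ∨ w = y ∨ (G.Adj x w ∧ G.Adj w y) := by
    intro w
    simp only [hL, Finset.mem_insert, Cn, Finset.mem_filter, Finset.mem_univ, true_and]
  have hcl : ∀ p ∈ L, ∀ q ∈ L, p ≠ q → G.Adj p q := by
    intro p hp q hq hpq
    rw [hmem] at hp hq
    rcases hp with rfl | rfl | hp
    · rcases hq with rfl | rfl | hq
      · exact absurd rfl hpq
      · exact hxy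
      · exact hq.1
    · rcases hq with rfl | rfl | hq
      · exact hxy.symm
      · exact absurd rfl hpq
      · exact hq.2.symm
    · rcases hq with rfl | rfl | hq
      · exact hp.1.symm
      · exact hp.2
      · exact hG.dia x y p q hxy hp.1 hp.2.symm hq.1 hq.2.symm hpq
  have hxL : x ∈ L := (hmem x).2 (Or.inl rfl)
  have hyL : y ∈ L := (hmem y).2 (Or.inr (Or.inl rfl))
  have hzL : z ∈ L := (hmem z).2 (Or.inr (Or.inr ⟨hzx.symm, hyz.symm⟩))
  have hCn : ∀ p ∈ L, ∀ q ∈ L, p ≠ q → Cn G p q = (L.erase p).erase q := by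
    intro p hp q hq hpq
    have hadj := hcl p hp q hq hpq
    ext w
    simp only [Finset.mem_erase, Cn, Finset.mem_filter, Finset.mem_univ, true_and]
    constructor
    · rintro ⟨h1, h2⟩
      refine ⟨h2.ne, h1.ne', ?_⟩
      have hfar : ∀ t ∈ L, w = t ∨ G.Adj t w := by
        intro t ht
        by_cases htp : t = p
        · right; rw [htp]; exact h1
        by_cases htq : t = q
        · right; rw [htq]; exact h2.symm
        by_cases htw : t = w
        · left; exact htw.symm
        right
        exact hG.dia p q t w hadj (hcl p hp t ht (Ne.symm htp)) (hcl q hq t ht (Ne.symm htq)) h1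
          h2.symm htw
      rw [hmem]
      rcases hfar x hxL with h3 | h3
      · exact Or.inl h3
      · rcases hfar y hyL with h4 | h4
        · exact Or.inr (Or.inl h4)
        · exact Or.inr (Or.inr ⟨h3, h4.symm⟩)
    · rintro ⟨h1, h2, h3⟩
      exact ⟨hcl p hp w h3 (Ne.symm h2), hcl w h3 q hq h1⟩
  let π : V → ℤ := fun p => ∏ w ∈ L.erase p, S p w
  have hπ : ∀ p ∈ L, π p * π p = 1 := by
    intro p hp
    show (∏ w ∈ L.erase p, S p w) * (∏ w ∈ L.erase p, S p w) = 1
    rw [← Finset.prod_mul_distrib]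
    refine Finset.prod_eq_one fun w hw => ?_
    rw [Finset.mem_erase] at hw
    exact hS.one p w (hcl p hp w hw.2 (Ne.symm hw.1))
  have key : ∀ p ∈ L, ∀ q ∈ L, p ≠ q → S' G a S p q = chi a * (π p * π q) := by
    intro p hp q hq hpq
    have hadj := hcl p hp q hq hpq
    have hs := hS.one p q hadj
    have e1 : π p = S p q * ∏ w ∈ (L.erase p).erase q, S p w :=
      (Finset.mul_prod_erase (L.erase p) (fun w => S p w)
        (Finset.mem_erase.2 ⟨Ne.symm hpq, hq⟩)).symm
    have e2 : π q = S q p * ∏ w ∈ (L.erase q).erase p, S q w :=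
      (Finset.mul_prod_erase (L.erase q) (fun w => S q w)
        (Finset.mem_erase.2 ⟨hpq, hp⟩)).symm
    have e3 : (L.erase q).erase p = (L.erase p).erase q := Finset.erase_right_comm
    have e4 : ∏ w ∈ Cn G p q, (S p q * (S p w * S w q)) =
        S p q ^ a * ((∏ w ∈ (L.erase p).erase q, S p w) *
          ∏ w ∈ (L.erase p).erase q, S q w) := by
      rw [Finset.prod_mul_distrib, Finset.prod_mul_distrib, Finset.prod_const,
        hG.lam p q hadj, hCn p hp q hq hpq]
      congr 2
      exact Finset.prod_congr rfl fun w _ => hS.symm w q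
    have e5 : S p q * S p q ^ a = 1 := by
      obtain ⟨b, hb⟩ := hG.odd
      rw [hb, pow_succ, pow_mul, pow_two, hs, one_pow, one_mul, hs]
    unfold S' et
    rw [e4, e1, e2, e3, hS.symm q p]
    set A := ∏ w ∈ (L.erase p).erase q, S p w
    set B := ∏ w ∈ (L.erase p).erase q, S q w
    calc S p q * (chi a * (S p q ^ a * (A * B))) =
        (S p q * S p q ^ a) * (chi a * (A * B)) := by ring
      _ = (S p q * S p q) * (chi a * (A * B)) := by rw [e5, hs]
      _ = chi a * (S p q * A * (S p q * B)) := by ring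
  rw [key x hxL y hyL hxy.ne, key y hyL z hzL hyz.ne, key z hzL x hxL hzx.ne]
  calc chi a * (π x * π y) * (chi a * (π y * π z)) * (chi a * (π z * π x)) =
      (chi a * chi a) * chi a * ((π x * π x) * (π y * π y) * (π z * π z)) := by ring
    _ = chi a := by rw [hπ x hxL, hπ y hyL, hπ z hzL, chi_sq]; ring

/-- the square of the new sign matrix -/
theorem S'_sq {S : V → V → ℤ} (hS : Sg G S) {k a : ℕ} (hG : Odd' G k a) (x y : V) :
    ∑ w, S' G a S x w * S' G a S w y =
      (if x = y then (k : ℤ) else 0) + chi a * a * S' G a S x y := by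
  have hN := hS.new hG.toOdd2
  by_cases hxy : x = y
  · subst hxy
    rw [if_pos rfl, hN.zero x x (G.loopless.irrefl x), mul_zero, add_zero]
    rw [← hG.reg x, Finset.card_filter]
    push_cast
    refine Finset.sum_congr rfl fun w _ => ?_
    by_cases h : G.Adj x w
    · rw [if_pos h, hN.symm w x]
      exact hN.one x w h
    · rw [if_neg h, hN.zero x w h, zero_mul]
  · rw [if_neg hxy, zero_add]
    by_cases h : G.Adj x y
    · have h1 := PP_eq hN x y
      unfold PP at h1
      rw [h1]
      have h2 : ∀ w ∈ Cn G x y, S' G a S x w * S' G a S w y = chi a * S' G a S x y := by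
        intro w hw
        rw [Cn, Finset.mem_filter] at hw
        have h3 := S'_tri hS hG h hw.2.2.symm hw.2.1.symm
        have h4 := hN.one x y h
        rw [hN.symm y w, hN.symm w x] at h3
        linear_combination (-(S' G a S x w * S' G a S w y)) * h4 + (S' G a S x y) * h3
      rw [Finset.sum_congr rfl h2, Finset.sum_const, hG.lam x y h, nsmul_eq_mul]
      ring
    · rw [hN.quad x y hxy h, hN.zero x y h, mul_zero]

end Pool.Agent.SRQ
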