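import Pool.Agent.SRQ.OddA
import Pool.Agent.SRQ.Lin

/-! # SRQ (helper6): the arithmetic of the eigenvalues (MP_6f6da3_co) -/

set_option autoImplicit false

namespace Pool.Agent.SRQ

open Finset Matrix

/-- a nonzero integer which is an integer multiple of the square root of `m` -/
theorem sq_of_mul (m : ℕ) (c z : ℤ) (hc : c ≠ 0) (h : (c : ℝ) = z * Real.sqrt m) :
    IsSquare m := by
  by_contra hns
  have hirr : Irrational (Real.sqrt m) := irrational_sqrt_natCast_iff.2 hns
  have hz : z ≠ 0 := by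
    rintro rfl
    apply hc
    have : (c : ℝ) = 0 := by rw [h]; simp
    exact_mod_cast this
  have hz' : (z : ℝ) ≠ 0 := by exact_mod_cast hz
  apply hirr
  refine ⟨(c : ℚ) / z, ?_⟩
  push_cast
  rw [h]
  field_simp

/-- the contradiction -/
theorem no_squares (k a D' D : ℕ) (ha : Odd a) (hk : a + 2 ≤ k) (h1 : 4 * k + a ^ 2 = D' * D')
    (h2 : D * D + (4 * a + 4) = D' * D') : False := by
  have o1 : Odd D' := by
    have : Odd (D' * D') := by
      rw [← h1]
      exact Even.add_odd ⟨2 * k, by ring⟩ (Odd.pow ha)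
    exact (Nat.odd_mul.1 this).1
  have o2 : Odd D := by
    have h3 : Odd (D * D + (4 * a + 4)) := by
      rw [h2]
      exact o1.mul o1
    have h4 : Odd (D * D) := by
      rw [Nat.odd_add'] at h3
      by_contra hc
      have h5 : Even (4 * a + 4) := ⟨2 * a + 2, by ring⟩
      have h6 : Odd (4 * a + 4) := h3.2 (Nat.not_odd_iff_even.1 hc)
      exact (Nat.not_odd_iff_even.2 h5) h6
    exact (Nat.odd_mul.1 h4).1
  have h3 : a + 3 ≤ D' := by
    by_contra hc
    have h4 : D' ≤ a + 2 := by omega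
    have h5 := Nat.mul_le_mul h4 h4
    nlinarith
  have h4 : D < D' := by
    by_contra hc
    have h5 : D' ≤ D := by omega
    have h6 := Nat.mul_le_mul h5 h5
    omega
  have h5 : D + 2 ≤ D' := by
    obtain ⟨p, hp⟩ := o1
    obtain ⟨q, hq⟩ := o2
    omega
  have h6 := Nat.mul_le_mul h5 h5
  nlinarith

section

variable {V : Type} [Fintype V] [DecidableEq V]

theorem sq_sub' (X J : Matrix V V ℝ) (c : ℝ) : (X - c • J) * (X - c • J) =
    X * X - c • (X * J) - c • (J * X) + (c * c) • (J * J) := by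
  rw [sub_mul, mul_sub, mul_sub, smul_mul_smul_comm, mul_smul_comm, smul_mul_assoc]
  abel

theorem J_J : JM V * JM V = (Fintype.card V : ℝ) • JM V := by
  ext x y
  rw [Matrix.mul_apply]
  simp [JM]

theorem tr_J : (JM V).trace = (Fintype.card V : ℝ) := by
  simp [JM, Matrix.trace]

theorem J_sym : (JM V).IsSymm := by
  ext x y
  rfl

/-- the parameters -/
theorem param (G : SimpleGraph V) [DecidableRel G.Adj] (n k a : ℕ) (h : G.IsSRGWith n k a 2)
    (hne : G ≠ ⊤) : a + 2 ≤ k ∧ k + 2 ≤ n ∧ k * (k - a - 1) = (n - k - 1) * 2 := by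
  obtain ⟨x, y, hxy, hn⟩ : ∃ x y, x ≠ y ∧ ¬ G.Adj x y := by
    by_contra hc
    push Not at hc
    apply hne
    ext x y
    rw [SimpleGraph.top_adj]
    exact ⟨fun h => h.ne, fun h => hc x y h⟩
  have h1 : k + 2 ≤ n := by
    have h2 : (insert x (insert y (G.neighborFinset x))).card ≤ Fintype.card V :=
      Finset.card_le_univ _
    rw [Finset.card_insert_of_notMem, Finset.card_insert_of_notMem, SimpleGraph.card_neighborFinset_eq_degree,
      h.regular x, h.card] at h2
    · omega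
    · rw [SimpleGraph.mem_neighborFinset]
      exact hn
    · rw [Finset.mem_insert, SimpleGraph.mem_neighborFinset, not_or]
      exact ⟨hxy, G.loopless.irrefl x⟩
  have h2 := h.param_eq G (by omega)
  refine ⟨?_, h1, h2⟩
  by_contra hc
  have h3 : k - a - 1 = 0 := by omega
  rw [h3, mul_zero] at h2
  omega

/-- the trace condition for the adjacency matrix -/
theorem adj_trace (G : SimpleGraph V) [DecidableRel G.Adj] (n k a : ℕ)
    (h : G.IsSRGWith n k a 2) (hne : G ≠ ⊤) :
    ∃ (m : ℕ) (z : ℤ), 4 * k + a ^ 2 = m + (4 * a + 4) ∧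
      ((((a : ℤ) - 2) * (n - 1) + 2 * k : ℤ) : ℝ) = z * Real.sqrt m := by
  obtain ⟨hk, hn, hp⟩ := param G n k a h hne
  have hle : 4 * a + 4 ≤ 4 * k + a ^ 2 := by nlinarith
  obtain ⟨m, hm⟩ := Nat.exists_eq_add_of_le' hle
  have hmr : (m : ℝ) = 4 * k + a ^ 2 - (4 * a + 4) := by
    have : ((m + (4 * a + 4) : ℕ) : ℝ) = ((4 * k + a ^ 2 : ℕ) : ℝ) := by rw [← hm]
    push_cast at this
    linarith
  have hpr : (k : ℝ) * (k - a - 1) = (n - k - 1) * 2 := by
    have e1 : ((k - a - 1 : ℕ) : ℝ) = (k : ℝ) - a - 1 := by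
      rw [Nat.cast_sub (by omega), Nat.cast_sub (by omega)]
      simp
    have e2 : ((n - k - 1 : ℕ) : ℝ) = (n : ℝ) - k - 1 := by
      rw [Nat.cast_sub (by omega), Nat.cast_sub (by omega)]
      simp
    rw [← e1, ← e2]
    exact_mod_cast hp
  set N := G.adjMatrix ℝ with hN
  set J := JM V with hJ
  set D := Real.sqrt m with hD
  have hDD : D * D = m := Real.mul_self_sqrt (by positivity)
  have hn0 : (n : ℝ) ≠ 0 := by
    have : n ≠ 0 := by omega
    exact_mod_cast this
  have hNN : N * N = ((k : ℝ) - 2) • (1 : Matrix V V ℝ) + ((a : ℝ) - 2) • N + (2 : ℝ) • J := by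
    have := adj_sq G n k a 2 h
    simpa using this
  have hNJ : N * J = (k : ℝ) • J := adj_J G n k a 2 h
  have hNs : N.IsSymm := G.isSymm_adjMatrix
  have hJN : J * N = (k : ℝ) • J := by
    have h1 : (N * J).transpose = ((k : ℝ) • J).transpose := by rw [hNJ]
    rw [Matrix.transpose_mul, Matrix.transpose_smul, hNs.eq, J_sym.eq] at h1
    exact h1
  have hJJ : J * J = (n : ℝ) • J := by
    rw [hJ, J_J, h.card]
  set X : Matrix V V ℝ := (2 : ℝ) • N - ((a : ℝ) - 2) • (1 : Matrix V V ℝ) with hX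
  set θ : ℝ := 2 * k - a + 2 with hθ
  set c : ℝ := (θ - D) / n with hc
  set Y : Matrix V V ℝ := X - c • J with hY
  have hcc : 8 - 2 * c * θ + c * c * n = 0 := by
    have h1 : c * n = θ - D := by rw [hc]; field_simp
    have h2 : n * (8 - 2 * c * θ + c * c * n) = 0 := by
      have : n * (8 - 2 * c * θ + c * c * n) = 8 * n - 2 * (c * n) * θ + (c * n) * (c * n) := by
        ring
      rw [this, h1]
      have h3 : 8 * (n : ℝ) - 2 * (θ - D) * θ + (θ - D) * (θ - D) = 8 * n - θ * θ + D * D := by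
        ring
      rw [h3, hDD, hmr, hθ]
      linear_combination (-4 : ℝ) * hpr
    exact (mul_eq_zero.1 h2).resolve_left hn0
  have hXX : X * X = (m : ℝ) • (1 : Matrix V V ℝ) + (8 : ℝ) • J := by
    have : X * X = (4 : ℝ) • (N * N) - (4 * ((a : ℝ) - 2)) • N +
        (((a : ℝ) - 2) * ((a : ℝ) - 2)) • (1 : Matrix V V ℝ) := by
      rw [hX, sub_mul, mul_sub, mul_sub, smul_mul_smul_comm, smul_mul_smul_comm,
        smul_mul_smul_comm, smul_mul_smul_comm, mul_one, one_mul, mul_one]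
      module
    rw [this, hNN, hmr]
    module
  have hXJ : X * J = θ • J := by
    rw [hX, sub_mul, smul_mul_assoc, smul_mul_assoc, one_mul, hNJ, hθ]
    module
  have hJX : J * X = θ • J := by
    rw [hX, mul_sub, mul_smul_comm, mul_smul_comm, mul_one, hJN, hθ]
    module
  have hYY : Y * Y = (m : ℝ) • (1 : Matrix V V ℝ) := by
    have : Y * Y = X * X - c • (X * J) - c • (J * X) + (c * c) • (J * J) := sq_sub' X J c
    rw [this, hXX, hXJ, hJX, hJJ]
    have h2 : (m : ℝ) • (1 : Matrix V V ℝ) + (8 : ℝ) • J - c • θ • J - c • θ • J +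
        (c * c) • (n : ℝ) • J = (m : ℝ) • (1 : Matrix V V ℝ) + (8 - 2 * c * θ + c * c * n) • J := by
      module
    rw [h2, hcc, zero_smul, add_zero]
  have hYs : Y.IsHermitian := by
    apply isHerm
    have h1 : X.IsSymm := by
      rw [Matrix.IsSymm, hX, Matrix.transpose_sub, Matrix.transpose_smul, Matrix.transpose_smul,
        hNs.eq, Matrix.transpose_one]
    rw [Matrix.IsSymm, hY, Matrix.transpose_sub, Matrix.transpose_smul, h1.eq, J_sym.eq]
  obtain ⟨z, hz⟩ := trace_sqrt hYs m (by positivity) hYY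
  have htr : Y.trace = -(((a : ℝ) - 2) * n) - (θ - D) := by
    rw [hY, hX, Matrix.trace_sub, Matrix.trace_sub, Matrix.trace_smul, Matrix.trace_smul,
      Matrix.trace_smul, hJ, tr_J, hN, SimpleGraph.trace_adjMatrix, Matrix.trace_one, h.card]
    have h1 : c * n = θ - D := by rw [hc]; field_simp
    simp only [smul_eq_mul, mul_zero, zero_sub]
    rw [h1]
  rw [htr] at hz
  refine ⟨m, 1 - z, hm, ?_⟩
  push_cast
  have h1 : ((a : ℝ) - 2) * n + θ = (1 - z) * D := by linarith
  rw [← h1, hθ]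
  ring

/-- the eigenvalues of a strongly regular graph with `c = 2` -/
theorem adj_square (G : SimpleGraph V) [DecidableRel G.Adj] (n k a : ℕ)
    (h : G.IsSRGWith n k a 2) (hne : G ≠ ⊤) (ha : Odd a) :
    ∃ D : ℕ, D * D + (4 * a + 4) = 4 * k + a ^ 2 := by
  obtain ⟨hk, hn, hp⟩ := param G n k a h hne
  obtain ⟨m, z, hm, hz⟩ := adj_trace G n k a h hne
  suffices hs : IsSquare m by
    obtain ⟨D, hD⟩ := hs
    exact ⟨D, by rw [← hD, ← hm]⟩
  by_cases h0 : ((a : ℤ) - 2) * (n - 1) + 2 * k = 0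
  · have h1 : a = 1 := by
      obtain ⟨b, hb⟩ := ha
      by_contra hc'
      have h3 : (3 : ℤ) ≤ a := by omega
      have h4 : (1 : ℤ) ≤ n - 1 := by omega
      have h5 : (1 : ℤ) * 1 ≤ ((a : ℤ) - 2) * (n - 1) :=
        mul_le_mul (by omega) h4 (by norm_num) (by omega)
      omega
    subst h1
    have h2 : n = 2 * k + 1 := by
      have : (n : ℤ) = 2 * k + 1 := by push_cast at h0; linarith
      exact_mod_cast this
    subst h2
    have h3 : k = 4 := by
      obtain ⟨k', rfl⟩ := Nat.exists_eq_add_of_le hk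
      have e1 : 1 + 2 + k' - 1 - 1 = k' + 1 := by omega
      have e2 : 2 * (1 + 2 + k') + 1 - (1 + 2 + k') - 1 = k' + 3 := by omega
      rw [e1, e2] at hp
      have : k' * k' + 2 * k' = 3 := by nlinarith
      have : k' ≤ 1 := by nlinarith
      interval_cases k' <;> omega
    subst h3
    exact ⟨3, by omega⟩
  · exact sq_of_mul m _ z h0 hz

/-- the sign matrix -/
theorem sign_square {G : SimpleGraph V} [DecidableRel G.Adj] {S : V → V → ℤ} (hS : Sg G S)
    {k a : ℕ} (hG : Odd' G k a) (hV : Nonempty V) : IsSquare (4 * k + a ^ 2) := by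
  have hN := hS.new hG.toOdd2
  let M : Matrix V V ℝ := Matrix.of fun x y => (S' G a S x y : ℝ)
  have hMs : M.IsSymm := by
    ext x y
    show ((S' G a S y x : ℤ) : ℝ) = ((S' G a S x y : ℤ) : ℝ)
    rw [hN.symm]
  have hMM : M * M = (k : ℝ) • (1 : Matrix V V ℝ) + ((chi a : ℝ) * a) • M := by
    ext x y
    rw [Matrix.mul_apply, Matrix.add_apply, Matrix.smul_apply, Matrix.smul_apply, Matrix.one_apply]
    have h1 := S'_sq hS hG x y
    have h2 : ((∑ w, S' G a S x w * S' G a S w y : ℤ) : ℝ) =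
        (((if x = y then (k : ℤ) else 0) + chi a * a * S' G a S x y : ℤ) : ℝ) := by rw [h1]
    push_cast at h2
    simp only [M, Matrix.of_apply, smul_eq_mul]
    rw [h2]
    split_ifs <;> simp
  have hchi : (chi a : ℝ) * chi a = 1 := by exact_mod_cast chi_sq a
  set X : Matrix V V ℝ := (2 : ℝ) • M - ((chi a : ℝ) * a) • (1 : Matrix V V ℝ) with hX
  have hXX : X * X = ((4 * k + a ^ 2 : ℕ) : ℝ) • (1 : Matrix V V ℝ) := by
    have : X * X = (4 : ℝ) • (M * M) - (4 * ((chi a : ℝ) * a)) • M +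
        (((chi a : ℝ) * chi a) * (a * a)) • (1 : Matrix V V ℝ) := by
      rw [hX, sub_mul, mul_sub, mul_sub, smul_mul_smul_comm, smul_mul_smul_comm,
        smul_mul_smul_comm, smul_mul_smul_comm, mul_one, one_mul, mul_one]
      module
    rw [this, hMM, hchi]
    push_cast
    module
  have hXs : X.IsHermitian := by
    apply isHerm
    rw [Matrix.IsSymm, hX, Matrix.transpose_sub, Matrix.transpose_smul, Matrix.transpose_smul,
      hMs.eq, Matrix.transpose_one]
  obtain ⟨z, hz⟩ := trace_sqrt hXs _ (by positivity) hXX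
  have htM : M.trace = 0 := by
    rw [Matrix.trace]
    refine Finset.sum_eq_zero fun x _ => ?_
    show ((S' G a S x x : ℤ) : ℝ) = 0
    rw [hN.zero x x (G.loopless.irrefl x)]
    simp
  have htr : X.trace = -((chi a : ℝ) * a * Fintype.card V) := by
    rw [hX, Matrix.trace_sub, Matrix.trace_smul, Matrix.trace_smul, htM, Matrix.trace_one]
    simp
  rw [htr] at hz
  refine sq_of_mul _ (-(chi a * a * Fintype.card V)) z ?_ ?_
  · have h1 : chi a ≠ 0 := by
      intro h0
      have := chi_sq a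
      rw [h0] at this
      exact absurd this (by norm_num)
    have h2 : (a : ℤ) ≠ 0 := by
      have := hG.odd.pos
      omega
    have h3 : (Fintype.card V : ℤ) ≠ 0 := by
      have := Fintype.card_pos (α := V)
      omega
    exact neg_ne_zero.2 (mul_ne_zero (mul_ne_zero h1 h2) h3)
  · push_cast
    exact_mod_cast hz

/-- the graph of the theorem -/
theorem Odd2.of_srg (G : SimpleGraph V) [DecidableRel G.Adj] (n k a : ℕ)
    (h : G.IsSRGWith n k a 2) (ha : Odd a) : Odd2 G k a := by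
  refine ⟨Two.of_srg G n k a h, ?_, ?_, ha⟩
  · intro x
    rw [← h.regular x, ← SimpleGraph.card_neighborFinset_eq_degree]
    congr 1
    ext w
    simp
  · intro x y hxy
    rw [← h.of_adj x y hxy, ← Set.toFinset_card]
    congr 1
    ext w
    rw [Set.mem_toFinset, SimpleGraph.mem_commonNeighbors, Cn, Finset.mem_filter]
    exact ⟨fun h => ⟨h.2.1, h.2.2.symm⟩, fun h => ⟨Finset.mem_univ _, h.1, h.2.symm⟩⟩

theorem Odd'.of_srg (G : SimpleGraph V) [DecidableRel G.Adj] (n k a : ℕ)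
    (h : G.IsSRGWith n k a 2) (ha : Odd a)
    (hd : ∀ x y z w, G.Adj x y → G.Adj x z → G.Adj y z → G.Adj x w → G.Adj y w → z ≠ w →
      G.Adj z w) : Odd' G k a := { Odd2.of_srg G n k a h ha with dia := hd }

theorem adj_mem (G : SimpleGraph V) [DecidableRel G.Adj] : G.adjMatrix ℝ ∈ SG G := by
  refine ⟨G.isSymm_adjMatrix, fun i j _ => ?_⟩
  rw [SimpleGraph.adjMatrix_apply]
  split_ifs with h <;> simp [h]

/-- `q = 3` -/
theorem q_three (G : SimpleGraph V) [DecidableRel G.Adj] (n k a c : ℕ) (h : G.IsSRGWith n k a c)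
    (x y : V) (hxy : G.Adj x y) (hno : ∀ A ∈ SG G, (spectrum ℝ A).ncard ≠ 2) : qG G = 3 := by
  have h0 : qG G ≤ (spectrum ℝ (G.adjMatrix ℝ)).ncard :=
    Nat.sInf_le ⟨G.adjMatrix ℝ, adj_mem G, rfl⟩
  have h1 : qG G ≤ 3 := h0.trans (ev_adj G n k a c h)
  have hne : {m | ∃ A ∈ SG G, (spectrum ℝ A).ncard = m}.Nonempty :=
    ⟨(spectrum ℝ (G.adjMatrix ℝ)).ncard, G.adjMatrix ℝ, adj_mem G, rfl⟩
  obtain ⟨A, hA, hAm⟩ : ∃ A ∈ SG G, (spectrum ℝ A).ncard = qG G := Nat.sInf_mem hne
  have h2 : 2 ≤ (spectrum ℝ A).ncard := two_le_ev hA.1 x y hxy.ne ((hA.2 x y hxy.ne).2 hxy)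
  have h3 := hno A hA
  omega

/-- **Theorem.** `c = 2`, `a` odd, no two nonadjacent common neighbours of adjacent vertices. -/
theorem odd_three (G : SimpleGraph V) [DecidableRel G.Adj] (n k a : ℕ)
    (h : G.IsSRGWith n k a 2) (hne : G ≠ ⊤) (ha : Odd a)
    (hd : ∀ x y z w, G.Adj x y → G.Adj x z → G.Adj y z → G.Adj x w → G.Adj y w → z ≠ w →
      G.Adj z w) : qG G = 3 := by
  obtain ⟨hk, hn, -⟩ := param G n k a h hne
  have hG := Odd'.of_srg G n k a h ha hd
  have hV : Nonempty V := by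
    rw [← Fintype.card_pos_iff, h.card]
    omega
  obtain ⟨x⟩ := hV
  obtain ⟨y, hy⟩ : (G.neighborFinset x).Nonempty := by
    rw [← Finset.card_pos, SimpleGraph.card_neighborFinset_eq_degree, h.regular x]
    omega
  rw [SimpleGraph.mem_neighborFinset] at hy
  refine q_three G n k a 2 h x y hy fun A hA h2 => ?_
  obtain ⟨α, β, hAA⟩ := two_ev hA.1 h2
  obtain ⟨S, hS⟩ := Sg.of_mat hG.two hA hAA
  obtain ⟨D', hD'⟩ := sign_square hS hG ⟨x⟩
  obtain ⟨D, hD⟩ := adj_square G n k a h hne ha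
  exact no_squares k a D' D ha hk hD' (hD.trans hD')

end

end Pool.Agent.SRQ
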