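import Pool.Agent.SRQ.OddC

/-! # SRQ (helper6): the sign matrix splits by the types (MP_6f6da3_co) -/

set_option autoImplicit false
set_option linter.unusedSectionVars false

namespace Pool.Agent.SRQ

open Finset

variable {V : Type} [Fintype V] [DecidableEq V] {G : SimpleGraph V} [DecidableRel G.Adj]

theorem ta_tri {S : V → V → ℤ} (hS : Sg G S) (x y : V) :
    ta S x y = ∑ z ∈ Cn G x y, tri S x y z := by
  unfold ta
  rw [PP_eq hS, Finset.mul_sum]
  rfl

theorem sum_cc {k a : ℕ} (hG : Odd2 G k a) {x y : V} (hxy : G.Adj x y) :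
    ∑ z ∈ Cn G x y, (-1 : ℤ) ^ cc G x y z = (a : ℤ) - 2 * tt G x y := by
  have h1 : ∀ z, ((-1 : ℤ)) ^ cc G x y z = 1 - 2 * (if Odd (cc G x y z) then 1 else 0) := by
    intro z
    rcases Nat.even_or_odd (cc G x y z) with h | h
    · rw [h.neg_one_pow, if_neg (Nat.not_odd_iff_even.2 h)]
      norm_num
    · rw [h.neg_one_pow, if_pos h]
      norm_num
  rw [Finset.sum_congr rfl (fun z _ => h1 z), Finset.sum_sub_distrib, ← Finset.mul_sum,
    Finset.sum_boole, Finset.sum_const, hG.lam x y hxy]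
  simp [tt]

theorem ta_new {S : V → V → ℤ} (hS : Sg G S) {k a : ℕ} (hG : Odd2 G k a) {x y : V}
    (hxy : G.Adj x y) : ta (S' G a S) x y = chi a * ((a : ℤ) - 2 * tt G x y) := by
  rw [ta_tri (hS.new hG), Finset.sum_congr rfl (fun z hz => tri_new hS hG hxy hz),
    ← Finset.mul_sum, sum_cc hG hxy]

/-- `u`, `v` are the common neighbours of the nonadjacent vertices `x`, `y` -/
def Quad (G : SimpleGraph V) (x y u v : V) : Prop :=
  x ≠ y ∧ ¬ G.Adj x y ∧ u ≠ v ∧ ∀ w, (G.Adj x w ∧ G.Adj w y) ↔ (w = u ∨ w = v)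

theorem chi_ne (a : ℕ) : chi a ≠ 0 := by
  intro h0
  have := chi_sq a
  rw [h0] at this
  exact absurd this (by norm_num)

theorem tt_rel {S : V → V → ℤ} (hS : Sg G S) {k a : ℕ} (hG : Odd2 G k a) {x y u v : V}
    (h : Quad G x y u v) : tt G u y + tt G x v = tt G x u + tt G v y := by
  obtain ⟨h1, h2, h3, h4⟩ := h
  have hu := (h4 u).2 (Or.inl rfl)
  have hv := (h4 v).2 (Or.inr rfl)
  have e := (hS.new hG).rel h1 h2 h3 h4
  rw [ta_new hS hG hu.2, ta_new hS hG hv.1, ta_new hS hG hu.1, ta_new hS hG hv.2, ← mul_add,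
    ← mul_add] at e
  have e1 := mul_left_cancel₀ (chi_ne a) e
  omega

/-- the twisted relation -/
theorem F_rel {S : V → V → ℤ} (hS : Sg G S) {k a : ℕ} (hG : Odd2 G k a) (f : ℕ → ℤ)
    (hf : ∀ t, f t * f t = 1) (hq : ∀ x y u v, Quad G x y u v →
      f (tt G x u) * f (tt G u y) = f (tt G x v) * f (tt G v y)) {x y u v : V}
    (h : Quad G x y u v) : ((a : ℤ) - 2 * tt G u y) * f (tt G u y) +
      ((a : ℤ) - 2 * tt G x v) * f (tt G x v) = ((a : ℤ) - 2 * tt G x u) * f (tt G x u) +
      ((a : ℤ) - 2 * tt G v y) * f (tt G v y) := by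
  have hN := hS.new hG
  have hM : Sg G (fun x y => S' G a S x y * f (tt G x y)) := by
    refine hN.mul hG.two (fun x y => f (tt G x y)) (fun x y _ => ?_) (fun x y _ => hf _) ?_
    · rw [tt_symm]
    · intro x y u v h1 h2 h3 h4
      exact hq x y u v ⟨h1, h2, h3, h4⟩
  have hta : ∀ x y, G.Adj x y → ta (fun x y => S' G a S x y * f (tt G x y)) x y =
      chi a * (((a : ℤ) - 2 * tt G x y) * f (tt G x y)) := by
    intro x y hxy
    have h1 : ∀ z ∈ Cn G x y, tri (fun x y => S' G a S x y * f (tt G x y)) x y z =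
        chi a * (-1) ^ cc G x y z * f (tt G x y) := by
      intro z hz
      have e1 := tri_new hS hG hxy hz
      have e2 := tt_tri hS hG hxy hz
      have hz' := mem_Cn.1 hz
      have e3 : tt G z y = tt G x y := by
        rw [tt_symm z y, tt_symm x y]
        exact tt_tri hS hG hxy.symm (mem_Cn.2 ⟨hz'.2.symm, hz'.1.symm⟩)
      rw [← e1]
      unfold tri
      simp only []
      rw [e2, e3]
      linear_combination (S' G a S x y * (S' G a S x z * S' G a S z y) * f (tt G x y)) *
        hf (tt G x y)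
    rw [ta_tri hM, Finset.sum_congr rfl h1, ← Finset.sum_mul, ← Finset.mul_sum, sum_cc hG hxy]
    ring
  obtain ⟨h1, h2, h3, h4⟩ := h
  have hu := (h4 u).2 (Or.inl rfl)
  have hv := (h4 v).2 (Or.inr rfl)
  have e := hM.rel h1 h2 h3 h4
  rw [hta _ _ hu.2, hta _ _ hv.1, hta _ _ hu.1, hta _ _ hv.2, ← mul_add, ← mul_add] at e
  exact mul_left_cancel₀ (chi_ne a) e

/-- the three possibilities -/
def Sp (m p q r s : ℕ) : Prop :=
  (p = q ∧ r = s) ∨ (p = r ∧ q = s) ∨ (p % m = q % m ∧ p % m = r % m ∧ p % m = s % m)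

theorem neg_pow_mod (n : ℕ) : (-1 : ℤ) ^ n = if n % 2 = 0 then 1 else -1 := by
  rcases Nat.even_or_odd n with h | h
  · rw [h.neg_one_pow, if_pos (Nat.even_iff.1 h)]
  · rw [h.neg_one_pow, if_neg]
    rw [Nat.odd_iff.1 h]
    norm_num

theorem Sp_step {S : V → V → ℤ} (hS : Sg G S) {k a : ℕ} (hG : Odd2 G k a) (m : ℕ) (hm : 0 < m)
    (ih : ∀ x y u v, Quad G x y u v → Sp m (tt G u y) (tt G v y) (tt G x u) (tt G x v))
    (x y u v : V) (h : Quad G x y u v) :
    Sp (m * 2) (tt G u y) (tt G v y) (tt G x u) (tt G x v) := by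
  rcases ih x y u v h with h1 | h1 | ⟨h1, h2, h3⟩
  · exact Or.inl h1
  · exact Or.inr (Or.inl h1)
  set ρ := tt G u y % m with hρ
  let f : ℕ → ℤ := fun t => if t % m = ρ then (-1) ^ (t / m) else 1
  have hf : ∀ t, f t * f t = 1 := by
    intro t
    show (if t % m = ρ then (-1 : ℤ) ^ (t / m) else 1) * (if t % m = ρ then (-1) ^ (t / m) else 1) = 1
    split_ifs
    · rw [← mul_pow]
      norm_num
    · norm_num
  have hdiv : ∀ p q r s : ℕ, p + s = r + q → p % m = q % m → p % m = r % m → p % m = s % m →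
      p / m + s / m = r / m + q / m := by
    intro p q r s e e1 e2 e3
    have d1 := Nat.div_add_mod p m
    have d2 := Nat.div_add_mod q m
    have d3 := Nat.div_add_mod r m
    have d4 := Nat.div_add_mod s m
    have e4 : m * (p / m + s / m) = m * (r / m + q / m) := by
      rw [mul_add, mul_add]
      omega
    exact Nat.eq_of_mul_eq_mul_left hm e4
  have hq : ∀ x y u v, Quad G x y u v →
      f (tt G x u) * f (tt G u y) = f (tt G x v) * f (tt G v y) := by
    intro x y u v h
    rcases ih x y u v h with ⟨e1, e2⟩ | ⟨e1, e2⟩ | ⟨e1, e2, e3⟩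
    · rw [e1, e2]
    · rw [e1, e2, hf, hf]
    · have e := hdiv _ _ _ _ (tt_rel hS hG h) e1 e2 e3
      show (if tt G x u % m = ρ then (-1 : ℤ) ^ (tt G x u / m) else 1) *
        (if tt G u y % m = ρ then (-1) ^ (tt G u y / m) else 1) =
        (if tt G x v % m = ρ then (-1) ^ (tt G x v / m) else 1) *
        (if tt G v y % m = ρ then (-1) ^ (tt G v y / m) else 1)
      rw [← e1, ← e2, ← e3]
      split_ifs
      · rw [neg_pow_mod, neg_pow_mod, neg_pow_mod, neg_pow_mod]
        split_ifs <;> first | rfl | omega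
      · rfl
  have hrel := tt_rel hS hG h
  have hd := hdiv _ _ _ _ hrel h1 h2 h3
  have hF := F_rel hS hG f hf hq h
  have ep := tt_even hS hG ((h.2.2.2 u).2 (Or.inl rfl)).2
  have es := tt_even hS hG ((h.2.2.2 v).2 (Or.inr rfl)).1
  have ha := hG.odd
  have fp : f (tt G u y) = (-1) ^ (tt G u y / m) := if_pos rfl
  have fq : f (tt G v y) = (-1) ^ (tt G v y / m) := if_pos h1.symm
  have fr : f (tt G x u) = (-1) ^ (tt G x u / m) := if_pos h2.symm
  have fs : f (tt G x v) = (-1) ^ (tt G x v / m) := if_pos h3.symm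
  rw [fp, fq, fr, fs, neg_pow_mod, neg_pow_mod, neg_pow_mod, neg_pow_mod] at hF
  unfold Sp
  rw [Nat.mod_mul, Nat.mod_mul, Nat.mod_mul, Nat.mod_mul, ← h1, ← h2, ← h3]
  generalize tt G u y = p at *
  generalize tt G v y = q at *
  generalize tt G x u = r at *
  generalize tt G x v = s at *
  generalize p / m = p' at *
  generalize q / m = q' at *
  generalize r / m = r' at *
  generalize s / m = s' at *
  obtain ⟨b, hb⟩ := ha
  obtain ⟨p0, hp0⟩ := ep
  obtain ⟨s0, hs0⟩ := es
  rcases Nat.mod_two_eq_zero_or_one p' with e1 | e1 <;>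
    rcases Nat.mod_two_eq_zero_or_one q' with e2 | e2 <;>
    rcases Nat.mod_two_eq_zero_or_one r' with e3 | e3 <;>
    rcases Nat.mod_two_eq_zero_or_one s' with e4 | e4 <;>
    rw [e1, e2, e3, e4] at hF ⊢ <;> simp only [if_true, one_ne_zero, if_false] at hF <;>
    first
    | (right; right; rw [← hρ]; exact ⟨rfl, rfl, rfl⟩)
    | (exfalso; omega)
    | (left; omega)
    | (right; left; omega)

theorem Sp_all {S : V → V → ℤ} (hS : Sg G S) {k a : ℕ} (hG : Odd2 G k a) (i : ℕ) :
    ∀ x y u v, Quad G x y u v →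
      Sp (2 ^ (i + 1)) (tt G u y) (tt G v y) (tt G x u) (tt G x v) := by
  induction i with
  | zero =>
    intro x y u v h
    have hu := (h.2.2.2 u).2 (Or.inl rfl)
    have hv := (h.2.2.2 v).2 (Or.inr rfl)
    have e1 := Nat.even_iff.1 (tt_even hS hG hu.2)
    have e2 := Nat.even_iff.1 (tt_even hS hG hv.2)
    have e3 := Nat.even_iff.1 (tt_even hS hG hu.1)
    have e4 := Nat.even_iff.1 (tt_even hS hG hv.1)
    right; right
    rw [zero_add, pow_one]
    omega
  | succ i ih =>
    intro x y u v h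
    rw [pow_succ]
    exact Sp_step hS hG _ (by positivity) ih x y u v h

/-- **the types of a quadrangle** -/
theorem split {S : V → V → ℤ} (hS : Sg G S) {k a : ℕ} (hG : Odd2 G k a) {x y u v : V}
    (h : Quad G x y u v) : (tt G u y = tt G v y ∧ tt G x u = tt G x v) ∨
      (tt G u y = tt G x u ∧ tt G v y = tt G x v) := by
  have hu := (h.2.2.2 u).2 (Or.inl rfl)
  have hv := (h.2.2.2 v).2 (Or.inr rfl)
  have hlt : a < 2 ^ (a + 1) :=
    (Nat.lt_two_pow_self).trans (Nat.pow_lt_pow_right (by norm_num) (by omega))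
  have e1 := (tt_le hG hu.2).trans_lt hlt
  have e2 := (tt_le hG hv.2).trans_lt hlt
  have e3 := (tt_le hG hu.1).trans_lt hlt
  have e4 := (tt_le hG hv.1).trans_lt hlt
  rcases Sp_all hS hG a x y u v h with h1 | h1 | ⟨h1, h2, h3⟩
  · exact Or.inl h1
  · exact Or.inr h1
  · rw [Nat.mod_eq_of_lt e1, Nat.mod_eq_of_lt e2] at h1
    rw [Nat.mod_eq_of_lt e1, Nat.mod_eq_of_lt e3] at h2
    rw [Nat.mod_eq_of_lt e1, Nat.mod_eq_of_lt e4] at h3
    left
    omega

/-- the sign matrix with weights depending on the type -/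
def MM (G : SimpleGraph V) [DecidableRel G.Adj] (a : ℕ) (S : V → V → ℤ) (φ : ℕ → ℤ) (x y : V) : ℤ :=
  S' G a S x y * φ (tt G x y)

theorem mulM {S : V → V → ℤ} (hS : Sg G S) {k a : ℕ} (hG : Odd2 G k a) (φ ψ : ℕ → ℤ) (x y : V) :
    ∑ w, MM G a S φ x w * MM G a S ψ w y =
      ∑ w, MM G a S (fun t => φ t * ψ t) x w * S' G a S w y := by
  have hN := hS.new hG
  unfold MM
  by_cases hxy : x = y
  · subst hxy
    refine Finset.sum_congr rfl fun w _ => ?_
    rw [tt_symm w x]
    ring
  · by_cases hadj : G.Adj x y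
    · refine Finset.sum_congr rfl fun w _ => ?_
      by_cases hw : w ∈ Cn G x y
      · have hw' := mem_Cn.1 hw
        have e1 := tt_tri hS hG hadj hw
        have e3 : tt G w y = tt G x y := by
          rw [tt_symm w y, tt_symm x y]
          exact tt_tri hS hG hadj.symm (mem_Cn.2 ⟨hw'.2.symm, hw'.1.symm⟩)
        rw [e1, e3]
        ring
      · rw [mem_Cn, not_and_or] at hw
        rcases hw with hw | hw
        · rw [hN.zero x w hw]
          ring
        · rw [hN.zero w y hw]
          ring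
    · obtain ⟨u, v, huv, h⟩ := hG.two x y hxy hadj
      have hQ : Quad G x y u v := ⟨hxy, hadj, huv, h⟩
      have h0 := hN.quad x y hxy hadj
      have hz : ∀ w, ¬ (G.Adj x w ∧ G.Adj w y) → S' G a S x w = 0 ∨ S' G a S w y = 0 := by
        intro w hw
        rw [not_and_or] at hw
        rcases hw with hw | hw
        · exact Or.inl (hN.zero x w hw)
        · exact Or.inr (hN.zero w y hw)
      rw [sum_two huv h (fun w => S' G a S x w * S' G a S w y)
        (fun w hw => by rcases hz w hw with h | h <;> simp [h])] at h0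
      rw [sum_two huv h (fun w => S' G a S x w * φ (tt G x w) * (S' G a S w y * ψ (tt G w y)))
        (fun w hw => by rcases hz w hw with h | h <;> simp [h]),
        sum_two huv h (fun w => S' G a S x w * (φ (tt G x w) * ψ (tt G x w)) * S' G a S w y)
        (fun w hw => by rcases hz w hw with h | h <;> simp [h])]
      rcases split hS hG hQ with ⟨e1, e2⟩ | ⟨e1, e2⟩
      · rw [e1, e2]
        linear_combination (φ (tt G x v) * ψ (tt G v y) - φ (tt G x v) * ψ (tt G x v)) * h0
      · rw [e1, e2]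
        ring

end Pool.Agent.SRQ
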