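import Pool.Agent.SRQ.OddD
import Pool.Agent.SRQ.OddB

/-! # SRQ (helper6): the trace condition for each type (MP_6f6da3_co) -/

set_option autoImplicit false
set_option linter.unusedSectionVars false

namespace Pool.Agent.SRQ

open Finset Matrix

section Lin

variable {V : Type} [Fintype V] [DecidableEq V]

/-- the trace of a symmetric matrix `R` with `R ^ 3 = μ R` -/
theorem trace_cube {R : Matrix V V ℝ} (hR : R.IsHermitian) (μ : ℝ) (hμ : 0 ≤ μ)
    (h : R * R * R = μ • R) : ∃ z : ℤ, R.trace = z * Real.sqrt μ := by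
  have h1 : R = Unitary.conjStarAlgAut ℝ (Matrix V V ℝ) hR.eigenvectorUnitary
      (diagonal hR.eigenvalues) := by
    conv_lhs => rw [hR.spectral_theorem]
    rfl
  set φ := Unitary.conjStarAlgAut ℝ (Matrix V V ℝ) hR.eigenvectorUnitary with hφ
  have h2 : ∀ i, hR.eigenvalues i * hR.eigenvalues i * hR.eigenvalues i =
      μ * hR.eigenvalues i := by
    have h3 : φ (diagonal hR.eigenvalues * diagonal hR.eigenvalues * diagonal hR.eigenvalues) =
        φ (μ • diagonal hR.eigenvalues) := by
      rw [map_mul, map_mul, map_smul, ← h1, h]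
    rw [(EquivLike.injective φ).eq_iff, diagonal_mul_diagonal, diagonal_mul_diagonal] at h3
    intro i
    have h4 := congrFun (congrFun h3 i) i
    simpa using h4
  have h3 : ∀ i, ∃ z : ℤ, hR.eigenvalues i = z * Real.sqrt μ := by
    intro i
    have h4 := h2 i
    by_cases h0 : hR.eigenvalues i = 0
    · exact ⟨0, by rw [h0]; simp⟩
    · have h5 : hR.eigenvalues i * hR.eigenvalues i = Real.sqrt μ * Real.sqrt μ := by
        rw [Real.mul_self_sqrt hμ]
        exact mul_right_cancel₀ h0 h4
      rcases mul_self_eq_mul_self_iff.1 h5 with h6 | h6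
      · exact ⟨1, by rw [h6]; simp⟩
      · exact ⟨-1, by rw [h6]; simp⟩
  choose z hz using h3
  refine ⟨∑ i, z i, ?_⟩
  rw [hR.trace_eq_sum_eigenvalues]
  push_cast
  rw [Finset.sum_mul]
  exact Finset.sum_congr rfl fun i _ => hz i

/-- a symmetric matrix with `X ^ 3 = τ X ^ 2 + k X` and trace `0` -/
theorem trace_cubic {X : Matrix V V ℝ} (hX : X.IsSymm) (τ k : ℝ) (hk : 0 ≤ k)
    (h : X * X * X = τ • (X * X) + k • X) (h0 : X.trace = 0) :
    ∃ z : ℤ, -(τ * (X * X).trace) = z * (k * Real.sqrt (τ ^ 2 + 4 * k)) := by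
  set R : Matrix V V ℝ := (τ ^ 2 + 2 * k) • X - τ • (X * X) with hR
  have hm : 0 ≤ τ ^ 2 + 4 * k := by positivity
  have h4 : X * X * X * X = (τ ^ 2 + k) • (X * X) + (τ * k) • X := by
    rw [h, add_mul, smul_mul_assoc, smul_mul_assoc, h]
    module
  have h4' : X * X * (X * X) = (τ ^ 2 + k) • (X * X) + (τ * k) • X := by
    rw [← mul_assoc, h4]
  have h3' : X * (X * X) = τ • (X * X) + k • X := by rw [← mul_assoc, h]
  have hRR : R * R = (k * (τ ^ 2 + 4 * k)) • (X * X) - (k * (τ ^ 2 + 4 * k) * τ) • X := by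
    rw [hR, sub_mul, mul_sub, mul_sub, smul_mul_smul_comm, smul_mul_smul_comm,
      smul_mul_smul_comm, smul_mul_smul_comm, h3', h, h4']
    module
  have hRRR : R * R * R = (k ^ 2 * (τ ^ 2 + 4 * k)) • R := by
    rw [hRR, hR, sub_mul, mul_sub, mul_sub, smul_mul_smul_comm, smul_mul_smul_comm,
      smul_mul_smul_comm, smul_mul_smul_comm, h3', h, h4']
    module
  have hRs : R.IsHermitian := by
    apply isHerm
    rw [Matrix.IsSymm, hR, Matrix.transpose_sub, Matrix.transpose_smul, Matrix.transpose_smul,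
      Matrix.transpose_mul, hX.eq]
  obtain ⟨z, hz⟩ := trace_cube hRs _ (by positivity) hRRR
  refine ⟨z, ?_⟩
  have e1 : R.trace = -(τ * (X * X).trace) := by
    rw [hR, Matrix.trace_sub, Matrix.trace_smul, Matrix.trace_smul, h0]
    simp
  rw [← e1, hz, Real.sqrt_mul (by positivity), Real.sqrt_sq hk]

end Lin

variable {V : Type} [Fintype V] [DecidableEq V] {G : SimpleGraph V} [DecidableRel G.Adj]

/-- the darts of the type `t` -/
def darts (G : SimpleGraph V) [DecidableRel G.Adj] (t : ℕ) : Finset (V × V) :=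
  univ.filter fun d => G.Adj d.1 d.2 ∧ tt G d.1 d.2 = t

/-- **the trace condition** -/
theorem trace_type {S : V → V → ℤ} (hS : Sg G S) {k a : ℕ} (hG : Odd2 G k a) (t : ℕ) :
    ∃ z : ℤ, (((a : ℤ) - 2 * t : ℤ) : ℝ) * ((darts G t).card : ℝ) =
      z * (k * Real.sqrt (((((a : ℤ) - 2 * t) ^ 2 : ℤ) : ℝ) + 4 * k)) := by
  have hN := hS.new hG
  let e : ℕ → ℤ := fun s => if s = t then 1 else 0
  have he : ∀ s, e s * e s = e s := by
    intro s
    show (if s = t then (1 : ℤ) else 0) * (if s = t then 1 else 0) = if s = t then 1 else 0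
    split_ifs <;> norm_num
  let τ : ℕ → ℤ := fun s => chi a * ((a : ℤ) - 2 * s)
  let X : Matrix V V ℝ := Matrix.of fun x y => (MM G a S e x y : ℝ)
  let A : Matrix V V ℝ := Matrix.of fun x y => (S' G a S x y : ℝ)
  let T : Matrix V V ℝ := Matrix.of fun x y => (MM G a S τ x y : ℝ)
  have hXs : X.IsSymm := by
    ext x y
    show ((MM G a S e y x : ℤ) : ℝ) = ((MM G a S e x y : ℤ) : ℝ)
    unfold MM
    rw [hN.symm y x, tt_symm y x]
  have hXX : X * X = X * A := by
    ext x y
    rw [Matrix.mul_apply, Matrix.mul_apply]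
    have h1 := mulM hS hG e e x y
    have h2 : (fun t => e t * e t) = e := funext he
    rw [h2] at h1
    show ∑ w, ((MM G a S e x w : ℤ) : ℝ) * ((MM G a S e w y : ℤ) : ℝ) =
      ∑ w, ((MM G a S e x w : ℤ) : ℝ) * ((S' G a S w y : ℤ) : ℝ)
    exact_mod_cast h1
  have hXT : X * T = (((chi a * ((a : ℤ) - 2 * t) : ℤ) : ℝ)) • (X * A) := by
    ext x y
    rw [Matrix.smul_apply, Matrix.mul_apply, Matrix.mul_apply, smul_eq_mul, Finset.mul_sum]
    have h1 := mulM hS hG e τ x y
    show ∑ w, ((MM G a S e x w : ℤ) : ℝ) * ((MM G a S τ w y : ℤ) : ℝ) =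
      ∑ w, ((chi a * ((a : ℤ) - 2 * t) : ℤ) : ℝ) *
        (((MM G a S e x w : ℤ) : ℝ) * ((S' G a S w y : ℤ) : ℝ))
    have h2 : ∀ w, MM G a S (fun t => e t * τ t) x w * S' G a S w y =
        chi a * ((a : ℤ) - 2 * t) * (MM G a S e x w * S' G a S w y) := by
      intro w
      unfold MM
      show S' G a S x w * ((if tt G x w = t then (1 : ℤ) else 0) *
          (chi a * ((a : ℤ) - 2 * (tt G x w : ℕ)))) * S' G a S w y =
        chi a * ((a : ℤ) - 2 * t) * (S' G a S x w * (if tt G x w = t then (1 : ℤ) else 0) *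
          S' G a S w y)
      by_cases h : tt G x w = t
      · rw [if_pos h, h]
        ring
      · rw [if_neg h]
        ring
    rw [Finset.sum_congr rfl (fun w _ => h2 w)] at h1
    exact_mod_cast h1
  have hAA : A * A = (k : ℝ) • (1 : Matrix V V ℝ) + T := by
    ext x y
    rw [Matrix.mul_apply, Matrix.add_apply, Matrix.smul_apply, Matrix.one_apply, smul_eq_mul]
    have h1 : ∑ w, S' G a S x w * S' G a S w y = (if x = y then (k : ℤ) else 0) +
        MM G a S τ x y := by
      by_cases hxy : x = y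
      · subst hxy
        rw [if_pos rfl]
        unfold MM
        rw [hN.zero x x (G.loopless.irrefl x), zero_mul, add_zero, ← hG.reg x, Finset.card_filter]
        push_cast
        refine Finset.sum_congr rfl fun w _ => ?_
        by_cases h : G.Adj x w
        · rw [if_pos h, hN.symm w x]
          exact hN.one x w h
        · rw [if_neg h, hN.zero x w h, zero_mul]
      · rw [if_neg hxy, zero_add]
        by_cases h : G.Adj x y
        · have h2 := hN.ta_mul h
          rw [ta_new hS hG h] at h2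
          exact h2.symm
        · rw [hN.quad x y hxy h]
          unfold MM
          rw [hN.zero x y h, zero_mul]
    show ∑ w, ((S' G a S x w : ℤ) : ℝ) * ((S' G a S w y : ℤ) : ℝ) =
      (k : ℝ) * (if x = y then 1 else 0) + ((MM G a S τ x y : ℤ) : ℝ)
    have h2 : ((∑ w, S' G a S x w * S' G a S w y : ℤ) : ℝ) =
        (((if x = y then (k : ℤ) else 0) + MM G a S τ x y : ℤ) : ℝ) := by rw [h1]
    push_cast at h2
    rw [h2]
    split_ifs <;> simp
  set τ0 : ℝ := ((chi a * ((a : ℤ) - 2 * t) : ℤ) : ℝ) with hτ0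
  have hXXX : X * X * X = τ0 • (X * X) + (k : ℝ) • X := by
    have e1 : X * X * X = X * A * A := by
      calc X * X * X = X * (X * X) := mul_assoc _ _ _
        _ = X * (X * A) := by rw [hXX]
        _ = X * X * A := (mul_assoc _ _ _).symm
        _ = X * A * A := by rw [hXX]
    rw [e1, mul_assoc, hAA, mul_add, mul_smul_comm, mul_one, hXT, hXX]
    abel
  have htr : X.trace = 0 := by
    rw [Matrix.trace]
    refine Finset.sum_eq_zero fun x _ => ?_
    show ((MM G a S e x x : ℤ) : ℝ) = 0
    unfold MM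
    rw [hN.zero x x (G.loopless.irrefl x), zero_mul]
    simp
  have htr2 : (X * X).trace = ((darts G t).card : ℝ) := by
    have h1 : ∑ x, ∑ w, MM G a S e x w * MM G a S e w x = ((darts G t).card : ℤ) := by
      rw [darts, Finset.card_filter, ← Finset.univ_product_univ, Finset.sum_product]
      push_cast
      refine Finset.sum_congr rfl fun x _ => Finset.sum_congr rfl fun w _ => ?_
      unfold MM
      rw [tt_symm w x, hN.symm w x]
      show S' G a S x w * (if tt G x w = t then (1 : ℤ) else 0) *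
        (S' G a S x w * (if tt G x w = t then (1 : ℤ) else 0)) = _
      by_cases h : G.Adj x w
      · have h2 := hN.one x w h
        by_cases h3 : tt G x w = t
        · rw [if_pos h3, if_pos ⟨h, h3⟩]
          linarith
        · rw [if_neg h3, if_neg (fun h' => h3 h'.2)]
          ring
      · rw [hN.zero x w h, if_neg (show ¬ (G.Adj x w ∧ tt G x w = t) from fun h' => h h'.1)]
        ring
    rw [Matrix.trace]
    show ∑ x, (X * X) x x = _
    have h2 : ∀ x, (X * X) x x = ((∑ w, MM G a S e x w * MM G a S e w x : ℤ) : ℝ) := by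
      intro x
      rw [Matrix.mul_apply]
      push_cast
      rfl
    rw [Finset.sum_congr rfl (fun x _ => h2 x)]
    exact_mod_cast h1
  obtain ⟨z, hz⟩ := trace_cubic hXs τ0 k (by positivity) hXXX htr
  rw [htr2] at hz
  have hχ : (chi a : ℝ) * chi a = 1 := by exact_mod_cast chi_sq a
  have e2 : τ0 ^ 2 = ((((a : ℤ) - 2 * t) ^ 2 : ℤ) : ℝ) := by
    rw [hτ0]
    push_cast
    linear_combination ((a : ℝ) - 2 * t) ^ 2 * hχ
  rw [e2] at hz
  refine ⟨-(chi a * z), ?_⟩
  have e3 : ((((a : ℤ) - 2 * t : ℤ) : ℝ)) = chi a * τ0 := by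
    rw [hτ0]
    push_cast
    linear_combination (-((a : ℝ) - 2 * t)) * hχ
  rw [e3]
  push_cast at hz ⊢
  linear_combination (-(chi a : ℝ)) * hz

end Pool.Agent.SRQ
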