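import Pool.Agent.SRQ.OddD

/-! # SRQ (helper6): bounds for the degree (MP_6f6da3_co) -/

set_option autoImplicit false
set_option linter.unusedSectionVars false

namespace Pool.Agent.SRQ

open Finset

variable {V : Type} [Fintype V] [DecidableEq V] {G : SimpleGraph V} [DecidableRel G.Adj]

theorem cc_same (h2 : Two G) {x y z w : V} (hxy : G.Adj x y) (hz : z ∈ Cn G x y)
    (hw : w ∈ Cn G x y) (hzw : G.Adj z w) : cc G x y z = cc G x y w := by
  have h1 : w ∈ cls G x y z := mem_cls.2 ⟨mem_Cn.1 hw, Or.inr hzw⟩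
  have e1 := cls_eq h2 hxy hz h1
  have e2 := card_cls hz
  have e3 := card_cls hw
  rw [e1, e2] at e3
  omega

theorem same_adj {S : V → V → ℤ} (hS : Sg G S) {k a : ℕ} (hG : Odd2 G k a) {x y z w : V}
    (hxy : G.Adj x y) (hz : z ∈ Cn G x y) (hw : w ∈ Cn G x y) (hne : z ≠ w)
    (h : cc G x y z % 2 = cc G x y w % 2) : G.Adj z w := by
  by_contra hn
  have e1 := opp (hS.new hG) hG.two hxy hz hw hne hn
  rw [tri_new hS hG hxy hz, tri_new hS hG hxy hw, neg_pow_mod, neg_pow_mod, h] at e1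
  have e2 : chi a * (if cc G x y w % 2 = 0 then (1 : ℤ) else -1) = 0 := by linarith
  rcases mul_eq_zero.1 e2 with e3 | e3
  · exact chi_ne a e3
  · split_ifs at e3
    norm_num at e3

theorem cc_perm1 (x y z : V) : cc G x y z = cc G x z y := by
  rw [cc_rot x z y, cc_rot z y x, cc_swap y x z]

/-- the class of `y` in the neighbourhood of `x` for the parity `q` -/
def Kl (G : SimpleGraph V) [DecidableRel G.Adj] (q : ℕ) (x y : V) : Finset V :=
  univ.filter fun z => G.Adj x z ∧ (z = y ∨ (G.Adj y z ∧ cc G x y z % 2 = q))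

theorem mem_Kl {q : ℕ} {x y z : V} :
    z ∈ Kl G q x y ↔ G.Adj x z ∧ (z = y ∨ (G.Adj y z ∧ cc G x y z % 2 = q)) := by
  simp [Kl]

theorem self_Kl {q : ℕ} {x y : V} (h : G.Adj x y) : y ∈ Kl G q x y := mem_Kl.2 ⟨h, Or.inl rfl⟩

theorem Kl_tt {S : V → V → ℤ} (hS : Sg G S) {k a : ℕ} (hG : Odd2 G k a) {q : ℕ} {x y z : V}
    (hxy : G.Adj x y) (hz : z ∈ Kl G q x y) : tt G x z = tt G x y := by
  obtain ⟨h1, rfl | ⟨h2, -⟩⟩ := mem_Kl.1 hz
  · rfl
  · exact tt_tri hS hG hxy (mem_Cn.2 ⟨h1, h2.symm⟩)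

theorem Kl_sub {S : V → V → ℤ} (hS : Sg G S) {k a : ℕ} (hG : Odd2 G k a) {q : ℕ} {x y z : V}
    (hxy : G.Adj x y) (hz : z ∈ Kl G q x y) : Kl G q x z ⊆ Kl G q x y := by
  intro w hw
  obtain ⟨h1, rfl | ⟨h2, h3⟩⟩ := mem_Kl.1 hz
  · exact hw
  obtain ⟨h4, rfl | ⟨h5, h6⟩⟩ := mem_Kl.1 hw
  · exact hz
  rw [mem_Kl]
  refine ⟨h4, ?_⟩
  by_cases hwy : w = y
  · exact Or.inl hwy
  right
  have e1 : G.Adj y w := by
    refine same_adj hS hG h1 (mem_Cn.2 ⟨hxy, h2⟩) (mem_Cn.2 ⟨h4, h5.symm⟩) (Ne.symm hwy) ?_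
    rw [h6, ← cc_perm1, h3]
  refine ⟨e1, ?_⟩
  rw [← cc_same hG.two hxy (mem_Cn.2 ⟨h1, h2.symm⟩) (mem_Cn.2 ⟨h4, e1.symm⟩) h5, h3]

theorem Kl_symm {q : ℕ} {x y z : V} (hxy : G.Adj x y) (hz : z ∈ Kl G q x y) :
    y ∈ Kl G q x z := by
  obtain ⟨h1, rfl | ⟨h2, h3⟩⟩ := mem_Kl.1 hz
  · exact hz
  · exact mem_Kl.2 ⟨hxy, Or.inr ⟨h2.symm, by rw [← cc_perm1, h3]⟩⟩

theorem Kl_eq {S : V → V → ℤ} (hS : Sg G S) {k a : ℕ} (hG : Odd2 G k a) {q : ℕ} {x y z : V}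
    (hxy : G.Adj x y) (hz : z ∈ Kl G q x y) : Kl G q x z = Kl G q x y :=
  Finset.Subset.antisymm (Kl_sub hS hG hxy hz)
    (Kl_sub hS hG (mem_Kl.1 hz).1 (Kl_symm hxy hz))

theorem Kl_inter {q q' : ℕ} (hq : q ≠ q') {x y z : V} (hz : z ∈ Kl G q x y)
    (hz' : z ∈ Kl G q' x y) : z = y := by
  obtain ⟨-, h | ⟨-, h3⟩⟩ := mem_Kl.1 hz
  · exact h
  obtain ⟨-, h | ⟨-, h4⟩⟩ := mem_Kl.1 hz'
  · exact h
  exact absurd (h3.symm.trans h4) hq

theorem Kl_card {k a : ℕ} (hG : Odd2 G k a) {x y : V} (hxy : G.Adj x y) :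
    (Kl G 1 x y).card = tt G x y + 1 ∧ (Kl G 0 x y).card + tt G x y = a + 1 := by
  have h : ∀ q, Kl G q x y = insert y ((Cn G x y).filter fun z => cc G x y z % 2 = q) := by
    intro q
    ext z
    rw [mem_Kl, Finset.mem_insert, Finset.mem_filter, mem_Cn]
    constructor
    · rintro ⟨h1, rfl | ⟨h2, h3⟩⟩
      · exact Or.inl rfl
      · exact Or.inr ⟨⟨h1, h2.symm⟩, h3⟩
    · rintro (rfl | ⟨⟨h1, h2⟩, h3⟩)
      · exact ⟨hxy, Or.inl rfl⟩
      · exact ⟨h1, Or.inr ⟨h2.symm, h3⟩⟩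
  have hn : ∀ q, y ∉ (Cn G x y).filter fun z => cc G x y z % 2 = q := by
    intro q hq
    rw [Finset.mem_filter, mem_Cn] at hq
    exact G.loopless.irrefl y hq.1.2
  have e1 : (Cn G x y).filter (fun z => cc G x y z % 2 = 1) =
      (Cn G x y).filter (fun z => Odd (cc G x y z)) := by
    ext z
    rw [Finset.mem_filter, Finset.mem_filter, Nat.odd_iff]
  have e2 : (Cn G x y).filter (fun z => cc G x y z % 2 = 0) =
      (Cn G x y).filter (fun z => ¬ Odd (cc G x y z)) := by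
    ext z
    rw [Finset.mem_filter, Finset.mem_filter, Nat.not_odd_iff]
  have e3 := Finset.card_filter_add_card_filter_not (s := Cn G x y) (fun z => Odd (cc G x y z))
  rw [hG.lam x y hxy] at e3
  rw [h, h, Finset.card_insert_of_notMem (hn 1), Finset.card_insert_of_notMem (hn 0), e1, e2]
  unfold tt
  omega

/-- the count -/
theorem bound {S : V → V → ℤ} (hS : Sg G S) {k a : ℕ} (hG : Odd2 G k a) {q q' : ℕ} (hq : q ≠ q')
    {x y : V} (hxy : G.Adj x y) (α β : ℕ) (h1 : ∀ z, G.Adj x z → tt G x z = tt G x y →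
      (Kl G q x z).card = α + 1 ∧ (Kl G q' x z).card = β + 1) :
    (α + 1) * (1 + (α + 1) * β) ≤ k := by
  set Q := Kl G q x y with hQ
  let I : Finset (Σ _ : V, V) := Q.sigma fun y' => (Kl G q' x y').erase y'
  have hQa : ∀ y' ∈ Q, G.Adj x y' := fun y' h => (mem_Kl.1 h).1
  have hQt : ∀ y' ∈ Q, tt G x y' = tt G x y := fun y' h => Kl_tt hS hG hxy h
  have hIa : ∀ p ∈ I, G.Adj x p.1 ∧ G.Adj x p.2 ∧ tt G x p.2 = tt G x y := by
    intro p hp
    obtain ⟨e1, e2⟩ := Finset.mem_sigma.1 hp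
    have e3 := Finset.mem_of_mem_erase e2
    exact ⟨hQa _ e1, (mem_Kl.1 e3).1, (Kl_tt hS hG (hQa _ e1) e3).trans (hQt _ e1)⟩
  have hIc : I.card = (α + 1) * β := by
    rw [Finset.card_sigma, Finset.sum_congr rfl (fun y' hy' => ?_), Finset.sum_const,
      (h1 y hxy rfl).1, smul_eq_mul]
    rw [Finset.card_erase_of_mem (self_Kl (hQa y' hy')), (h1 y' (hQa y' hy') (hQt y' hy')).2]
    rfl
  have hdisj : ∀ p ∈ I, ∀ p' ∈ I, p ≠ p' → Disjoint (Kl G q x p.2) (Kl G q x p'.2) := by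
    rintro ⟨y', z⟩ hp ⟨y'', z2⟩ hp' hne
    have ha := hIa _ hp
    have ha' := hIa _ hp'
    obtain ⟨e1, e2⟩ := Finset.mem_sigma.1 hp
    obtain ⟨e1', e2'⟩ := Finset.mem_sigma.1 hp'
    simp only at ha ha' e1 e2 e1' e2'
    obtain ⟨e3, e4⟩ := Finset.mem_erase.1 e2
    obtain ⟨e3', e4'⟩ := Finset.mem_erase.1 e2'
    rw [Finset.disjoint_left]
    intro w hw hw'
    simp only at hw hw'
    have f1 : z2 ∈ Kl G q x z := by
      rw [← Kl_eq hS hG ha.2.1 hw, Kl_eq hS hG ha'.2.1 hw']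
      exact self_Kl ha'.2.1
    by_cases hyy : y' = y''
    · subst hyy
      have f2 : z2 ∈ Kl G q' x z := by
        rw [Kl_eq hS hG ha.1 e4]
        exact e4'
      have f3 := Kl_inter hq f1 f2
      subst f3
      exact hne rfl
    · -- adjacencies
      have g1 : y'' ∈ Kl G q x y' := by
        rw [Kl_eq hS hG hxy e1]
        exact e1'
      obtain ⟨-, g2 | ⟨g2, g3⟩⟩ := mem_Kl.1 g1
      · exact hyy g2.symm
      obtain ⟨-, g4 | ⟨g4, g5⟩⟩ := mem_Kl.1 e4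
      · exact e3 g4
      obtain ⟨-, g6 | ⟨g6, g7⟩⟩ := mem_Kl.1 e4'
      · exact e3' g6
      obtain ⟨-, g8 | ⟨g8, g9⟩⟩ := mem_Kl.1 f1
      · subst g8
        have g10 := cc_same hG.two ha.1 (mem_Cn.2 ⟨ha.2.1, g4.symm⟩) (mem_Cn.2 ⟨ha'.1, g2.symm⟩)
          g6.symm
        omega
      · by_cases hyz : y' = z2
        · subst hyz
          rw [cc_perm1] at g7
          omega
        · have hadj : G.Adj y' z2 := by
            refine hG.two.three hyz ha.1.symm ha'.2.1 g4 g8 g2 g6 ha.2.1.ne ha'.1.ne ?_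
            rintro rfl
            omega
          have g10 := cc_same hG.two ha.2.1 (mem_Cn.2 ⟨ha.1, g4⟩) (mem_Cn.2 ⟨ha'.2.1, g8.symm⟩)
            hadj
          rw [← cc_perm1] at g10
          omega
  have hdQ : Disjoint Q (I.biUnion fun p => Kl G q x p.2) := by
    rw [Finset.disjoint_left]
    intro w hw hw'
    obtain ⟨p, hp, hwp⟩ := Finset.mem_biUnion.1 hw'
    have ha := hIa _ hp
    obtain ⟨e1, e2⟩ := Finset.mem_sigma.1 hp
    obtain ⟨e3, e4⟩ := Finset.mem_erase.1 e2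
    have f1 : p.2 ∈ Kl G q x p.1 := by
      rw [Kl_eq hS hG hxy e1, ← Kl_eq hS hG hxy hw, Kl_eq hS hG ha.2.1 hwp]
      exact self_Kl ha.2.1
    exact e3 (Kl_inter hq f1 e4)
  have hsub : Q ∪ (I.biUnion fun p => Kl G q x p.2) ⊆ univ.filter fun w => G.Adj x w := by
    intro w hw
    rw [Finset.mem_filter]
    refine ⟨Finset.mem_univ _, ?_⟩
    rcases Finset.mem_union.1 hw with hw | hw
    · exact hQa w hw
    · obtain ⟨p, -, hwp⟩ := Finset.mem_biUnion.1 hw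
      exact (mem_Kl.1 hwp).1
  have hc := Finset.card_le_card hsub
  rw [hG.reg x, Finset.card_union_of_disjoint hdQ, Finset.card_biUnion hdisj,
    Finset.sum_congr rfl (fun p hp => (h1 p.2 (hIa p hp).2.1 (hIa p hp).2.2).1), Finset.sum_const,
    hIc, (h1 y hxy rfl).1, smul_eq_mul] at hc
  calc (α + 1) * (1 + (α + 1) * β) = α + 1 + (α + 1) * β * (α + 1) := by ring
    _ ≤ k := hc

theorem bounds {S : V → V → ℤ} (hS : Sg G S) {k a : ℕ} (hG : Odd2 G k a) {x y : V}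
    (hxy : G.Adj x y) (s t : ℕ) (ht : tt G x y = t) (hs : s + t = a) :
    (s + 1) * (1 + (s + 1) * t) ≤ k ∧ (t + 1) * (1 + (t + 1) * s) ≤ k := by
  have h0 : ∀ z, G.Adj x z → tt G x z = tt G x y →
      (Kl G 0 x z).card = s + 1 ∧ (Kl G 1 x z).card = t + 1 := by
    intro z hz htz
    obtain ⟨e1, e2⟩ := Kl_card hG hz
    rw [htz, ht] at e1 e2
    exact ⟨by omega, e1⟩
  exact ⟨bound hS hG (by norm_num) hxy s t h0,
    bound hS hG (by norm_num) hxy t s fun z hz htz => ⟨(h0 z hz htz).2, (h0 z hz htz).1⟩⟩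

end Pool.Agent.SRQ
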