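import Pool.Agent.SRQ.OddE
import Pool.Agent.SRQ.OddF

/-! # SRQ (helper6): the theorem for odd `a` (MP_6f6da3_co) -/

set_option autoImplicit false
set_option linter.unusedSectionVars false

namespace Pool.Agent.SRQ

open Finset

/-! ### arithmetic -/

/-- two odd numbers -/
theorem gap {x y : ℤ} (hx : 0 ≤ x) (hy : 0 ≤ y) (ox : Odd x) (oy : Odd y) (h : x * x < y * y) :
    4 * x + 4 ≤ y * y - x * x := by
  have h1 : x < y := by
    by_contra hc
    push Not at hc
    nlinarith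
  have h2 : x + 2 ≤ y := by
    obtain ⟨p, hp⟩ := ox
    obtain ⟨q, hq⟩ := oy
    omega
  nlinarith

/-- the cases excluded by inequalities -/
theorem arith (s t k D E : ℤ) (hs : 1 ≤ s) (ht : 0 ≤ t) (os : Odd s) (et : Even t) (hD : 0 ≤ D)
    (hE : 0 ≤ E) (h1 : D * D = (s + t) ^ 2 - 4 * (s + t) - 4 + 4 * k)
    (h2 : E * E = (s - t) ^ 2 + 4 * k) (hk : s + t + 2 ≤ k)
    (b1 : (s + 1) * (1 + (s + 1) * t) ≤ k) (b2 : (t + 1) * (1 + (t + 1) * s) ≤ k) :
    (s = 3 ∧ t = 2) ∨ (7 ≤ s ∧ 8 ≤ t ∧ 19 ≤ s + t ∧ 64 * k < (s + t - 2) ^ 4) := by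
  have oD : Odd D := by
    have h3 : Odd (D * D) := by
      rw [h1]
      obtain ⟨p, hp⟩ := os
      obtain ⟨q, hq⟩ := et
      exact ⟨2 * (p + q) ^ 2 + 2 * (p + q) - 4 * (p + q) - 4 + 2 * k, by rw [hp, hq]; ring⟩
    exact (Int.odd_mul.1 h3).1
  have oE : Odd E := by
    have h3 : Odd (E * E) := by
      rw [h2]
      obtain ⟨p, hp⟩ := os
      obtain ⟨q, hq⟩ := et
      exact ⟨2 * (p - q) ^ 2 + 2 * (p - q) + 2 * k, by rw [hp, hq]; ring⟩
    exact (Int.odd_mul.1 h3).1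
  have hdiff : D * D - E * E = 4 * ((s - 1) * (t - 1) - 2) := by rw [h1, h2]; ring
  -- the case `M < 0`
  have ht0 : t ≠ 0 := by
    rintro rfl
    have h3 : D * D < E * E := by nlinarith
    have h4 := gap hD hE oD oE h3
    have h5 : D + 2 ≤ E := by
      by_contra hc
      have h6 : E ≤ D + 1 := by omega
      have : E ≤ D := by
        obtain ⟨p, hp⟩ := oD
        obtain ⟨q, hq⟩ := oE
        omega
      nlinarith
    have h6 : E ≤ s + 2 := by nlinarith
    nlinarith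
  have hs1 : s ≠ 1 := by
    rintro rfl
    have h3 : D * D < E * E := by nlinarith
    have h4 := gap hD hE oD oE h3
    have h5 : D ≤ 1 := by nlinarith
    have h6 : 1 ≤ t := by omega
    nlinarith
  by_cases hM : (s - 1) * (t - 1) - 2 ≤ 0
  · left
    have h3 : 3 ≤ s := by
      obtain ⟨p, hp⟩ := os
      omega
    have h4 : 2 ≤ t := by
      obtain ⟨q, hq⟩ := et
      omega
    constructor
    · nlinarith
    · nlinarith
  · right
    push Not at hM
    have h3 := gap hE hD oE oD (by linarith)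
    have h4 : E ≤ (s - 1) * (t - 1) - 3 := by linarith
    have h5 : E * E ≤ ((s - 1) * (t - 1) - 3) * ((s - 1) * (t - 1) - 3) :=
      mul_le_mul h4 h4 hE (by linarith)
    have h6 : (s - t) ^ 2 + 4 * k ≤ ((s - 1) * (t - 1) - 3) * ((s - 1) * (t - 1) - 3) := by
      rw [← h2]
      exact h5
    have hs3 : 3 ≤ s := by
      obtain ⟨p, hp⟩ := os
      omega
    have ht2 : 2 ≤ t := by
      obtain ⟨q, hq⟩ := et
      omega
    have n2 : t ≠ 2 := by
      rintro rfl
      nlinarith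
    have n4 : t ≠ 4 := by
      rintro rfl
      nlinarith
    have n6 : t ≠ 6 := by
      rintro rfl
      nlinarith
    have m3 : s ≠ 3 := by
      rintro rfl
      nlinarith
    have m5 : s ≠ 5 := by
      rintro rfl
      nlinarith
    have c1 : ¬ (s = 7 ∧ t = 8) := by
      rintro ⟨rfl, rfl⟩
      linarith
    have c2 : ¬ (s = 7 ∧ t = 10) := by
      rintro ⟨rfl, rfl⟩
      linarith
    have c3 : ¬ (s = 9 ∧ t = 8) := by
      rintro ⟨rfl, rfl⟩
      linarith
    have h7 : 64 * k < (s + t - 2) ^ 4 := by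
      set P := (s - 1) * (t - 1) with hP
      have e1 : 4 * P = (s + t - 2) ^ 2 - (s - t) ^ 2 := by rw [hP]; ring
      have e2 : 4 * P ≤ (s + t - 2) ^ 2 := by nlinarith [sq_nonneg (s - t)]
      have e3 : (4 * P) * (4 * P) ≤ (s + t - 2) ^ 2 * (s + t - 2) ^ 2 :=
        mul_le_mul e2 e2 (by linarith) (by positivity)
      have e4 : 4 * k ≤ (P - 3) * (P - 3) := by nlinarith [sq_nonneg (s - t)]
      have e5 : (s + t - 2) ^ 2 * (s + t - 2) ^ 2 = (s + t - 2) ^ 4 := by ring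
      nlinarith
    obtain ⟨p, hp⟩ := os
    obtain ⟨q, hq⟩ := et
    refine ⟨by omega, by omega, by omega, h7⟩

/-- a lower bound for the degree -/
theorem lower (s t k : ℤ) (hs : 7 ≤ s) (ht : 8 ≤ t) (b1 : (s + 1) * (1 + (s + 1) * t) ≤ k)
    (b2 : (t + 1) * (1 + (t + 1) * s) ≤ k) : 7 * (s + t - 7) ^ 2 < k := by
  obtain ⟨p, hp⟩ : ∃ p : ℤ, s = p + 7 := ⟨s - 7, by ring⟩
  obtain ⟨q, hq⟩ : ∃ q : ℤ, t = q + 8 := ⟨t - 8, by ring⟩
  subst hp hq
  have hp0 : 0 ≤ p := by linarith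
  have hq0 : 0 ≤ q := by linarith
  by_contra hc
  push Not at hc
  have c1 : (p + 8) * (p + 9) + (p + 8) * (p - 6) * q ≤ 7 * q ^ 2 := by nlinarith
  have c2 : 15 * q + 128 + p * (q ^ 2 + 4 * q - 31) ≤ 7 * p ^ 2 := by nlinarith
  by_cases h10 : 10 ≤ p
  · by_cases hqp : p ≤ q
    · have e1 : p * (p ^ 2 + 4 * p - 31) ≤ p * (q ^ 2 + 4 * q - 31) :=
        mul_le_mul_of_nonneg_left (by nlinarith) hp0
      have e2 : 7 * p ^ 2 < 15 * p + 128 + p * (p ^ 2 + 4 * p - 31) := by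
        obtain ⟨r, hr⟩ : ∃ r : ℤ, p = r + 10 := ⟨p - 10, by ring⟩
        have hr0 : 0 ≤ r := by linarith
        subst hr
        have : 0 ≤ r ^ 3 := by positivity
        nlinarith
      linarith
    · have e1 : q ≤ p - 1 := by omega
      have e2 : 7 * q * q ≤ 7 * q * (p - 1) := mul_le_mul_of_nonneg_left e1 (by linarith)
      have e3 : 7 * (p - 1) * q ≤ (p + 8) * (p - 6) * q :=
        mul_le_mul_of_nonneg_right (by nlinarith) hq0
      nlinarith
  · push Not at h10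
    by_cases hq2 : q ≤ 12
    · interval_cases p <;> interval_cases q <;> omega
    · interval_cases p <;> nlinarith

end Pool.Agent.SRQ
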