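import Pool.Agent.SRQ.OddG

/-! # SRQ (helper6): strongly regular graphs with `c = 2` and `a` odd (MP_6f6da3_co) -/

set_option autoImplicit false
set_option linter.unusedSectionVars false

namespace Pool.Agent.SRQ

open Finset

variable {V : Type} [Fintype V] [DecidableEq V] {G : SimpleGraph V} [DecidableRel G.Adj]

theorem mem_darts {t : ℕ} {x y : V} : (x, y) ∈ darts G t ↔ G.Adj x y ∧ tt G x y = t := by
  simp [darts]

/-- the second square -/
theorem type_sq {S : V → V → ℤ} (hS : Sg G S) {k a : ℕ} (hG : Odd2 G k a) {x y : V}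
    (hxy : G.Adj x y) : ∃ E : ℤ, 0 ≤ E ∧ E * E = ((a : ℤ) - 2 * tt G x y) ^ 2 + 4 * k := by
  obtain ⟨z, hz⟩ := trace_type hS hG (tt G x y)
  set d : ℤ := (a : ℤ) - 2 * tt G x y with hd
  have hd0 : d ≠ 0 := by
    obtain ⟨m, hm⟩ := hG.odd
    omega
  have hc : 0 < (darts G (tt G x y)).card := Finset.card_pos.2 ⟨(x, y), mem_darts.2 ⟨hxy, rfl⟩⟩
  have h0 : 0 ≤ d ^ 2 + 4 * k := by positivity
  obtain ⟨m, hm⟩ := Int.eq_ofNat_of_zero_le h0
  have h1 : IsSquare m := by
    refine sq_of_mul m (d * (darts G (tt G x y)).card) (z * k) ?_ ?_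
    · exact mul_ne_zero hd0 (by omega)
    · have e1 : (m : ℝ) = ((d ^ 2 : ℤ) : ℝ) + 4 * k := by
        have : ((d ^ 2 + 4 * k : ℤ) : ℝ) = ((m : ℤ) : ℝ) := by rw [hm]
        push_cast at this ⊢
        linarith
      rw [← e1] at hz
      push_cast at hz ⊢
      rw [hz]
      ring
  obtain ⟨E, hE⟩ := h1
  exact ⟨E, by positivity, by rw [hm, hE]; push_cast; ring⟩

/-- the types of the edges -/
theorem types {S : V → V → ℤ} (hS : Sg G S) {n k a : ℕ} (h : G.IsSRGWith n k a 2) (hne : G ≠ ⊤)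
    (ha : Odd a) {x y : V} (hxy : G.Adj x y) : ∃ s : ℕ, s + tt G x y = a ∧
      ((s = 3 ∧ tt G x y = 2) ∨ (7 ≤ s ∧ 8 ≤ tt G x y ∧ 19 ≤ a ∧ 7 * (a - 7) ^ 2 < k ∧
        64 * k < (a - 2) ^ 4)) := by
  have hG := Odd2.of_srg G n k a h ha
  obtain ⟨hk, -, -⟩ := param G n k a h hne
  obtain ⟨E, hE0, hE⟩ := type_sq hS hG hxy
  obtain ⟨D, hD⟩ := adj_square G n k a h hne ha
  obtain ⟨s, hs⟩ := Nat.exists_eq_add_of_le' (tt_le hG hxy)
  obtain ⟨b1, b2⟩ := bounds hS hG hxy s (tt G x y) rfl hs.symm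
  have he := tt_even hS hG hxy
  refine ⟨s, hs.symm, ?_⟩
  set t := tt G x y with ht
  have hsZ : (a : ℤ) = s + t := by exact_mod_cast hs
  have hso : Odd s := by
    obtain ⟨m, hm⟩ := ha
    obtain ⟨p, hp⟩ := he
    exact ⟨m - p, by omega⟩
  have hDZ : (D : ℤ) * D + (4 * a + 4) = 4 * k + a ^ 2 := by exact_mod_cast hD
  have key := arith s t k D E (by have := hso.pos; omega) (by omega) (by exact_mod_cast hso)
    (by exact_mod_cast he) (by omega) hE0 (by rw [hsZ] at hDZ; linarith)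
    (by rw [hE, hsZ]; ring) (by omega) (by exact_mod_cast b1) (by exact_mod_cast b2)
  rcases key with ⟨e1, e2⟩ | ⟨e1, e2, e3, e4⟩
  · exact Or.inl ⟨by omega, by omega⟩
  · have e5 := lower s t k e1 e2 (by exact_mod_cast b1) (by exact_mod_cast b2)
    have f1 : ((a - 7 : ℕ) : ℤ) = s + t - 7 := by omega
    have f2 : ((a - 2 : ℕ) : ℤ) = s + t - 2 := by omega
    refine Or.inr ⟨by omega, by omega, by omega, ?_, ?_⟩
    · rw [← f1] at e5
      exact_mod_cast e5
    · rw [← f2] at e4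
      exact_mod_cast e4

/-- the case `a = 5` -/
theorem no_five {S : V → V → ℤ} (hS : Sg G S) {n k : ℕ} (h : G.IsSRGWith n k 5 2)
    (hne : G ≠ ⊤) : False := by
  have ha : Odd 5 := by decide
  have hG := Odd2.of_srg G n k 5 h ha
  obtain ⟨hk, hn, hp⟩ := param G n k 5 h hne
  obtain ⟨D, hD⟩ := adj_square G n k 5 h hne ha
  obtain ⟨m, z, hm, hz⟩ := adj_trace G n k 5 h hne
  have hmD : m = D * D := by omega
  have ht : ∀ x y, G.Adj x y → tt G x y = 2 := by
    intro x y hxy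
    obtain ⟨s, hs, ⟨e1, e2⟩ | ⟨e1, e2, e3, -, -⟩⟩ := types hS h hne ha hxy
    · exact e2
    · omega
  have hV : Nonempty V := by
    rw [← Fintype.card_pos_iff, h.card]
    omega
  obtain ⟨x⟩ := hV
  obtain ⟨y, hy⟩ : (G.neighborFinset x).Nonempty := by
    rw [← Finset.card_pos, SimpleGraph.card_neighborFinset_eq_degree, h.regular x]
    omega
  rw [SimpleGraph.mem_neighborFinset] at hy
  obtain ⟨b1, -⟩ := bounds hS hG hy 3 2 (ht x y hy) rfl
  have hdc : (darts G 2).card = n * k := by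
    rw [darts, Finset.card_filter, ← Finset.univ_product_univ, Finset.sum_product]
    have e1 : ∀ u : V, ∑ v : V, (if G.Adj u v ∧ tt G u v = 2 then 1 else 0) = k := by
      intro u
      rw [← hG.reg u, Finset.card_filter]
      refine Finset.sum_congr rfl fun v _ => ?_
      by_cases huv : G.Adj u v
      · rw [if_pos ⟨huv, ht u v huv⟩, if_pos huv]
      · rw [if_neg (fun h' => huv h'.1), if_neg huv]
    rw [Finset.sum_congr rfl fun u _ => e1 u, Finset.sum_const, smul_eq_mul, Finset.card_univ,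
      h.card]
  obtain ⟨w, hw⟩ := trace_type hS hG 2
  have hDr : Real.sqrt (m : ℝ) = D := by
    rw [hmD]
    push_cast
    exact Real.sqrt_mul_self (by positivity)
  have hDr2 : Real.sqrt (((((5 : ℕ) : ℤ) - 2 * ((2 : ℕ) : ℤ)) ^ 2 : ℤ) + 4 * (k : ℝ)) = D := by
    have e1 : (((((5 : ℕ) : ℤ) - 2 * ((2 : ℕ) : ℤ)) ^ 2 : ℤ) + 4 * (k : ℝ)) = (D : ℝ) * D := by
      have e2 : ((D * D + (4 * 5 + 4) : ℕ) : ℝ) = ((4 * k + 5 ^ 2 : ℕ) : ℝ) := by rw [hD]
      push_cast at e2 ⊢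
      linarith
    rw [e1]
    exact Real.sqrt_mul_self (by positivity)
  rw [hDr] at hz
  rw [hDr2, hdc] at hw
  have hz' : (((5 : ℕ) : ℤ) - 2) * (n - 1) + 2 * k = z * D := by exact_mod_cast hz
  have hw' : (((5 : ℕ) : ℤ) - 2 * ((2 : ℕ) : ℤ)) * (n * k) = w * (k * D) := by exact_mod_cast hw
  have hk0 : (k : ℤ) ≠ 0 := by omega
  have hnw : (n : ℤ) = w * D := by
    apply mul_right_cancel₀ hk0
    push_cast at hw'
    linarith
  have hDk : (D : ℤ) * D = 4 * k + 1 := by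
    have : ((D * D + (4 * 5 + 4) : ℕ) : ℤ) = ((4 * k + 5 ^ 2 : ℕ) : ℤ) := by rw [hD]
    push_cast at this
    linarith
  have h7 : (D : ℤ) ∣ 7 := by
    refine ⟨6 * w - 2 * z + D, ?_⟩
    push_cast at hz'
    linarith
  have h8 := Int.le_of_dvd (by norm_num) h7
  have h9 : (D : ℤ) * D ≤ 7 * 7 := mul_le_mul h8 h8 (by positivity) (by norm_num)
  omega

/-- a maximal clique -/
theorem max_card {S : V → V → ℤ} (hS : Sg G S) {n k a : ℕ} (h : G.IsSRGWith n k a 2) (hne : G ≠ ⊤)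
    (ha : Odd a) (L : Finset V) (hL : Maximal G.IsClique (L : Set V)) :
    ∃ s t : ℕ, s + t = a ∧ ((s = 3 ∧ t = 2) ∨ (7 ≤ s ∧ 8 ≤ t)) ∧
      (L.card = s + 2 ∨ L.card = t + 2) := by
  have hG := Odd2.of_srg G n k a h ha
  obtain ⟨hk, hn, hp⟩ := param G n k a h hne
  have hcl : ∀ p ∈ L, ∀ q ∈ L, p ≠ q → G.Adj p q := fun p hp q hq hpq =>
    hL.1 hp hq hpq
  have hmax : ∀ w, (∀ p ∈ L, p ≠ w → G.Adj p w) → w ∈ L := by
    intro w hw
    have h1 : G.IsClique (insert w (L : Set V)) := by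
      rw [SimpleGraph.isClique_insert]
      exact ⟨hL.1, fun p hp hpw => (hw p hp (Ne.symm hpw)).symm⟩
    have h2 := hL.2 h1 (Set.subset_insert w (L : Set V))
    exact h2 (Set.mem_insert w _)
  have hV : Nonempty V := by
    rw [← Fintype.card_pos_iff, h.card]
    omega
  obtain ⟨x0⟩ := hV
  obtain ⟨x, hx⟩ : L.Nonempty := by
    rw [Finset.nonempty_iff_ne_empty]
    rintro rfl
    exact absurd (hmax x0 (by simp)) (by simp)
  obtain ⟨y, hy, hxy⟩ : ∃ y ∈ L, G.Adj x y := by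
    by_contra hc
    push Not at hc
    have h1 : ∀ p ∈ L, p = x := by
      intro p hp
      by_contra hpx
      exact hc p hp (hcl x hx p hp (Ne.symm hpx))
    obtain ⟨y, hy⟩ : (G.neighborFinset x).Nonempty := by
      rw [← Finset.card_pos, SimpleGraph.card_neighborFinset_eq_degree, h.regular x]
      omega
    rw [SimpleGraph.mem_neighborFinset] at hy
    have h2 := hmax y fun p hp _ => by rw [h1 p hp]; exact hy
    exact hc y h2 hy
  obtain ⟨z, hz, hzC⟩ : ∃ z ∈ L, z ∈ Cn G x y := by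
    by_contra hc
    push Not at hc
    have h1 : ∀ p ∈ L, p = x ∨ p = y := by
      intro p hp
      by_contra hpx
      rw [not_or] at hpx
      exact hc p hp (mem_Cn.2 ⟨hcl x hx p hp (Ne.symm hpx.1), hcl p hp y hy hpx.2⟩)
    obtain ⟨z, hz⟩ : (Cn G x y).Nonempty := by
      rw [← Finset.card_pos, hG.lam x y hxy]
      exact ha.pos
    have hz' := mem_Cn.1 hz
    have h2 := hmax z fun p hp _ => by
      rcases h1 p hp with rfl | rfl
      · exact hz'.1
      · exact hz'.2.symm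
    exact hc z h2 hz
  have hLeq : L = insert x (insert y (cls G x y z)) := by
    ext w
    rw [Finset.mem_insert, Finset.mem_insert]
    constructor
    · intro hw
      by_cases hwx : w = x
      · exact Or.inl hwx
      by_cases hwy : w = y
      · exact Or.inr (Or.inl hwy)
      refine Or.inr (Or.inr (mem_cls.2 ⟨⟨hcl x hx w hw (Ne.symm hwx), hcl w hw y hy hwy⟩, ?_⟩))
      by_cases hwz : w = z
      · exact Or.inl hwz
      · exact Or.inr (hcl z hz w hw (Ne.symm hwz))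
    · rintro (rfl | rfl | hw)
      · exact hx
      · exact hy
      refine hmax w fun p hp hpw => ?_
      obtain ⟨hwC, hwz⟩ := mem_cls.1 hw
      by_cases hpx : p = x
      · rw [hpx]
        exact hwC.1
      by_cases hpy : p = y
      · rw [hpy]
        exact hwC.2.symm
      rcases hwz with rfl | hwz
      · exact hcl p hp w hz hpw
      by_cases hpz : p = z
      · rw [hpz]
        exact hwz
      exact hG.two.trans hxy (mem_Cn.2 ⟨hcl x hx p hp (Ne.symm hpx), hcl p hp y hy hpy⟩) hzC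
        (mem_Cn.2 hwC) (hcl p hp z hz hpz) hwz hpw
  have hLc : L.card = cc G x y z + 3 := by
    rw [hLeq, Finset.card_insert_of_notMem, Finset.card_insert_of_notMem, card_cls hzC]
    · intro hy'
      exact G.loopless.irrefl y (mem_cls.1 hy').1.2
    · rw [Finset.mem_insert, not_or]
      exact ⟨hxy.ne, fun hx' => G.loopless.irrefl x (mem_cls.1 hx').1.1⟩
  obtain ⟨s, hs, hcase⟩ := types hS h hne ha hxy
  refine ⟨s, tt G x y, hs, hcase.imp id (fun h' => ⟨h'.1, h'.2.1⟩), ?_⟩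
  obtain ⟨e1, e2⟩ := tt_spec hS hG hxy hzC
  rcases Nat.even_or_odd (cc G x y z) with hc | hc
  · have := e2 hc
    left
    omega
  · have := e1 hc
    right
    omega

/-- **Theorem.** `c = 2` and `a` odd. -/
theorem odd_three' (G : SimpleGraph V) [DecidableRel G.Adj] (n k a : ℕ)
    (h : G.IsSRGWith n k a 2) (hne : G ≠ ⊤) (ha : Odd a)
    (hd : a ≤ 17 ∨ k ≤ 7 * (a - 7) ^ 2 ∨ (a - 2) ^ 4 ≤ 64 * k ∨
      ∃ L : Finset V, Maximal G.IsClique (L : Set V) ∧ (L.card ≤ 8 ∨ a ≤ L.card + 4)) :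
    qG G = 3 := by
  obtain ⟨hk, hn, -⟩ := param G n k a h hne
  have hG := Odd2.of_srg G n k a h ha
  have hV : Nonempty V := by
    rw [← Fintype.card_pos_iff, h.card]
    omega
  obtain ⟨x⟩ := hV
  obtain ⟨y, hy⟩ : (G.neighborFinset x).Nonempty := by
    rw [← Finset.card_pos, SimpleGraph.card_neighborFinset_eq_degree, h.regular x]
    omega
  rw [SimpleGraph.mem_neighborFinset] at hy
  refine q_three G n k a 2 h x y hy fun A hA h2 => ?_
  obtain ⟨α, β, hAA⟩ := two_ev hA.1 h2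
  obtain ⟨S, hS⟩ := Sg.of_mat hG.two hA hAA
  have h5 : a ≠ 5 := by
    rintro rfl
    exact no_five hS h hne
  rcases hd with hd | hd | hd | ⟨L, hL, hd⟩
  · obtain ⟨s, hs, ⟨e1, e2⟩ | ⟨e1, e2, e3, e4, e5⟩⟩ := types hS h hne ha hy <;> omega
  · obtain ⟨s, hs, ⟨e1, e2⟩ | ⟨e1, e2, e3, e4, e5⟩⟩ := types hS h hne ha hy
    · omega
    · exact absurd hd (not_le.2 e4)
  · obtain ⟨s, hs, ⟨e1, e2⟩ | ⟨e1, e2, e3, e4, e5⟩⟩ := types hS h hne ha hy
    · omega
    · exact absurd hd (not_le.2 e5)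
  · obtain ⟨s, t, hs, ⟨e1, e2⟩ | ⟨e1, e2⟩, hc⟩ := max_card hS h hne ha L hL <;> omega

end Pool.Agent.SRQ
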