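import Mathlib
import Pool.Agent.SRQ.Defs

/-! # SRQ (helper6): sign matrices (MP_6f6da3_co) -/

set_option autoImplicit false

namespace Pool.Agent.SRQ

open Finset

variable {V : Type} [Fintype V]

/-- sign matrices with the pattern of `G` whose square vanishes at the nonadjacent pairs -/
structure Sg (G : SimpleGraph V) (S : V → V → ℤ) : Prop where
  symm : ∀ x y, S x y = S y x
  zero : ∀ x y, ¬ G.Adj x y → S x y = 0
  one : ∀ x y, G.Adj x y → S x y * S x y = 1
  quad : ∀ x y, x ≠ y → ¬ G.Adj x y → ∑ w, S x w * S w y = 0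

/-- two different nonadjacent vertices have exactly two common neighbours -/
def Two (G : SimpleGraph V) : Prop := ∀ x y, x ≠ y → ¬ G.Adj x y →
  ∃ u v, u ≠ v ∧ ∀ w, (G.Adj x w ∧ G.Adj w y) ↔ (w = u ∨ w = v)

theorem sum_two {G : SimpleGraph V} {x y u v : V} (huv : u ≠ v)
    (h : ∀ w, (G.Adj x w ∧ G.Adj w y) ↔ (w = u ∨ w = v)) {R : Type} [CommRing R] (f : V → R)
    (hf : ∀ w, ¬ (G.Adj x w ∧ G.Adj w y) → f w = 0) : ∑ w, f w = f u + f v := by
  classical
  rw [← Finset.sum_pair huv]
  symm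
  refine Finset.sum_subset (Finset.subset_univ _) ?_
  intro w _ hw
  apply hf
  rw [h]
  simpa using hw

theorem Sg.of_mat {G : SimpleGraph V} [DecidableEq V] (h2 : Two G) {A : Matrix V V ℝ}
    (hA : A ∈ SG G) {α β : ℝ} (h : A * A = α • A + β • (1 : Matrix V V ℝ)) :
    ∃ S : V → V → ℤ, Sg G S := by
  classical
  obtain ⟨hs, hp⟩ := hA
  let S : V → V → ℤ := fun x y => if G.Adj x y then (if 0 < A x y then 1 else -1) else 0
  have hS : ∀ x y, G.Adj x y → ∃ t : ℝ, 0 < t ∧ A x y = t * (S x y : ℝ) ∧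
      (S x y = 1 ∨ S x y = -1) := by
    intro x y hxy
    have hne : A x y ≠ 0 := (hp x y hxy.ne).2 hxy
    rcases lt_or_gt_of_ne hne with hlt | hgt
    · refine ⟨-A x y, by linarith, ?_, Or.inr ?_⟩
      · simp [S, hxy, not_lt.2 hlt.le]
      · simp [S, hxy, not_lt.2 hlt.le]
    · refine ⟨A x y, hgt, ?_, Or.inl ?_⟩
      · simp [S, hxy, hgt]
      · simp [S, hxy, hgt]
  refine ⟨S, ?_, ?_, ?_, ?_⟩
  · intro x y
    have h1 : A x y = A y x := by
      conv_lhs => rw [← hs]
      rfl
    simp only [S, G.adj_comm x y, h1]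
  · intro x y hxy
    simp [S, hxy]
  · intro x y hxy
    obtain ⟨t, -, -, h1 | h1⟩ := hS x y hxy <;> rw [h1] <;> norm_num
  · intro x y hne hxy
    obtain ⟨u, v, huv, huv'⟩ := h2 x y hne hxy
    have e1 := congrFun (congrFun h x) y
    have e0 : A x y = 0 := by
      by_contra h0
      exact hxy ((hp x y hne).1 h0)
    rw [Matrix.mul_apply, Matrix.add_apply, Matrix.smul_apply, Matrix.smul_apply,
      Matrix.one_apply_ne hne, e0, smul_zero, smul_zero, add_zero,
      sum_two huv huv' (fun w => A x w * A w y)] at e1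
    · rw [sum_two huv huv' (fun w => S x w * S w y)]
      · have hu := (huv' u).2 (Or.inl rfl)
        have hv := (huv' v).2 (Or.inr rfl)
        obtain ⟨t1, p1, q1, r1⟩ := hS x u hu.1
        obtain ⟨t2, p2, q2, r2⟩ := hS u y hu.2
        obtain ⟨t3, p3, q3, r3⟩ := hS x v hv.1
        obtain ⟨t4, p4, q4, r4⟩ := hS v y hv.2
        rw [q1, q2, q3, q4] at e1
        have p12 : 0 < t1 * t2 := mul_pos p1 p2
        have p34 : 0 < t3 * t4 := mul_pos p3 p4
        have key : ∀ s1 s2 s3 s4 : ℤ, (s1 = 1 ∨ s1 = -1) → (s2 = 1 ∨ s2 = -1) →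
            (s3 = 1 ∨ s3 = -1) → (s4 = 1 ∨ s4 = -1) →
            t1 * (s1 : ℝ) * (t2 * (s2 : ℝ)) + t3 * (s3 : ℝ) * (t4 * (s4 : ℝ)) = 0 →
            s1 * s2 + s3 * s4 = 0 := by
          rintro s1 s2 s3 s4 (rfl | rfl) (rfl | rfl) (rfl | rfl) (rfl | rfl) hh <;>
            push_cast at hh <;> first | (norm_num; done) | (exfalso; nlinarith)
        exact key _ _ _ _ r1 r2 r3 r4 e1
      · intro w hw
        rw [not_and_or] at hw
        rcases hw with hw | hw <;> simp [S, hw]
    · intro w hw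
      rw [not_and_or] at hw
      by_cases h1 : x = w
      · subst h1
        have : A x y = 0 := e0
        rw [this, mul_zero]
      · by_cases h2' : w = y
        · subst h2'
          rw [e0, zero_mul]
        · rcases hw with hw | hw
          · have : A x w = 0 := by
              by_contra h0
              exact hw ((hp x w h1).1 h0)
            rw [this, zero_mul]
          · have : A w y = 0 := by
              by_contra h0
              exact hw ((hp w y h2').1 h0)
            rw [this, mul_zero]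

theorem Two.of_srg (G : SimpleGraph V) [DecidableRel G.Adj] (n k a : ℕ)
    (h : G.IsSRGWith n k a 2) : Two G := by
  classical
  intro x y hne hxy
  have h1 := h.of_not_adj hne hxy
  rw [← Set.toFinset_card, Finset.card_eq_two] at h1
  obtain ⟨u, v, huv, h2⟩ := h1
  refine ⟨u, v, huv, fun w => ?_⟩
  have h3 : w ∈ (G.commonNeighbors x y).toFinset ↔ w ∈ ({u, v} : Finset V) := by rw [h2]
  rw [Set.mem_toFinset, SimpleGraph.mem_commonNeighbors, Finset.mem_insert,
    Finset.mem_singleton] at h3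
  rw [← h3]
  exact ⟨fun h => ⟨h.1, h.2.symm⟩, fun h => ⟨h.1, h.2.symm⟩⟩

end Pool.Agent.SRQ
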